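import Pool.Agent.R228.GL.Stm

/-!
# GL-F: assembly of the abstract blow-up theorem
-/

universe u

namespace Pool.Agent.R228.GL

open MeasureTheory Filter Set
open scoped ENNReal Topology FourierTransform ZeroAtInfty

/-- GL-F -/
theorem absF (hE : S_E.{u}) (_hN : S_N.{u}) (hC : S_C.{u}) (hR : S_RA) : S_F.{u} := by
  intro G _ _ _ P A z α γ T a0 w k p hT hEv t1 e1 h0 h1 he1 hle
  obtain ⟨-, hen⟩ := hE P A z α γ T a0 w k p hT hEv
  have hz := hEv.hre
  have hα := hEv.hα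
  -- the energy at `t1`
  have hA : α * γ * (∫ r in (0 : ℝ)..t1, Real.exp (α * γ * r) * p r) ≤
      ee A α γ w p t1 - ee A α γ w p 0 := by
    refine le_of_forall_pos_le_add fun ε hε => ?_
    obtain ⟨n, hn⟩ := (hen 0 t1 le_rfl h0 h1 ε hε).exists
    have h2 : 0 ≤ z.re * (∫ r in (0 : ℝ)..t1, ‖dw P A z α γ w k n r‖ ^ 2) :=
      mul_nonneg hz.le (intervalIntegral.integral_nonneg h0 fun r _ => sq_nonneg _)
    linarith
  have h00 : (0 : ℝ) ∈ Ico 0 T := ⟨le_rfl, h0.trans_lt h1⟩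
  have hB : -a0 / 2 ≤ ee A α γ w p 0 := by
    unfold ee
    rw [mul_zero, Real.exp_zero, one_mul]
    have h2 := hEv.p0 0 h00
    have h3 : aS A w 0 ≤ a0 := ciSup_le fun n => hEv.ini n
    linarith
  have hee : e1 ≤ ee A α γ w p t1 := by linarith
  have hpos : 0 < ee A α γ w p t1 := he1.trans_le hee
  obtain ⟨c1, c2⟩ := hC P A z α γ T a0 w k p hT hEv t1 h0 h1 hpos
  have key := hR ((α + 2) / 2) (2 * z.re * (α + 2)) t1 T (fun t => ‖w t‖ ^ 2) (ee A α γ w p)
    (by linarith) (by positivity) h1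
    ((hEv.cw.mono (Ico_subset_Ico_left h0)).norm.pow 2)
    (fun t ht => pow_pos (c1 t ht.1 ht.2) 2) hpos
    (fun s t hs hst htT => by
      obtain ⟨d1, d2, d3, d4⟩ := c2 s t hs hst htT
      exact ⟨pow_le_pow_left₀ (norm_nonneg _) d1 2, d2, d3, d4⟩)
  have h5 : 2 * z.re * (α + 2) * ((α + 2) / 2 - 1) * ee A α γ w p t1 * (T - t1) =
      z.re * α * (α + 2) * ee A α γ w p t1 * (T - t1) := by ring
  rw [h5] at key
  refine le_trans ?_ key
  have h6 : 0 ≤ z.re * α * (α + 2) := by positivity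
  exact mul_le_mul_of_nonneg_right (mul_le_mul_of_nonneg_left hee h6) (by linarith)

end Pool.Agent.R228.GL
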