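import Pool.Agent.R228.GL.Stm

/-!
GL-CLOSE: `w` stays close to `w 0`.
-/

set_option autoImplicit false

universe u

open MeasureTheory Filter Set
open scoped ENNReal Topology

namespace Pool.Agent.R228.GL

namespace CloseAux

variable {G : Type u} [NormedAddCommGroup G] [InnerProductSpace ℂ G]

/-- Cauchy-Schwarz with weights for a nonnegative symmetric operator. -/
lemma form_cs (A : G →L[ℂ] G) (hs : ∀ x y, inner ℂ (A x) y = inner ℂ x (A y))
    (hn : ∀ x, 0 ≤ (inner ℂ (A x) x).re) {κ : ℝ} (hκ : 0 < κ) (x y : G) :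
    2 * ‖inner ℂ x (A y)‖ ≤ 2 * κ * (inner ℂ (A x) x).re + (inner ℂ (A y) y).re / (2 * κ) := by
  obtain ⟨c, hc1, hc⟩ := RCLike.exists_norm_eq_mul_self (inner ℂ x (A y) : ℂ)
  have h := hn (((2 * κ : ℝ) : ℂ) • x - c • y)
  have hyx : inner ℂ (A y) x = (starRingEnd ℂ) (inner ℂ x (A y)) := (inner_conj_symm _ _).symm
  have e : inner ℂ (A (((2 * κ : ℝ) : ℂ) • x - c • y)) (((2 * κ : ℝ) : ℂ) • x - c • y)
      = ((2 * κ : ℝ) : ℂ) ^ 2 * inner ℂ (A x) x
        - ((2 * κ : ℝ) : ℂ) * (c * inner ℂ x (A y) + (starRingEnd ℂ) (c * inner ℂ x (A y)))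
        + ((starRingEnd ℂ) c * c) * inner ℂ (A y) y := by
    rw [map_sub, map_smul, map_smul, inner_sub_left, inner_sub_right, inner_sub_right]
    simp only [inner_smul_left, inner_smul_right, Complex.conj_ofReal, map_mul]
    rw [hs x y, hyx]
    ring
  rw [e, ← hc] at h
  have hcc : (starRingEnd ℂ) c * c = 1 := by
    rw [mul_comm, Complex.mul_conj, Complex.normSq_eq_norm_sq, hc1]
    simp
  rw [hcc, one_mul] at h
  have e2 : (((2 * κ : ℝ) : ℂ) ^ 2 * inner ℂ (A x) x
        - ((2 * κ : ℝ) : ℂ) * (((‖inner ℂ x (A y)‖ : ℝ) : ℂ)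
          + (starRingEnd ℂ) ((‖inner ℂ x (A y)‖ : ℝ) : ℂ)) + inner ℂ (A y) y).re
      = (2 * κ) ^ 2 * (inner ℂ (A x) x).re - 2 * κ * (2 * ‖inner ℂ x (A y)‖)
        + (inner ℂ (A y) y).re := by
    rw [Complex.conj_ofReal, ← Complex.ofReal_pow, ← Complex.ofReal_add, ← Complex.ofReal_mul,
      Complex.add_re, Complex.sub_re, Complex.re_ofReal_mul, Complex.ofReal_re]
    ring
  have h' : 0 ≤ (2 * κ) ^ 2 * (inner ℂ (A x) x).re - 2 * κ * (2 * ‖inner ℂ x (A y)‖)
        + (inner ℂ (A y) y).re := by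
    rw [← e2]
    exact h
  have h2 : 2 * κ * (2 * ‖inner ℂ x (A y)‖)
      ≤ 2 * κ * (2 * κ * (inner ℂ (A x) x).re + (inner ℂ (A y) y).re / (2 * κ)) := by
    have : 2 * κ * (2 * κ * (inner ℂ (A x) x).re + (inner ℂ (A y) y).re / (2 * κ))
        = (2 * κ) ^ 2 * (inner ℂ (A x) x).re + (inner ℂ (A y) y).re := by
      field_simp
    rw [this]
    linarith
  exact le_of_mul_le_mul_left h2 (by positivity)

end CloseAux

theorem close : S_CLOSE.{u} := by
  intro G _ _ _ P A z α γ T a0 w k p hP hE t Y B ht0 htT hb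
  have hκ := hE.hre
  have hY : 0 ≤ Y := (norm_nonneg _).trans (hb 0 le_rfl ht0).1
  have hB : 0 ≤ B := le_trans (by positivity) (hb 0 le_rfl ht0).2
  have key : ∀ n, ‖P n (w t) - P n (w 0)‖ ^ 2 ≤ t * (a0 / (2 * z.re) + 4 * Y * B) := by
    intro n
    set K : ℝ := a0 / (2 * z.re) + 4 * Y * B with hK
    set d : ℝ → G := fun r => P n (w r) - P n (w 0) with hd
    have hdn : ∀ r, ‖d r‖ ≤ ‖w r - w 0‖ := by
      intro r
      simp only [hd]
      rw [← map_sub]
      exact hP.norm_le n _
    set φ : ℝ → ℝ := fun r => (inner ℂ (d r) (d r)).re with hφ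
    have hφn : ∀ r, φ r = ‖d r‖ ^ 2 := by
      intro r
      simp only [hφ]
      exact inner_self_eq_norm_sq (𝕜 := ℂ) (d r)
    have hdd : ∀ r ∈ Ioo 0 T, HasDerivAt d (dw P A z α γ w k n r) r := fun r hr =>
      (hE.ode n r hr).sub_const _
    have hφd : ∀ r ∈ Ioo 0 T, HasDerivAt φ (2 * (inner ℂ (d r) (dw P A z α γ w k n r)).re) r := by
      intro r hr
      have h1 := (hdd r hr).inner ℂ (hdd r hr)
      have h2 := Complex.reCLM.hasFDerivAt.comp_hasDerivAt r h1
      have e1 : Complex.reCLM (inner ℂ (d r) (dw P A z α γ w k n r)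
          + inner ℂ (dw P A z α γ w k n r) (d r))
          = 2 * (inner ℂ (d r) (dw P A z α γ w k n r)).re := by
        rw [← inner_conj_symm (dw P A z α γ w k n r) (d r)]
        simp only [Complex.reCLM_apply, Complex.add_re, Complex.conj_re]
        ring
      rw [← e1]
      exact h2
    have hle : ∀ r ∈ Ioo 0 t, 2 * (inner ℂ (d r) (dw P A z α γ w k n r)).re ≤ K := by
      intro r hr
      have hAw : A n (w r) = A n (d r) + A n (w 0) := by
        simp only [hd]
        rw [map_sub, hP.AP, hP.AP]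
        abel
      have hreal : inner ℂ (d r) (A n (d r)) = (((inner ℂ (A n (d r)) (d r)).re : ℝ) : ℂ) := by
        apply Complex.ext
        · rw [← hP.symA, Complex.ofReal_re]
        · have h1 : (starRingEnd ℂ) (inner ℂ (A n (d r)) (d r)) = inner ℂ (A n (d r)) (d r) := by
            rw [inner_conj_symm]
            exact (hP.symA n _ _).symm
          have h2 := congrArg Complex.im h1
          rw [Complex.conj_im] at h2
          rw [← hP.symA, Complex.ofReal_im]
          linarith
      have e1 : inner ℂ (d r) (dw P A z α γ w k n r)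
          = z * (-(((inner ℂ (A n (d r)) (d r)).re : ℝ) : ℂ) - inner ℂ (d r) (A n (w 0))
            + ((Real.exp (α * γ * r) : ℝ) : ℂ) * inner ℂ (d r) (P n (k r))) := by
        unfold dw
        rw [inner_smul_right, inner_add_right, inner_neg_right, hAw, inner_add_right,
          inner_smul_right, hreal]
        ring
      rw [e1]
      have hcs := CloseAux.form_cs (A n) (hP.symA n) (hP.nonneg n) hκ (d r) (w 0)
      have hini := hE.ini n
      set q := (inner ℂ (A n (d r)) (d r)).re with hq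
      set b := inner ℂ (d r) (A n (w 0)) with hbdef
      have h3 : ‖((Real.exp (α * γ * r) : ℝ) : ℂ) * inner ℂ (d r) (P n (k r))‖ ≤ 2 * Y * B := by
        rw [norm_mul, Complex.norm_real, Real.norm_eq_abs, abs_of_pos (Real.exp_pos _)]
        have h4 : ‖inner ℂ (d r) (P n (k r))‖ ≤ ‖d r‖ * ‖P n (k r)‖ := norm_inner_le_norm _ _
        have h5 : ‖d r‖ ≤ 2 * Y := by
          refine (hdn r).trans ((norm_sub_le _ _).trans ?_)
          have := (hb r hr.1.le hr.2.le).1
          have := (hb 0 le_rfl ht0).1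
          linarith
        have h6 : ‖P n (k r)‖ ≤ ‖k r‖ := hP.norm_le n _
        have h7 := (hb r hr.1.le hr.2.le).2
        calc Real.exp (α * γ * r) * ‖inner ℂ (d r) (P n (k r))‖
            ≤ Real.exp (α * γ * r) * (2 * Y * ‖k r‖) := by
              apply mul_le_mul_of_nonneg_left _ (Real.exp_pos _).le
              exact h4.trans (mul_le_mul h5 h6 (norm_nonneg _) (by positivity))
          _ = 2 * Y * (Real.exp (α * γ * r) * ‖k r‖) := by ring
          _ ≤ 2 * Y * B := mul_le_mul_of_nonneg_left h7 (by positivity)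
      have h8 : (z * (-((q : ℝ) : ℂ) - b
            + ((Real.exp (α * γ * r) : ℝ) : ℂ) * inner ℂ (d r) (P n (k r)))).re
          ≤ -(z.re * q) + ‖b‖ + 2 * Y * B := by
        have h9 : z * (-((q : ℝ) : ℂ) - b
            + ((Real.exp (α * γ * r) : ℝ) : ℂ) * inner ℂ (d r) (P n (k r)))
            = -(z * ((q : ℝ) : ℂ)) + (-(z * b)
            + z * (((Real.exp (α * γ * r) : ℝ) : ℂ) * inner ℂ (d r) (P n (k r)))) := by ring
        rw [h9, Complex.add_re, Complex.add_re, Complex.neg_re, Complex.re_mul_ofReal]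
        have h10 : (-(z * b)).re ≤ ‖b‖ := by
          refine (Complex.re_le_norm _).trans ?_
          rw [norm_neg, norm_mul, hE.hz, one_mul]
        have h11 : (z * (((Real.exp (α * γ * r) : ℝ) : ℂ) * inner ℂ (d r) (P n (k r)))).re
            ≤ 2 * Y * B := by
          refine (Complex.re_le_norm _).trans ?_
          rw [norm_mul, hE.hz, one_mul]
          exact h3
        linarith
      have h12 : (inner ℂ (A n (w 0)) (w 0)).re / (2 * z.re) ≤ a0 / (2 * z.re) := by
        gcongr
      rw [hK]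
      nlinarith
    have hsub : Icc 0 t ⊆ Ico 0 T := fun r hr => ⟨hr.1, lt_of_le_of_lt hr.2 htT⟩
    have hcw : ContinuousOn w (Icc 0 t) := hE.cw.mono hsub
    have hcd : ContinuousOn d (Icc 0 t) :=
      ((P n).continuous.comp_continuousOn hcw).sub continuousOn_const
    have hcφ : ContinuousOn φ (Icc 0 t) := by
      have : φ = fun r => ‖d r‖ ^ 2 := funext hφn
      rw [this]
      exact hcd.norm.pow 2
    have hder : ∀ r ∈ Ioo 0 t, HasDerivAt (fun r => φ r - K * r)
        (2 * (inner ℂ (d r) (dw P A z α γ w k n r)).re - K) r := by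
      intro r hr
      have h1 := hφd r ⟨hr.1, hr.2.trans htT⟩
      have h2 : HasDerivAt (fun r : ℝ => K * r) K r := by
        simpa using (hasDerivAt_id r).const_mul K
      exact h1.sub h2
    have hanti : AntitoneOn (fun r => φ r - K * r) (Icc 0 t) := by
      refine antitoneOn_of_deriv_nonpos (convex_Icc 0 t) (hcφ.sub (by fun_prop)) ?_ ?_
      · intro r hr
        rw [interior_Icc] at hr
        exact (hder r hr).differentiableAt.differentiableWithinAt
      · intro r hr
        rw [interior_Icc] at hr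
        rw [(hder r hr).deriv]
        linarith [hle r hr]
    have h1 := hanti (left_mem_Icc.2 ht0) (right_mem_Icc.2 ht0) ht0
    simp only [mul_zero, sub_zero] at h1
    have h2 : φ 0 = 0 := by rw [hφn]; simp [hd]
    rw [h2, hφn t] at h1
    simp only [hd] at h1
    linarith
  have hlim : Tendsto (fun n => ‖P n (w t) - P n (w 0)‖ ^ 2) atTop (𝓝 (‖w t - w 0‖ ^ 2)) :=
    (((hP.tends (w t)).sub (hP.tends (w 0))).norm).pow 2
  exact le_of_tendsto' hlim key

end Pool.Agent.R228.GL
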