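import Mathlib

/-!
# Complex Ginzburg-Landau equation with large linear gain: definitions
-/

namespace Pool.Agent.R228.GL

open MeasureTheory Filter Set
open scoped ENNReal Topology FourierTransform ZeroAtInfty

/-- Euclidean space `ℝ^N` -/
abbrev E (N : ℕ) := EuclideanSpace ℝ (Fin N)

/-- `L²(ℝ^N; ℂ)` -/
noncomputable abbrev H (N : ℕ) := Lp (α := E N) ℂ 2 (volume : Measure (E N))

/-- `e^{iθ}` -/
noncomputable def zc (θ : ℝ) : ℂ := Complex.exp ((θ : ℂ) * Complex.I)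

/-- the kernel `G_θ(t)(x) = (4 π t e^{iθ})^{-N/2} exp(-|x|²/(4 t e^{iθ}))` -/
noncomputable def ker (N : ℕ) (θ t : ℝ) (x : E N) : ℂ :=
  (4 * (Real.pi : ℂ) * (t : ℂ) * zc θ) ^ (-(N : ℂ) / 2) *
    Complex.exp (-((‖x‖ ^ 2 : ℝ) : ℂ) / (4 * (t : ℂ) * zc θ))

/-- the semigroup `T_θ(t)` generated by `e^{iθ}Δ` -/
noncomputable def Tsg {N : ℕ} (θ t : ℝ) (f : E N → ℂ) (x : E N) : ℂ :=
  if t = 0 then f x else ∫ y, ker N θ t (x - y) * f y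

/-- the nonlinear term `e^{iθ}|f|^α f + γ f` -/
noncomputable def nl {N : ℕ} (θ α γ : ℝ) (f : E N → ℂ) (x : E N) : ℂ :=
  zc θ * ((‖f x‖ ^ α : ℝ) : ℂ) * f x + (γ : ℂ) * f x

/-- `u` is a mild solution on `[0,T)` in `C([0,T), C₀(ℝ^N))` of
`u_t = e^{iθ}[Δu + |u|^α u] + γu`, `u(0) = u₀` -/
structure IsMild {N : ℕ} (θ α γ T : ℝ) (u0 : C₀(E N, ℂ)) (u : ℝ → C₀(E N, ℂ)) : Prop where
  cont : ContinuousOn u (Ico 0 T)
  eq : ∀ t ∈ Ico 0 T, ∀ x, u t x = Tsg θ t (fun y => u0 y) x +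
    ∫ s in (0 : ℝ)..t, Tsg θ (t - s) (nl θ α γ (fun y => u s y)) x

/-- the maximal existence time: the supremum of all `T` such that a mild solution exists on
`[0,T)` -/
noncomputable def Tmax {N : ℕ} (θ α γ : ℝ) (u0 : C₀(E N, ℂ)) : ℝ≥0∞ :=
  ⨆ T : {T : ℝ // 0 < T ∧ ∃ u, IsMild θ α γ T u0 u}, ENNReal.ofReal T.1

/-- `f ∈ H¹(ℝ^N)`: `f ∈ L²` and `|ξ| f̂(ξ) ∈ L²` -/
def MemH1 {N : ℕ} (f : E N → ℂ) : Prop :=
  ∃ h : MemLp f 2 (volume : Measure (E N)),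
    Integrable (fun ξ : E N => ‖ξ‖ ^ 2 * ‖(𝓕 (h.toLp f) : H N) ξ‖ ^ 2) volume

/-- `4 π² |ξ|²` -/
noncomputable def aa {N : ℕ} (ξ : E N) : ℝ := 4 * Real.pi ^ 2 * ‖ξ‖ ^ 2

/-- abstract spectral truncations -/
structure IsTrunc {G : Type*} [NormedAddCommGroup G] [InnerProductSpace ℂ G]
    (P A : ℕ → G →L[ℂ] G) : Prop where
  tends : ∀ x, Tendsto (fun n => P n x) atTop (𝓝 x)
  norm_le : ∀ n x, ‖P n x‖ ≤ ‖x‖
  idem : ∀ n x, P n (P n x) = P n x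
  symP : ∀ n x y, inner ℂ (P n x) y = inner ℂ x (P n y)
  symA : ∀ n x y, inner ℂ (A n x) y = inner ℂ x (A n y)
  AP : ∀ n x, A n (P n x) = A n x
  PA : ∀ n x, P n (A n x) = A n x
  nonneg : ∀ n x, 0 ≤ (inner ℂ (A n x) x).re
  mono : ∀ n m x, n ≤ m → (inner ℂ (A n x) x).re ≤ (inner ℂ (A m x) x).re

/-- the abstract truncated evolution: `w : [0,T) → G`, `k` the nonlinearity, `p` its potential -/
structure IsEvol {G : Type*} [NormedAddCommGroup G] [InnerProductSpace ℂ G]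
    (P A : ℕ → G →L[ℂ] G) (z : ℂ) (α γ T a0 : ℝ) (w k : ℝ → G) (p : ℝ → ℝ) : Prop where
  hz : ‖z‖ = 1
  hre : 0 < z.re
  hα : 0 < α
  hγ : 0 ≤ γ
  cw : ContinuousOn w (Ico 0 T)
  ck : ContinuousOn k (Ico 0 T)
  p0 : ∀ t ∈ Ico 0 T, 0 ≤ p t
  kw : ∀ t ∈ Ico 0 T, inner ℂ (k t) (w t) = (((α + 2) * p t : ℝ) : ℂ)
  conv : ∀ s ∈ Ico 0 T, ∀ t ∈ Ico 0 T, (inner ℂ (k s) (w t - w s)).re ≤ p t - p s
  ode : ∀ n, ∀ t ∈ Ioo 0 T, HasDerivAt (fun s => P n (w s))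
    (z • (-(A n (w t)) + ((Real.exp (α * γ * t) : ℝ) : ℂ) • P n (k t))) t
  ini : ∀ n, (inner ℂ (A n (w 0)) (w 0)).re ≤ a0

end Pool.Agent.R228.GL
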