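import Pool.Agent.R228.GL.Stm

/-!
# GL-E: the energy inequality
-/

universe u

namespace Pool.Agent.R228.GL

open MeasureTheory Filter Set
open scoped ENNReal Topology

namespace EnAux

variable {G : Type u} [NormedAddCommGroup G] [InnerProductSpace ℂ G]
  {P A : ℕ → G →L[ℂ] G} {z : ℂ} {α γ T a0 : ℝ} {w k : ℝ → G} {p : ℝ → ℝ}

theorem an_eq (hP : IsTrunc P A) (w : ℝ → G) (n : ℕ) (t : ℝ) :
    an A w n t = (inner ℂ (A n (P n (w t))) (P n (w t))).re := by
  unfold an
  rw [hP.AP, ← hP.symP, hP.PA]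

theorem cdw (hE : IsEvol P A z α γ T a0 w k p) (n : ℕ) :
    ContinuousOn (fun r => dw P A z α γ w k n r) (Ico 0 T) := by
  unfold dw
  have h1 : ContinuousOn (fun r => A n (w r)) (Ico 0 T) :=
    (A n).continuous.comp_continuousOn hE.cw
  have h2 : ContinuousOn (fun r => P n (k r)) (Ico 0 T) :=
    (P n).continuous.comp_continuousOn hE.ck
  have h3 : ContinuousOn (fun r : ℝ => ((Real.exp (α * γ * r) : ℝ) : ℂ)) (Ico 0 T) := by
    apply Continuous.continuousOn
    fun_prop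
  exact (h1.neg.add (h3.smul h2)).const_smul z

theorem ch (hE : IsEvol P A z α γ T a0 w k p) :
    ContinuousOn (fun r => ((Real.exp (α * γ * r) : ℝ) : ℂ) • k r) (Ico 0 T) := by
  have h3 : ContinuousOn (fun r : ℝ => ((Real.exp (α * γ * r) : ℝ) : ℂ)) (Ico 0 T) := by
    apply Continuous.continuousOn
    fun_prop
  exact h3.smul hE.ck

theorem pw (hP : IsTrunc P A) (hE : IsEvol P A z α γ T a0 w k p) (n : ℕ) (r : ℝ) :
    z.re * ‖dw P A z α γ w k n r‖ ^ 2 =
      -(inner ℂ (A n (w r)) (dw P A z α γ w k n r)).re +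
        (inner ℂ (((Real.exp (α * γ * r) : ℝ) : ℂ) • k r) (dw P A z α γ w k n r)).re := by
  obtain ⟨c, hc⟩ : ∃ c : ℂ, c = ((Real.exp (α * γ * r) : ℝ) : ℂ) := ⟨_, rfl⟩
  obtain ⟨g, hg⟩ : ∃ g : G, g = -(A n (w r)) + c • P n (k r) := ⟨_, rfl⟩
  have hd : dw P A z α γ w k n r = z • g := by rw [hg, hc]; rfl
  have hPg : P n g = g := by
    rw [hg, map_add, map_neg, map_smul, hP.PA, hP.idem]
  have h1 : inner ℂ (c • k r) (z • g) = inner ℂ (c • P n (k r)) (z • g) := by
    have : z • g = P n (z • g) := by rw [map_smul, hPg]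
    rw [this, ← hP.symP, ← hP.symP, map_smul, map_smul, hP.idem]
  rw [← hc, hd, h1, norm_smul, hE.hz, one_mul]
  have h2 : -(inner ℂ (A n (w r)) (z • g)).re + (inner ℂ (c • P n (k r)) (z • g)).re =
      (inner ℂ g (z • g)).re := by
    have : inner ℂ g (z • g) = inner ℂ (-(A n (w r)) + c • P n (k r)) (z • g) := by rw [← hg]
    rw [this, inner_add_left, inner_neg_left, Complex.add_re, Complex.neg_re]
  rw [h2, inner_smul_right, inner_self_eq_norm_sq_to_K]
  have h3 : ((‖g‖ : ℂ) ^ 2) = ((‖g‖ ^ 2 : ℝ) : ℂ) := by push_cast; rfl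
  have h4 : (z * ((‖g‖ ^ 2 : ℝ) : ℂ)).re = z.re * ‖g‖ ^ 2 := Complex.re_mul_ofReal z _
  rw [← h4, ← h3]
  rfl

theorem der (hP : IsTrunc P A) (hE : IsEvol P A z α γ T a0 w k p) (n : ℕ) (t : ℝ)
    (ht : t ∈ Ioo 0 T) :
    HasDerivAt (fun r => an A w n r)
      (2 * (inner ℂ (A n (w t)) (dw P A z α γ w k n t)).re) t := by
  have h : HasDerivAt (fun s => P n (w s)) (dw P A z α γ w k n t) t := hE.ode n t ht
  have hA : HasDerivAt (fun s => A n (P n (w s))) (A n (dw P A z α γ w k n t)) t :=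
    ((A n).restrictScalars ℝ).hasFDerivAt.comp_hasDerivAt t h
  have hi := hA.inner ℂ h
  have hre := Complex.reCLM.hasFDerivAt.comp_hasDerivAt t hi
  have e1 : (fun r => an A w n r) =
      (⇑Complex.reCLM ∘ fun t => inner ℂ (A n (P n (w t))) (P n (w t))) := by
    funext r
    rw [an_eq hP]
    rfl
  rw [e1]
  have e2 : 2 * (inner ℂ (A n (w t)) (dw P A z α γ w k n t)).re =
      Complex.reCLM (inner ℂ (A n (P n (w t))) (dw P A z α γ w k n t) +
        inner ℂ (A n (dw P A z α γ w k n t)) (P n (w t))) := by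
    have a1 : inner ℂ (A n (dw P A z α γ w k n t)) (P n (w t)) =
        inner ℂ (dw P A z α γ w k n t) (A n (w t)) := by
      rw [hP.symA, hP.AP]
    have a2 : (inner ℂ (dw P A z α γ w k n t) (A n (w t))).re =
        (inner ℂ (A n (w t)) (dw P A z α γ w k n t)).re := by
      rw [← inner_conj_symm, Complex.conj_re]
    rw [Complex.reCLM_apply, Complex.add_re, a1, a2, hP.AP]
    ring
  rw [e2]
  exact hre

theorem ftc (hP : IsTrunc P A) (hE : IsEvol P A z α γ T a0 w k p) (n : ℕ) (s t : ℝ)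
    (hs : 0 ≤ s) (hst : s ≤ t) (htT : t < T) :
    z.re * (∫ r in s..t, ‖dw P A z α γ w k n r‖ ^ 2) + (an A w n t - an A w n s) / 2 =
      ∫ r in s..t,
        (inner ℂ (((Real.exp (α * γ * r) : ℝ) : ℂ) • k r) (dw P A z α γ w k n r)).re := by
  have hsub : Icc s t ⊆ Ico 0 T := fun x hx => ⟨hs.trans hx.1, hx.2.trans_lt htT⟩
  have c1 : ContinuousOn (fun r => dw P A z α γ w k n r) (Icc s t) := (cdw hE n).mono hsub
  have cw : ContinuousOn w (Icc s t) := hE.cw.mono hsub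
  have cA : ContinuousOn (fun r => A n (w r)) (Icc s t) := (A n).continuous.comp_continuousOn cw
  have c3 : ContinuousOn (fun r => ((Real.exp (α * γ * r) : ℝ) : ℂ) • k r) (Icc s t) :=
    (ch hE).mono hsub
  have c2 : ContinuousOn (fun r => 2 * (inner ℂ (A n (w r)) (dw P A z α γ w k n r)).re)
      (Icc s t) :=
    continuousOn_const.mul (Complex.continuous_re.comp_continuousOn (cA.inner c1))
  have c4 : ContinuousOn (fun r => (inner ℂ (((Real.exp (α * γ * r) : ℝ) : ℂ) • k r)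
      (dw P A z α γ w k n r)).re) (Icc s t) :=
    Complex.continuous_re.comp_continuousOn (c3.inner c1)
  have ca : ContinuousOn (fun r => an A w n r) (Icc s t) :=
    Complex.continuous_re.comp_continuousOn (cA.inner cw)
  have i2 := c2.intervalIntegrable_of_Icc (μ := volume) hst
  have i4 := c4.intervalIntegrable_of_Icc (μ := volume) hst
  have e1 : ∫ r in s..t, 2 * (inner ℂ (A n (w r)) (dw P A z α γ w k n r)).re =
      an A w n t - an A w n s :=
    intervalIntegral.integral_eq_sub_of_hasDerivAt_of_le hst ca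
      (fun x hx => der hP hE n x ⟨hs.trans_lt hx.1, hx.2.trans htT⟩) i2
  have e2 : z.re * (∫ r in s..t, ‖dw P A z α γ w k n r‖ ^ 2) =
      ∫ r in s..t, ((inner ℂ (((Real.exp (α * γ * r) : ℝ) : ℂ) • k r)
        (dw P A z α γ w k n r)).re -
        (1 / 2) * (2 * (inner ℂ (A n (w r)) (dw P A z α γ w k n r)).re)) := by
    rw [← intervalIntegral.integral_const_mul]
    refine intervalIntegral.integral_congr fun r _ => ?_
    show z.re * ‖dw P A z α γ w k n r‖ ^ 2 = _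
    rw [pw hP hE n r]
    ring
  rw [e2, intervalIntegral.integral_sub i4 (i2.const_mul _), intervalIntegral.integral_const_mul, e1]
  ring

theorem bnd (hP : IsTrunc P A) (hE : IsEvol P A z α γ T a0 w k p) (n : ℕ) (s t Hb : ℝ)
    (hs : 0 ≤ s) (hst : s ≤ t) (htT : t < T)
    (hHb : ∀ r ∈ Icc s t, ‖((Real.exp (α * γ * r) : ℝ) : ℂ) • k r‖ ≤ Hb) :
    z.re / 2 * (∫ r in s..t, ‖dw P A z α γ w k n r‖ ^ 2) + an A w n t / 2 ≤
      an A w n s / 2 + (t - s) * (Hb ^ 2 / (2 * z.re)) := by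
  have hf := ftc hP hE n s t hs hst htT
  have hκ := hE.hre
  have hsub : Icc s t ⊆ Ico 0 T := fun x hx => ⟨hs.trans hx.1, hx.2.trans_lt htT⟩
  have c1 : ContinuousOn (fun r => dw P A z α γ w k n r) (Icc s t) := (cdw hE n).mono hsub
  have c3 : ContinuousOn (fun r => ((Real.exp (α * γ * r) : ℝ) : ℂ) • k r) (Icc s t) :=
    (ch hE).mono hsub
  have c4 : ContinuousOn (fun r => (inner ℂ (((Real.exp (α * γ * r) : ℝ) : ℂ) • k r)
      (dw P A z α γ w k n r)).re) (Icc s t) :=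
    Complex.continuous_re.comp_continuousOn (c3.inner c1)
  have c5 : ContinuousOn (fun r => z.re / 2 * ‖dw P A z α γ w k n r‖ ^ 2) (Icc s t) :=
    continuousOn_const.mul (c1.norm.pow 2)
  have i4 := c4.intervalIntegrable_of_Icc (μ := volume) hst
  have i5 := c5.intervalIntegrable_of_Icc (μ := volume) hst
  have i6 : IntervalIntegrable (fun _ : ℝ => Hb ^ 2 / (2 * z.re)) volume s t :=
    intervalIntegrable_const
  have hle : (∫ r in s..t,
        (inner ℂ (((Real.exp (α * γ * r) : ℝ) : ℂ) • k r) (dw P A z α γ w k n r)).re) ≤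
      ∫ r in s..t, (Hb ^ 2 / (2 * z.re) + z.re / 2 * ‖dw P A z α γ w k n r‖ ^ 2) := by
    refine intervalIntegral.integral_mono_on hst i4 (i6.add i5) fun r hr => ?_
    have h1 : (inner ℂ (((Real.exp (α * γ * r) : ℝ) : ℂ) • k r)
        (dw P A z α γ w k n r)).re ≤ Hb * ‖dw P A z α γ w k n r‖ :=
      ((Complex.re_le_norm _).trans (norm_inner_le_norm _ _)).trans
        (mul_le_mul_of_nonneg_right (hHb r hr) (norm_nonneg _))
    refine h1.trans ?_
    have h2 : Hb ^ 2 / (2 * z.re) + z.re / 2 * ‖dw P A z α γ w k n r‖ ^ 2 -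
        Hb * ‖dw P A z α γ w k n r‖ =
        (Hb - z.re * ‖dw P A z α γ w k n r‖) ^ 2 / (2 * z.re) := by
      field_simp
      ring
    have h3 : 0 ≤ (Hb - z.re * ‖dw P A z α γ w k n r‖) ^ 2 / (2 * z.re) := by positivity
    linarith
  rw [intervalIntegral.integral_add i6 i5, intervalIntegral.integral_const,
    intervalIntegral.integral_const_mul, smul_eq_mul] at hle
  linarith

end EnAux

open EnAux in
theorem energy (hJ : S_J.{u}) : S_E.{u} := by
  intro G _ _ _ P A z α γ T a0 w k p hP hE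
  have hκ := hE.hre
  have part1 : ∀ t : ℝ, 0 ≤ t → t < T → ∃ C : ℝ, ∀ s, 0 ≤ s → s ≤ t → ∀ n, an A w n s ≤ C := by
    intro t ht htT
    have hsub : Icc 0 t ⊆ Ico 0 T := fun x hx => ⟨hx.1, hx.2.trans_lt htT⟩
    obtain ⟨Hb, hHb⟩ := isCompact_Icc.exists_bound_of_continuousOn ((ch hE).mono hsub)
    refine ⟨a0 + 2 * (t * (Hb ^ 2 / (2 * z.re))), fun s hs hst n => ?_⟩
    have hb := bnd hP hE n 0 s Hb le_rfl hs (hst.trans_lt htT)
      (fun r hr => hHb r ⟨hr.1, hr.2.trans hst⟩)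
    have h0 : an A w n 0 ≤ a0 := hE.ini n
    have h1 : 0 ≤ ∫ r in (0:ℝ)..s, ‖dw P A z α γ w k n r‖ ^ 2 :=
      intervalIntegral.integral_nonneg hs fun r _ => sq_nonneg _
    have h2 : 0 ≤ z.re / 2 * ∫ r in (0:ℝ)..s, ‖dw P A z α γ w k n r‖ ^ 2 :=
      mul_nonneg (by linarith) h1
    have h3 : s * (Hb ^ 2 / (2 * z.re)) ≤ t * (Hb ^ 2 / (2 * z.re)) :=
      mul_le_mul_of_nonneg_right hst (by positivity)
    rw [sub_zero] at hb
    linarith
  refine ⟨part1, ?_⟩
  intro s t hs hst htT ε hε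
  have ht0 : 0 ≤ t := hs.trans hst
  obtain ⟨C, hC⟩ := part1 t ht0 htT
  have hsub : Icc 0 t ⊆ Ico 0 T := fun x hx => ⟨hx.1, hx.2.trans_lt htT⟩
  obtain ⟨Hb, hHb⟩ := isCompact_Icc.exists_bound_of_continuousOn ((ch hE).mono hsub)
  have hX : ∀ n, ∫ r in s..t, ‖dw P A z α γ w k n r‖ ^ 2 ≤
      2 / z.re * (C / 2 + (t - s) * (Hb ^ 2 / (2 * z.re))) := by
    intro n
    have hb := bnd hP hE n s t Hb hs hst htT (fun r hr => hHb r ⟨hs.trans hr.1, hr.2⟩)
    have h0 : an A w n s ≤ C := hC s hs hst n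
    have h1 : 0 ≤ an A w n t := hP.nonneg n _
    have h2 : z.re / 2 * (∫ r in s..t, ‖dw P A z α γ w k n r‖ ^ 2) ≤
        C / 2 + (t - s) * (Hb ^ 2 / (2 * z.re)) := by linarith
    have h3 := mul_le_mul_of_nonneg_left h2 (show (0:ℝ) ≤ 2 / z.re by positivity)
    have h4 : 2 / z.re * (z.re / 2 * (∫ r in s..t, ‖dw P A z α γ w k n r‖ ^ 2)) =
        ∫ r in s..t, ‖dw P A z α γ w k n r‖ ^ 2 := by
      field_simp
    rwa [h4] at h3
  have hJ' := hJ P A z α γ T a0 w k p hP hE s t _ hs hst htT hX (ε / 2) (half_pos hε)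
  have bdd : ∀ r, 0 ≤ r → r ≤ t → BddAbove (Set.range fun n => an A w n r) := by
    intro r h0 h1
    exact ⟨C, by rintro _ ⟨n, rfl⟩; exact hC r h0 h1 n⟩
  have hlt : aS A w t - ε < ⨆ n, an A w n t := by
    show aS A w t - ε < aS A w t
    linarith
  obtain ⟨m, hm⟩ := exists_lt_of_lt_ciSup hlt
  filter_upwards [hJ', eventually_ge_atTop m] with n hn hmn
  have hf := ftc hP hE n s t hs hst htT
  have h1 : an A w n s ≤ aS A w s := le_ciSup (bdd s hs hst) n
  have h2 : an A w m t ≤ an A w n t := hP.mono m n _ hmn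
  unfold ee
  linarith

end Pool.Agent.R228.GL
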