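import Pool.Agent.R228.GL.Stm

/-!
# GL-J: Stieltjes sums for a convex potential
-/

universe u

namespace Pool.Agent.R228.GL

open MeasureTheory Filter Set
open scoped ENNReal Topology

namespace StJ

variable {G : Type u} [NormedAddCommGroup G] [InnerProductSpace ℂ G] [CompleteSpace G]
  {P A : ℕ → G →L[ℂ] G} {z : ℂ} {α γ T a0 : ℝ} {w k : ℝ → G} {p : ℝ → ℝ}

/-- real part of the inner product as a real functional -/
noncomputable def L (x : G) : G →L[ℝ] ℝ :=
  Complex.reCLM.comp ((innerSL ℂ x).restrictScalars ℝ)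

omit [CompleteSpace G] in
lemma L_apply (x y : G) : L x y = (inner ℂ x y).re := rfl

omit [CompleteSpace G] in
lemma re_le (x y : G) : (inner ℂ x y).re ≤ ‖x‖ * ‖y‖ :=
  (Complex.re_le_norm _).trans (norm_inner_le_norm x y)

omit [CompleteSpace G] in
lemma neg_le_re (x y : G) : -(‖x‖ * ‖y‖) ≤ (inner ℂ x y).re :=
  (abs_le.1 ((Complex.abs_re_le_norm _).trans (norm_inner_le_norm (𝕜 := ℂ) x y))).1

omit [CompleteSpace G] in
lemma cont_p (h : IsEvol P A z α γ T a0 w k p) : ContinuousOn p (Ico 0 T) := by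
  intro t0 ht0
  have h1 : ∀ t ∈ Ico 0 T, |p t - p t0| ≤ (‖k t0‖ + ‖k t‖) * ‖w t - w t0‖ := by
    intro t ht
    have e1 := h.conv t0 ht0 t ht
    have e2 := h.conv t ht t0 ht0
    have e3 := neg_le_re (k t0) (w t - w t0)
    have e4 := neg_le_re (k t) (w t0 - w t)
    rw [norm_sub_rev (w t0) (w t)] at e4
    have e5 := mul_nonneg (norm_nonneg (k t0)) (norm_nonneg (w t - w t0))
    have e6 := mul_nonneg (norm_nonneg (k t)) (norm_nonneg (w t - w t0))
    rw [abs_le, add_mul]
    constructor <;> linarith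
  have h2 : Tendsto (fun t => (‖k t0‖ + ‖k t‖) * ‖w t - w t0‖) (𝓝[Ico 0 T] t0)
      (𝓝 ((‖k t0‖ + ‖k t0‖) * ‖w t0 - w t0‖)) :=
    (tendsto_const_nhds.add (h.ck t0 ht0).norm).mul
      (Tendsto.sub (h.cw t0 ht0) tendsto_const_nhds).norm
  rw [sub_self, norm_zero, mul_zero] at h2
  rw [ContinuousWithinAt, tendsto_iff_dist_tendsto_zero]
  refine squeeze_zero' (Eventually.of_forall fun _ => dist_nonneg) ?_ h2
  filter_upwards [self_mem_nhdsWithin] with t ht
  rw [Real.dist_eq]
  exact h1 t ht

/-- the forcing term -/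
noncomputable def hh (α γ : ℝ) (k : ℝ → G) (r : ℝ) : G :=
  ((Real.exp (α * γ * r) : ℝ) : ℂ) • k r

lemma cont_e (c : ℝ) : Continuous (fun r : ℝ => Real.exp (c * r)) := by fun_prop

omit [CompleteSpace G] in
lemma cont_h (h : IsEvol P A z α γ T a0 w k p) : ContinuousOn (hh α γ k) (Ico 0 T) := by
  unfold hh
  exact (Complex.continuous_ofReal.comp (cont_e (α * γ))).continuousOn.smul h.ck

omit [CompleteSpace G] in
lemma cont_dw (h : IsEvol P A z α γ T a0 w k p) (n : ℕ) :
    ContinuousOn (dw P A z α γ w k n) (Ico 0 T) := by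
  unfold dw
  apply ContinuousOn.const_smul
  apply ContinuousOn.add
  · exact ((A n).continuous.comp_continuousOn h.cw).neg
  · exact (Complex.continuous_ofReal.comp (cont_e (α * γ))).continuousOn.smul
      ((P n).continuous.comp_continuousOn h.ck)

/-- the integrand -/
noncomputable def ig (P A : ℕ → G →L[ℂ] G) (z : ℂ) (α γ : ℝ) (w k : ℝ → G) (ω : ℝ) (n : ℕ)
    (r : ℝ) : ℝ :=
  (inner ℂ (hh α γ k r) (dw P A z α γ w k n r)).re - ω * (1 + ‖dw P A z α γ w k n r‖ ^ 2)

omit [CompleteSpace G] in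
lemma cont_in (h : IsEvol P A z α γ T a0 w k p) (n : ℕ) :
    ContinuousOn (fun r => (inner ℂ (hh α γ k r) (dw P A z α γ w k n r)).re) (Ico 0 T) :=
  Complex.continuous_re.comp_continuousOn ((cont_h h).inner (𝕜 := ℂ) (cont_dw h n))

omit [CompleteSpace G] in
lemma cont_nm (h : IsEvol P A z α γ T a0 w k p) (n : ℕ) :
    ContinuousOn (fun r => ‖dw P A z α γ w k n r‖ ^ 2) (Ico 0 T) :=
  (cont_dw h n).norm.pow 2

omit [CompleteSpace G] in
lemma cont_ig (h : IsEvol P A z α γ T a0 w k p) (ω : ℝ) (n : ℕ) :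
    ContinuousOn (ig P A z α γ w k ω n) (Ico 0 T) := by
  unfold ig
  exact (cont_in h n).sub (continuousOn_const.mul (continuousOn_const.add (cont_nm h n)))

lemma ii_of_cont {f : ℝ → ℝ} (hf : ContinuousOn f (Ico 0 T)) {a b : ℝ} (ha : 0 ≤ a)
    (hab : a ≤ b) (hb : b < T) : IntervalIntegrable f volume a b := by
  apply ContinuousOn.intervalIntegrable
  rw [uIcc_of_le hab]
  exact hf.mono fun x hx => ⟨ha.trans hx.1, lt_of_le_of_lt hx.2 hb⟩

lemma exp_int (c a b : ℝ) : ∫ r in a..b, c * Real.exp (c * r) =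
    Real.exp (c * b) - Real.exp (c * a) := by
  apply intervalIntegral.integral_eq_sub_of_hasDerivAt
  · intro x _
    have h1 : HasDerivAt (fun r : ℝ => c * r) c x := by
      simpa using (hasDerivAt_id x).const_mul c
    have h2 := h1.exp
    rwa [mul_comm] at h2
  · exact (continuous_const.mul (cont_e c)).intervalIntegrable _ _

/-- the right-hand side -/
noncomputable def rhs (α γ : ℝ) (p : ℝ → ℝ) (ω a b : ℝ) : ℝ :=
  Real.exp (α * γ * b) * p b - Real.exp (α * γ * a) * p a -
    α * γ * (∫ r in a..b, Real.exp (α * γ * r) * p r) + ω * (b - a)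

omit [CompleteSpace G] in
lemma local_step (hT : IsTrunc P A) (h : IsEvol P A z α γ T a0 w k p) {ω : ℝ} (hω : 0 < ω)
    {a b : ℝ} (ha : 0 ≤ a) (hab : a ≤ b) (hb : b < T)
    (h1 : ∀ r ∈ Icc a b, ‖hh α γ k r - hh α γ k a‖ ≤ ω)
    (h2 : ∀ r ∈ Icc a b, α * γ * Real.exp (α * γ * r) * (p r - p b) ≤ ω) (η : ℝ) (hη : 0 < η) :
    ∀ᶠ n in atTop, (∫ r in a..b, ig P A z α γ w k ω n r) ≤ rhs α γ p ω a b + η := by
  have hain : a ∈ Ico 0 T := ⟨ha, lt_of_le_of_lt hab hb⟩
  have hbin : b ∈ Ico 0 T := ⟨ha.trans hab, hb⟩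
  -- step 1
  have s1 : ∀ n, (∫ r in a..b, ig P A z α γ w k ω n r) ≤
      L (hh α γ k a) (P n (w b)) - L (hh α γ k a) (P n (w a)) := by
    intro n
    have hLc : ContinuousOn (fun r => L (hh α γ k a) (dw P A z α γ w k n r)) (Ico 0 T) :=
      (L (hh α γ k a)).continuous.comp_continuousOn (cont_dw h n)
    have e1 : ∫ r in a..b, L (hh α γ k a) (dw P A z α γ w k n r) =
        L (hh α γ k a) (P n (w b)) - L (hh α γ k a) (P n (w a)) := by
      apply intervalIntegral.integral_eq_sub_of_hasDerivAt_of_le hab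
        (f := fun r => L (hh α γ k a) (P n (w r)))
      · apply ContinuousOn.mono (s := Ico 0 T)
        · exact ((L (hh α γ k a)).continuous.comp (P n).continuous).comp_continuousOn h.cw
        · exact fun x hx => ⟨ha.trans hx.1, lt_of_le_of_lt hx.2 hb⟩
      · intro x hx
        exact (L (hh α γ k a)).hasFDerivAt.comp_hasDerivAt x
          (h.ode n x ⟨lt_of_le_of_lt ha hx.1, hx.2.trans hb⟩)
      · exact ii_of_cont hLc ha hab hb
    rw [← e1]
    apply intervalIntegral.integral_mono_on hab (ii_of_cont (cont_ig h ω n) ha hab hb)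
      (ii_of_cont hLc ha hab hb)
    intro r hr
    have e2 : (inner ℂ (hh α γ k r) (dw P A z α γ w k n r)).re =
        (inner ℂ (hh α γ k r - hh α γ k a) (dw P A z α γ w k n r)).re +
        (inner ℂ (hh α γ k a) (dw P A z α γ w k n r)).re := by
      rw [inner_sub_left, Complex.sub_re]
      ring
    have e3 := re_le (hh α γ k r - hh α γ k a) (dw P A z α γ w k n r)
    have e4 : ‖hh α γ k r - hh α γ k a‖ * ‖dw P A z α γ w k n r‖ ≤
        ω * ‖dw P A z α γ w k n r‖ := mul_le_mul_of_nonneg_right (h1 r hr) (norm_nonneg _)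
    have e5 : ‖dw P A z α γ w k n r‖ ≤ 1 + ‖dw P A z α γ w k n r‖ ^ 2 := by
      nlinarith [sq_nonneg (‖dw P A z α γ w k n r‖ - 1)]
    have e6 : ω * ‖dw P A z α γ w k n r‖ ≤ ω * (1 + ‖dw P A z α γ w k n r‖ ^ 2) :=
      mul_le_mul_of_nonneg_left e5 hω.le
    rw [L_apply, ig, e2]
    linarith
  -- step 2
  have s2 : Tendsto (fun n => L (hh α γ k a) (P n (w b)) - L (hh α γ k a) (P n (w a))) atTop
      (𝓝 (L (hh α γ k a) (w b) - L (hh α γ k a) (w a))) :=
    (((L (hh α γ k a)).continuous.tendsto _).comp (hT.tends (w b))).sub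
      (((L (hh α γ k a)).continuous.tendsto _).comp (hT.tends (w a)))
  have s3 : L (hh α γ k a) (w b) - L (hh α γ k a) (w a) ≤
      Real.exp (α * γ * a) * (p b - p a) := by
    rw [← map_sub, L_apply, hh, inner_smul_left, Complex.conj_ofReal, Complex.re_ofReal_mul]
    exact mul_le_mul_of_nonneg_left (h.conv a hain b hbin) (Real.exp_pos _).le
  have hpc := cont_p h
  have s4 : Real.exp (α * γ * a) * (p b - p a) ≤ rhs α γ p ω a b := by
    have i1 : IntervalIntegrable (fun r => α * γ * Real.exp (α * γ * r) * (p r - p b)) volume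
        a b :=
      ii_of_cont ((continuous_const.mul (cont_e (α * γ))).continuousOn.mul
        (hpc.sub continuousOn_const)) ha hab hb
    have e1 : ∫ r in a..b, α * γ * Real.exp (α * γ * r) * (p r - p b) ≤
        ∫ _ in a..b, ω := by
      apply intervalIntegral.integral_mono_on hab i1 (by simp)
      intro r hr
      exact h2 r hr
    rw [intervalIntegral.integral_const, smul_eq_mul] at e1
    have e2 : ∫ r in a..b, α * γ * Real.exp (α * γ * r) * (p r - p b) =
        α * γ * (∫ r in a..b, Real.exp (α * γ * r) * p r) -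
          (Real.exp (α * γ * b) - Real.exp (α * γ * a)) * p b := by
      rw [← exp_int (α * γ) a b, ← intervalIntegral.integral_const_mul,
        ← intervalIntegral.integral_mul_const, ← intervalIntegral.integral_sub]
      · congr 1
        ext r
        ring
      · exact ii_of_cont (continuousOn_const.mul
          ((cont_e (α * γ)).continuousOn.mul hpc)) ha hab hb
      · exact ((continuous_const.mul (cont_e (α * γ))).mul continuous_const).intervalIntegrable
          _ _
    rw [e2] at e1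
    unfold rhs
    nlinarith
  have s5 : L (hh α γ k a) (w b) - L (hh α γ k a) (w a) < rhs α γ p ω a b + η := by
    linarith
  filter_upwards [s2.eventually (gt_mem_nhds s5)] with n hn
  exact (s1 n).trans hn.le

omit [CompleteSpace G] in
theorem main (hT : IsTrunc P A) (h : IsEvol P A z α γ T a0 w k p) (s t X : ℝ) (hs : 0 ≤ s)
    (hst : s ≤ t) (ht : t < T)
    (hX : ∀ n, ∫ r in s..t, ‖dw P A z α γ w k n r‖ ^ 2 ≤ X) (ε : ℝ) (hε : 0 < ε) :
    ∀ᶠ n in atTop, ∫ r in s..t,
        (inner ℂ (hh α γ k r) (dw P A z α γ w k n r)).re ≤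
      Real.exp (α * γ * t) * p t - Real.exp (α * γ * s) * p s -
        α * γ * (∫ r in s..t, Real.exp (α * γ * r) * p r) + ε := by
  have hX0 : 0 ≤ X :=
    le_trans (intervalIntegral.integral_nonneg hst (fun _ _ => by positivity)) (hX 0)
  have hts : 0 ≤ t - s := by linarith
  obtain ⟨ω, hωd⟩ : ∃ ω : ℝ, ω = ε / (2 * (2 * (t - s) + X + 1)) := ⟨_, rfl⟩
  have hω : 0 < ω := by
    rw [hωd]
    positivity
  have hωe : ω * (2 * (t - s) + X) ≤ ε / 2 := by
    rw [hωd, div_mul_eq_mul_div, div_le_div_iff₀ (by positivity) (by norm_num)]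
    nlinarith
  have hc0 : 0 ≤ α * γ := mul_nonneg h.hα.le h.hγ
  have hsub : Icc s t ⊆ Ico 0 T := fun x hx => ⟨hs.trans hx.1, lt_of_le_of_lt hx.2 ht⟩
  have hpc := cont_p h
  obtain ⟨δ1, hδ1, H1⟩ := Metric.uniformContinuousOn_iff.1
    (isCompact_Icc.uniformContinuousOn_of_continuous ((cont_h h).mono hsub)) ω hω
  obtain ⟨δ2, hδ2, H2⟩ := Metric.uniformContinuousOn_iff.1
    (isCompact_Icc.uniformContinuousOn_of_continuous (hpc.mono hsub))
      (ω / (α * γ * Real.exp (α * γ * t) + 1)) (by positivity)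
  obtain ⟨m, hm⟩ := exists_nat_gt ((t - s) / min δ1 δ2)
  have hδ : 0 < min δ1 δ2 := lt_min hδ1 hδ2
  rw [div_lt_iff₀ hδ] at hm
  obtain ⟨d, hd⟩ : ∃ d : ℝ, d = (t - s) / (m + 1) := ⟨_, rfl⟩
  have hd0 : 0 ≤ d := by
    rw [hd]
    positivity
  have hdm : (m + 1) * d = t - s := by
    rw [hd]
    field_simp
  have hdδ : d < min δ1 δ2 := by
    rw [hd, div_lt_iff₀ (by positivity)]
    nlinarith
  have hxt : ∀ i : ℕ, i ≤ m + 1 → s + i * d ≤ t := by
    intro i hi
    have : (i : ℝ) ≤ m + 1 := by exact_mod_cast hi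
    nlinarith
  have hind : ∀ i : ℕ, i ≤ m + 1 → ∀ η : ℝ, 0 < η → ∀ᶠ n in atTop,
      (∫ r in s..(s + i * d), ig P A z α γ w k ω n r) ≤ rhs α γ p ω s (s + i * d) + η := by
    intro i
    induction i with
    | zero =>
      intro _ η hη
      refine Eventually.of_forall fun n => ?_
      simp [rhs]
      exact hη.le
    | succ i ih =>
      intro hi η hη
      have hx1 : s ≤ s + i * d := by
        have : 0 ≤ (i : ℝ) * d := by positivity
        linarith
      have hx2 : s + i * d ≤ s + ((i + 1 : ℕ) : ℝ) * d := by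
        push_cast
        linarith
      have hx3 := hxt (i + 1) hi
      have hx4 : s + ((i + 1 : ℕ) : ℝ) * d - (s + i * d) = d := by
        push_cast
        ring
      have hstep := local_step hT h hω (hs.trans hx1) hx2 (lt_of_le_of_lt hx3 ht)
        (by
          intro r hr
          have h3 := H1 r ⟨hx1.trans hr.1, hr.2.trans hx3⟩ (s + i * d)
            ⟨hx1, hx2.trans hx3⟩ (by
              rw [Real.dist_eq, abs_of_nonneg (by linarith [hr.1])]
              have := min_le_left δ1 δ2
              linarith [hr.2])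
          rw [dist_eq_norm] at h3
          exact h3.le)
        (by
          intro r hr
          have h3 := H2 r ⟨hx1.trans hr.1, hr.2.trans hx3⟩ (s + ((i + 1 : ℕ) : ℝ) * d)
            ⟨hx1.trans hx2, hx3⟩ (by
              rw [Real.dist_eq, abs_sub_comm, abs_of_nonneg (by linarith [hr.2])]
              have := min_le_right δ1 δ2
              linarith [hr.1])
          rw [Real.dist_eq] at h3
          have h4 : p r - p (s + ((i + 1 : ℕ) : ℝ) * d) ≤
              ω / (α * γ * Real.exp (α * γ * t) + 1) := (le_abs_self _).trans h3.le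
          have h5 : α * γ * Real.exp (α * γ * r) ≤ α * γ * Real.exp (α * γ * t) := by
            apply mul_le_mul_of_nonneg_left _ hc0
            apply Real.exp_le_exp.2
            apply mul_le_mul_of_nonneg_left _ hc0
            exact hr.2.trans hx3
          have h6 : 0 ≤ α * γ * Real.exp (α * γ * r) := by positivity
          calc α * γ * Real.exp (α * γ * r) * (p r - p (s + ((i + 1 : ℕ) : ℝ) * d))
              ≤ α * γ * Real.exp (α * γ * r) * (ω / (α * γ * Real.exp (α * γ * t) + 1)) :=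
                mul_le_mul_of_nonneg_left h4 h6
            _ ≤ (α * γ * Real.exp (α * γ * t) + 1) *
                (ω / (α * γ * Real.exp (α * γ * t) + 1)) := by
                apply mul_le_mul_of_nonneg_right _ (by positivity)
                linarith
            _ = ω := by
                field_simp) (η / 2) (by linarith)
      filter_upwards [ih (by omega) (η / 2) (by linarith), hstep] with n hn1 hn2
      have e1 := intervalIntegral.integral_add_adjacent_intervals
        (ii_of_cont (cont_ig h ω n) hs hx1 (lt_of_le_of_lt (hx2.trans hx3) ht))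
        (ii_of_cont (cont_ig h ω n) (hs.trans hx1) hx2 (lt_of_le_of_lt hx3 ht))
      have hpe : ContinuousOn (fun r => Real.exp (α * γ * r) * p r) (Ico 0 T) :=
        (cont_e (α * γ)).continuousOn.mul hpc
      have e2 := intervalIntegral.integral_add_adjacent_intervals
        (ii_of_cont hpe hs hx1 (lt_of_le_of_lt (hx2.trans hx3) ht))
        (ii_of_cont hpe (hs.trans hx1) hx2 (lt_of_le_of_lt hx3 ht))
      rw [← e1]
      unfold rhs at hn1 hn2 ⊢
      rw [← e2]
      nlinarith
  have hfin := hind (m + 1) le_rfl (ε / 2) (by linarith)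
  have hend : s + ((m + 1 : ℕ) : ℝ) * d = t := by
    push_cast
    linarith
  rw [hend] at hfin
  filter_upwards [hfin] with n hn
  have e1 : ∫ r in s..t, ig P A z α γ w k ω n r =
      (∫ r in s..t, (inner ℂ (hh α γ k r) (dw P A z α γ w k n r)).re) -
        ω * ((t - s) + ∫ r in s..t, ‖dw P A z α γ w k n r‖ ^ 2) := by
    have i1 := ii_of_cont (cont_in h n) hs hst ht
    have i2 := ii_of_cont (cont_nm h n) hs hst ht
    have i3 : IntervalIntegrable (fun _ : ℝ => (1 : ℝ)) volume s t := by simp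
    have e2 : (t - s) = ∫ _ in s..t, (1 : ℝ) := by simp
    rw [e2, ← intervalIntegral.integral_add i3 i2, ← intervalIntegral.integral_const_mul,
      ← intervalIntegral.integral_sub i1 ((i3.add i2).const_mul ω)]
    rfl
  rw [e1] at hn
  have e3 := hX n
  have e4 : ω * ((t - s) + ∫ r in s..t, ‖dw P A z α γ w k n r‖ ^ 2) ≤ ω * ((t - s) + X) :=
    mul_le_mul_of_nonneg_left (by linarith) hω.le
  unfold rhs at hn
  nlinarith

end StJ

theorem stj : S_J.{u} := by
  intro G _ _ _ P A z α γ T a0 w k p hT h s t X hs hst ht hX ε hε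
  exact StJ.main hT h s t X hs hst ht hX ε hε

end Pool.Agent.R228.GL
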