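import Pool.Agent.R228.GL.Stm

namespace Pool.Agent.R228.GL

open MeasureTheory Filter Set
open scoped ENNReal Topology

namespace K1aux

lemma norm_ker (N : ℕ) (θ t : ℝ) (ht : 0 < t) (x : E N) :
    ‖ker N θ t x‖ = (4 * Real.pi * t) ^ (-(N : ℝ) / 2) *
      Real.exp (-(Real.cos θ / (4 * t)) * ‖x‖ ^ 2) := by
  unfold ker
  rw [norm_mul, Complex.norm_exp]
  congr 1
  · have e : (-(N : ℂ) / 2) = ((-(N : ℝ) / 2 : ℝ) : ℂ) := by push_cast; ring
    rw [e, Complex.norm_cpow_real]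
    congr 1
    have : ‖zc θ‖ = 1 := Complex.norm_exp_ofReal_mul_I θ
    rw [norm_mul, norm_mul, norm_mul, this, Complex.norm_real, Complex.norm_real,
      Real.norm_of_nonneg Real.pi_pos.le, Real.norm_of_nonneg ht.le]
    norm_num
  · congr 1
    have h1 : (-((‖x‖ ^ 2 : ℝ) : ℂ) / (4 * (t : ℂ) * zc θ)) =
        ((-(‖x‖ ^ 2) / (4 * t) : ℝ) : ℂ) * (zc θ)⁻¹ := by
      push_cast
      rw [div_mul_eq_div_div]
      rfl
    have h2 : (zc θ)⁻¹ = Complex.exp (((-θ : ℝ) : ℂ) * Complex.I) := by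
      unfold zc
      rw [← Complex.exp_neg]
      congr 1
      push_cast; ring
    rw [h1, h2, Complex.re_ofReal_mul, Complex.exp_ofReal_mul_I_re, Real.cos_neg]
    ring

lemma cont_ker (N : ℕ) (θ t : ℝ) : Continuous (ker N θ t) := by
  unfold ker
  fun_prop

lemma gauss (N : ℕ) {b : ℝ} (hb : 0 < b) :
    Integrable (fun x : E N => Real.exp (-b * ‖x‖ ^ 2)) ∧
    ∫ x : E N, Real.exp (-b * ‖x‖ ^ 2) = (Real.pi / b) ^ ((N : ℝ) / 2) := by
  have h := GaussianFourier.integral_rexp_neg_mul_sq_norm (V := E N) hb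
  have h2 : ∫ x : E N, Real.exp (-b * ‖x‖ ^ 2) = (Real.pi / b) ^ ((N : ℝ) / 2) := by
    rw [h]; simp
  refine ⟨?_, h2⟩
  by_contra hc
  have h3 := integral_undef hc
  rw [h2] at h3
  have : 0 < (Real.pi / b) ^ ((N : ℝ) / 2) := Real.rpow_pos_of_pos (by positivity) _
  exact this.ne' h3

end K1aux

open K1aux

theorem k1 : S_K1 := by
  intro N θ h0 h1
  have hc : 0 < Real.cos θ := Real.cos_pos_of_mem_Ioo ⟨by linarith [Real.pi_pos], h1⟩
  have hc1 : Real.cos θ ≤ 1 := Real.cos_le_one θ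
  refine ⟨⟨(1 / Real.cos θ) ^ ((N : ℝ) / 2), ?_, ?_⟩, ?_⟩
  · apply Real.one_le_rpow
    · rw [le_div_iff₀ hc]; linarith
    · positivity
  · intro t ht
    obtain ⟨g1, g2⟩ := gauss N (b := Real.cos θ / (4 * t)) (by positivity)
    have hn : (fun x : E N => ‖ker N θ t x‖) = fun x => (4 * Real.pi * t) ^ (-(N : ℝ) / 2) *
      Real.exp (-(Real.cos θ / (4 * t)) * ‖x‖ ^ 2) := by
      funext x; exact norm_ker N θ t ht x
    constructor
    · rw [← integrable_norm_iff (cont_ker N θ t).aestronglyMeasurable, hn]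
      exact g1.const_mul _
    · rw [hn, integral_const_mul, g2]
      apply le_of_eq
      have e1 : -(N : ℝ) / 2 = -((N : ℝ) / 2) := by ring
      rw [e1, Real.rpow_neg (by positivity), ← Real.inv_rpow (by positivity),
        ← Real.mul_rpow (by positivity) (by positivity)]
      congr 1
      field_simp
  · intro T0 hT0
    refine ⟨Real.exp (2 * T0 / Real.cos θ) * (2 / Real.cos θ) ^ ((N : ℝ) / 2), by positivity, ?_⟩
    intro t ht htT
    obtain ⟨g1, g2⟩ := gauss N (b := Real.cos θ / (8 * t)) (by positivity)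
    have hb : ∀ x : E N, ‖ker N θ t x‖ * Real.exp ‖x‖ ≤
        (Real.exp (2 * T0 / Real.cos θ) * (4 * Real.pi * t) ^ (-(N : ℝ) / 2)) *
          Real.exp (-(Real.cos θ / (8 * t)) * ‖x‖ ^ 2) := by
      intro x
      rw [norm_ker N θ t ht x]
      have hk : ‖x‖ ≤ Real.cos θ / (8 * t) * ‖x‖ ^ 2 + 2 * t / Real.cos θ := by
        have : 0 ≤ (Real.cos θ * ‖x‖ - 4 * t) ^ 2 / (8 * t * Real.cos θ) := by positivity
        have e : (Real.cos θ * ‖x‖ - 4 * t) ^ 2 / (8 * t * Real.cos θ) =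
          Real.cos θ / (8 * t) * ‖x‖ ^ 2 + 2 * t / Real.cos θ - ‖x‖ := by
          field_simp; ring
        linarith
      have hT : 2 * t / Real.cos θ ≤ 2 * T0 / Real.cos θ := by
        gcongr
      have : Real.exp (-(Real.cos θ / (4 * t)) * ‖x‖ ^ 2) * Real.exp ‖x‖ ≤
          Real.exp (2 * T0 / Real.cos θ) * Real.exp (-(Real.cos θ / (8 * t)) * ‖x‖ ^ 2) := by
        rw [← Real.exp_add, ← Real.exp_add]
        apply Real.exp_le_exp.2
        have e2 : Real.cos θ / (4 * t) * ‖x‖ ^ 2 = 2 * (Real.cos θ / (8 * t) * ‖x‖ ^ 2) := by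
          field_simp; ring
        rw [neg_mul, neg_mul, e2]
        linarith
      calc (4 * Real.pi * t) ^ (-(N : ℝ) / 2) * Real.exp (-(Real.cos θ / (4 * t)) * ‖x‖ ^ 2) *
            Real.exp ‖x‖ = (4 * Real.pi * t) ^ (-(N : ℝ) / 2) *
            (Real.exp (-(Real.cos θ / (4 * t)) * ‖x‖ ^ 2) * Real.exp ‖x‖) := by ring
        _ ≤ (4 * Real.pi * t) ^ (-(N : ℝ) / 2) *
            (Real.exp (2 * T0 / Real.cos θ) * Real.exp (-(Real.cos θ / (8 * t)) * ‖x‖ ^ 2)) :=
            mul_le_mul_of_nonneg_left this (by positivity)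
        _ = _ := by ring
    have hI : Integrable (fun x : E N => (Real.exp (2 * T0 / Real.cos θ) *
        (4 * Real.pi * t) ^ (-(N : ℝ) / 2)) * Real.exp (-(Real.cos θ / (8 * t)) * ‖x‖ ^ 2)) :=
      g1.const_mul _
    calc ∫⁻ x : E N, ENNReal.ofReal (‖ker N θ t x‖ * Real.exp ‖x‖)
        ≤ ∫⁻ x : E N, ENNReal.ofReal ((Real.exp (2 * T0 / Real.cos θ) *
          (4 * Real.pi * t) ^ (-(N : ℝ) / 2)) * Real.exp (-(Real.cos θ / (8 * t)) * ‖x‖ ^ 2)) :=
          lintegral_mono fun x => ENNReal.ofReal_le_ofReal (hb x)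
      _ = ENNReal.ofReal (∫ x : E N, (Real.exp (2 * T0 / Real.cos θ) *
          (4 * Real.pi * t) ^ (-(N : ℝ) / 2)) * Real.exp (-(Real.cos θ / (8 * t)) * ‖x‖ ^ 2)) := by
          rw [ofReal_integral_eq_lintegral_ofReal hI]
          exact Filter.Eventually.of_forall fun x => by positivity
      _ = _ := by
          congr 1
          rw [integral_const_mul, g2, mul_assoc]
          congr 1
          have e1 : -(N : ℝ) / 2 = -((N : ℝ) / 2) := by ring
          rw [e1, Real.rpow_neg (by positivity), ← Real.inv_rpow (by positivity),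
            ← Real.mul_rpow (by positivity) (by positivity)]
          congr 1
          field_simp; norm_num

end Pool.Agent.R228.GL
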