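import Pool.Agent.R228.GL.K1

namespace Pool.Agent.R228.GL

open MeasureTheory Filter Set
open scoped ENNReal Topology FourierTransform ContDiff SchwartzMap

namespace K2aux

variable {V : Type*} [NormedAddCommGroup V] [InnerProductSpace ℝ V] [MeasurableSpace V]
  [BorelSpace V] [FiniteDimensional ℝ V]

lemma fourier_ae_eq (f : V → ℂ) (h1 : Integrable f) (h2 : MemLp f 2) :
    ((𝓕 (h2.toLp f) : Lp ℂ 2 (volume : Measure V)) : V → ℂ) =ᵐ[volume] 𝓕 f := by
  have hcont : Continuous (𝓕 f) := by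
    have := VectorFourier.fourierIntegral_continuous (L := innerₗ V) Real.continuous_fourierChar
      continuous_inner h1
    exact this
  apply ae_eq_of_integral_contDiff_smul_eq
  · exact (Lp.memLp _).locallyIntegrable (by norm_num)
  · exact hcont.locallyIntegrable
  · intro g g_smooth g_cpt
    have hg₁ : HasCompactSupport (Complex.ofRealCLM ∘ g) := g_cpt.comp_left rfl
    have hg₂ : ContDiff ℝ ∞ (Complex.ofRealCLM ∘ g) := by fun_prop
    set gS : 𝓢(V, ℂ) := hg₁.toSchwartzMap hg₂ with hgS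
    have hgx : ∀ x, gS x = (g x : ℂ) := fun x => rfl
    have e1 : ∫ x, g x • ((𝓕 (h2.toLp f) : Lp ℂ 2 (volume : Measure V)) : V → ℂ) x =
        ((𝓕 (h2.toLp f) : Lp ℂ 2 (volume : Measure V)) : 𝓢'(V, ℂ)) gS := by
      rw [Lp.toTemperedDistribution_apply]
      simp [hgx]
    rw [e1, ← Lp.fourier_toTemperedDistribution_eq, TemperedDistribution.fourier_apply,
      Lp.toTemperedDistribution_apply]
    have e2 : ∫ x, (𝓕 gS) x • (h2.toLp f : V → ℂ) x = ∫ x, (𝓕 gS) x • f x := by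
      apply integral_congr_ae
      filter_upwards [h2.coeFn_toLp] with x hx
      rw [hx]
    rw [e2]
    have e3 := VectorFourier.integral_fourierIntegral_smul_eq_flip (L := innerₗ V)
      Real.continuous_fourierChar continuous_inner gS.integrable h1 (μ := volume) (ν := volume)
    simp only [flip_innerₗ] at e3
    have e4 : ∫ x, (𝓕 gS) x • f x = ∫ x, gS x • (𝓕 f) x := by
      rw [SchwartzMap.fourier_coe]
      exact e3
    rw [e4]
    simp [hgx]

lemma cneg : Continuous fun p : V × V => (-innerₗ V) p.1 p.2 := by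
  have h : Continuous fun p : V × V => -inner ℝ p.1 p.2 := continuous_inner.neg
  exact h

lemma fourierInv_ae_eq (f : V → ℂ) (h1 : Integrable f) (h2 : MemLp f 2) :
    ((𝓕⁻ (h2.toLp f) : Lp ℂ 2 (volume : Measure V)) : V → ℂ) =ᵐ[volume] 𝓕⁻ f := by
  have hcont : Continuous (𝓕⁻ f) := by
    have := VectorFourier.fourierIntegral_continuous (L := -innerₗ V) Real.continuous_fourierChar
      cneg h1
    exact this
  apply ae_eq_of_integral_contDiff_smul_eq
  · exact (Lp.memLp _).locallyIntegrable (by norm_num)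
  · exact hcont.locallyIntegrable
  · intro g g_smooth g_cpt
    have hg₁ : HasCompactSupport (Complex.ofRealCLM ∘ g) := g_cpt.comp_left rfl
    have hg₂ : ContDiff ℝ ∞ (Complex.ofRealCLM ∘ g) := by fun_prop
    set gS : 𝓢(V, ℂ) := hg₁.toSchwartzMap hg₂ with hgS
    have hgx : ∀ x, gS x = (g x : ℂ) := fun x => rfl
    have e1 : ∫ x, g x • ((𝓕⁻ (h2.toLp f) : Lp ℂ 2 (volume : Measure V)) : V → ℂ) x =
        ((𝓕⁻ (h2.toLp f) : Lp ℂ 2 (volume : Measure V)) : 𝓢'(V, ℂ)) gS := by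
      rw [Lp.toTemperedDistribution_apply]
      simp [hgx]
    rw [e1, ← Lp.fourierInv_toTemperedDistribution_eq, TemperedDistribution.fourierInv_apply,
      Lp.toTemperedDistribution_apply]
    have e2 : ∫ x, (𝓕⁻ gS) x • (h2.toLp f : V → ℂ) x = ∫ x, (𝓕⁻ gS) x • f x := by
      apply integral_congr_ae
      filter_upwards [h2.coeFn_toLp] with x hx
      rw [hx]
    rw [e2]
    have e3 := VectorFourier.integral_fourierIntegral_smul_eq_flip (L := -innerₗ V)
      Real.continuous_fourierChar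
      cneg gS.integrable h1
      (μ := volume) (ν := volume)
    have hfl : (-innerₗ V).flip = -innerₗ V := by
      ext x y; simp [real_inner_comm]
    rw [hfl] at e3
    have e4 : ∫ x, (𝓕⁻ gS) x • f x = ∫ x, gS x • (𝓕⁻ f) x := by
      rw [SchwartzMap.fourierInv_coe]
      exact e3
    rw [e4]
    simp [hgx]

/-- the multiplier -/
noncomputable def mm {N : ℕ} (θ t : ℝ) (ξ : E N) : ℂ :=
  Complex.exp (-(zc θ * (t : ℂ) * ((aa ξ : ℝ) : ℂ)))

lemma zc_ne (θ : ℝ) : zc θ ≠ 0 := Complex.exp_ne_zero _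

lemma zc_re (θ : ℝ) : (zc θ).re = Real.cos θ := Complex.exp_ofReal_mul_I_re θ

lemma zc_norm (θ : ℝ) : ‖zc θ‖ = 1 := Complex.norm_exp_ofReal_mul_I θ

lemma zc_inv_re (θ : ℝ) : ((zc θ)⁻¹).re = Real.cos θ := by
  have h2 : (zc θ)⁻¹ = Complex.exp (((-θ : ℝ) : ℂ) * Complex.I) := by
    unfold zc
    rw [← Complex.exp_neg]
    congr 1
    push_cast; ring
  rw [h2, Complex.exp_ofReal_mul_I_re, Real.cos_neg]

lemma norm_mm {N : ℕ} (θ t : ℝ) (ξ : E N) :
    ‖mm θ t ξ‖ = Real.exp (-(4 * Real.pi ^ 2 * t * Real.cos θ) * ‖ξ‖ ^ 2) := by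
  unfold mm
  rw [Complex.norm_exp]
  congr 1
  have : (-(zc θ * (t : ℂ) * ((aa ξ : ℝ) : ℂ))) = ((-(t * aa ξ) : ℝ) : ℂ) * zc θ := by
    push_cast; ring
  rw [this, Complex.re_ofReal_mul, zc_re, aa]
  ring

lemma cont_mm {N : ℕ} (θ t : ℝ) : Continuous (mm (N := N) θ t) := by
  unfold mm aa
  fun_prop

lemma fourier_ker (N : ℕ) (θ t : ℝ) (hc : 0 < Real.cos θ) (ht : 0 < t) (ξ : E N) :
    𝓕 (ker N θ t) ξ = mm θ t ξ := by
  set b : ℂ := ((1 / (4 * t) : ℝ) : ℂ) * (zc θ)⁻¹ with hb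
  have hbre : 0 < b.re := by
    rw [hb, Complex.re_ofReal_mul, zc_inv_re]
    positivity
  have ht0 : (t : ℂ) ≠ 0 := by exact_mod_cast ht.ne'
  have hz := zc_ne θ
  have hpi : (Real.pi : ℂ) ≠ 0 := by exact_mod_cast Real.pi_ne_zero
  have h1 := fourier_gaussian_innerProductSpace (V := E N) hbre ξ
  set c : ℂ := (4 * (Real.pi : ℂ) * (t : ℂ) * zc θ) with hcdef
  have hc0 : c ≠ 0 := by
    rw [hcdef]
    exact mul_ne_zero (mul_ne_zero (mul_ne_zero (by norm_num) hpi) ht0) hz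
  have h2 : ker N θ t = fun v : E N => c ^ (-(N : ℂ) / 2) * Complex.exp (-b * (‖v‖ : ℂ) ^ 2) := by
    funext v
    unfold ker
    congr 2
    rw [hb]
    push_cast
    field_simp
  have h3 : 𝓕 (ker N θ t) ξ = c ^ (-(N : ℂ) / 2) *
      𝓕 (fun v : E N => Complex.exp (-b * (‖v‖ : ℂ) ^ 2)) ξ := by
    rw [h2, Real.fourier_eq', Real.fourier_eq', ← integral_const_mul]
    congr 1
    funext v
    simp only [smul_eq_mul]
    ring
  rw [h3, h1]
  have h4 : (Real.pi : ℂ) / b = c := by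
    rw [hb, hcdef]
    push_cast
    field_simp
  rw [h4, ← mul_assoc, ← Complex.cpow_add _ _ hc0]
  have h5 : (-(N : ℂ) / 2 + (Module.finrank ℝ (E N) : ℂ) / 2) = 0 := by
    simp
    ring
  rw [h5, Complex.cpow_zero, one_mul]
  unfold mm aa
  congr 1
  rw [hb]
  push_cast
  field_simp

lemma int_ker (N : ℕ) (θ t : ℝ) (hc : 0 < Real.cos θ) (ht : 0 < t) : Integrable (ker N θ t) := by
  have hn : (fun x : E N => ‖ker N θ t x‖) = fun x => (4 * Real.pi * t) ^ (-(N : ℝ) / 2) *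
      Real.exp (-(Real.cos θ / (4 * t)) * ‖x‖ ^ 2) := by
    funext x; exact K1aux.norm_ker N θ t ht x
  obtain ⟨g1, g2⟩ := K1aux.gauss N (b := Real.cos θ / (4 * t)) (by positivity)
  rw [← integrable_norm_iff (K1aux.cont_ker N θ t).aestronglyMeasurable, hn]
  exact g1.const_mul _

lemma memL2_ker (N : ℕ) (θ t : ℝ) (hc : 0 < Real.cos θ) (ht : 0 < t) : MemLp (ker N θ t) 2 := by
  rw [memLp_two_iff_integrable_sq_norm (K1aux.cont_ker N θ t).aestronglyMeasurable]
  have hn : (fun x : E N => ‖ker N θ t x‖ ^ 2) = fun x => ((4 * Real.pi * t) ^ (-(N : ℝ) / 2)) ^ 2 *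
      Real.exp (-(Real.cos θ / (2 * t)) * ‖x‖ ^ 2) := by
    funext x
    rw [K1aux.norm_ker N θ t ht x, mul_pow, ← Real.exp_nat_mul]
    congr 2
    push_cast
    field_simp
    ring
  rw [hn]
  obtain ⟨g1, g2⟩ := K1aux.gauss N (b := Real.cos θ / (2 * t)) (by positivity)
  exact g1.const_mul _

lemma memL2_mm (N : ℕ) (θ t : ℝ) (hc : 0 < Real.cos θ) (ht : 0 < t) :
    MemLp (mm (N := N) θ t) 2 := by
  rw [memLp_two_iff_integrable_sq_norm (cont_mm θ t).aestronglyMeasurable]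
  have hn : (fun x : E N => ‖mm θ t x‖ ^ 2) = fun x =>
      Real.exp (-(8 * Real.pi ^ 2 * t * Real.cos θ) * ‖x‖ ^ 2) := by
    funext x
    rw [norm_mm, ← Real.exp_nat_mul]
    congr 1
    push_cast
    ring
  rw [hn]
  exact (K1aux.gauss N (b := 8 * Real.pi ^ 2 * t * Real.cos θ) (by positivity)).1

/-- the reflected translate -/
noncomputable def kx (N : ℕ) (θ t : ℝ) (x : E N) (y : E N) : ℂ :=
  (starRingEnd ℂ) (ker N θ t (x - y))

lemma int_kx (N : ℕ) (θ t : ℝ) (hc : 0 < Real.cos θ) (ht : 0 < t) (x : E N) :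
    Integrable (kx N θ t x) := by
  have h1 : Integrable (fun y : E N => ker N θ t (x - y)) := (int_ker N θ t hc ht).comp_sub_left x
  exact Complex.conjCLE.toContinuousLinearMap.integrable_comp h1

lemma memL2_kx (N : ℕ) (θ t : ℝ) (hc : 0 < Real.cos θ) (ht : 0 < t) (x : E N) :
    MemLp (kx N θ t x) 2 := by
  have h0 := memL2_ker N θ t hc ht
  have hcont : Continuous (kx N θ t x) := by
    unfold kx
    exact Complex.continuous_conj.comp ((K1aux.cont_ker N θ t).comp (by fun_prop))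
  rw [memLp_two_iff_integrable_sq_norm hcont.aestronglyMeasurable]
  rw [memLp_two_iff_integrable_sq_norm (K1aux.cont_ker N θ t).aestronglyMeasurable] at h0
  have := h0.comp_sub_left x
  simpa [kx] using this

lemma fourier_kx (N : ℕ) (θ t : ℝ) (hc : 0 < Real.cos θ) (ht : 0 < t) (x ξ : E N) :
    𝓕 (kx N θ t x) ξ = Complex.exp (((-2 * Real.pi * inner ℝ x ξ : ℝ) : ℂ) * Complex.I) *
      (starRingEnd ℂ) (mm θ t ξ) := by
  rw [← fourier_ker N θ t hc ht ξ, Real.fourier_eq', Real.fourier_eq']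
  rw [← integral_conj, ← integral_const_mul]
  rw [← integral_sub_left_eq_self (fun v : E N =>
    Complex.exp (((-2 * Real.pi * inner ℝ v ξ : ℝ) : ℂ) * Complex.I) • kx N θ t x v) volume x]
  congr 1
  funext v
  simp only [kx, smul_eq_mul, sub_sub_cancel, map_mul]
  rw [← mul_assoc]
  congr 1
  rw [← Complex.exp_conj, ← Complex.exp_add]
  congr 1
  simp only [map_mul, Complex.conj_ofReal, Complex.conj_I, inner_sub_left]
  push_cast
  ring

end K2aux

open K2aux

theorem k2 : S_K2 := by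
  intro N θ t h0 h1 ht g hg
  have hc : 0 < Real.cos θ := Real.cos_pos_of_mem_Ioo ⟨by linarith [Real.pi_pos], h1⟩
  set G : H N := 𝓕 (hg.toLp g) with hG
  set h : E N → ℂ := fun ξ => mm θ t ξ * G ξ with hh
  have hint : Integrable h := (memL2_mm N θ t hc ht).integrable_mul (Lp.memLp G)
  have hmem : MemLp h 2 := by
    have := (Lp.memLp G).of_le_mul (c := 1) (f := h) (g := G)
      ((cont_mm θ t).aestronglyMeasurable.mul (Lp.aestronglyMeasurable G)) ?_
    · exact this
    · refine Eventually.of_forall fun ξ => ?_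
      simp only [hh]
      rw [norm_mul, norm_mm]
      gcongr
      rw [Real.exp_le_one_iff]
      have : 0 ≤ (4 * Real.pi ^ 2 * t * Real.cos θ) * ‖ξ‖ ^ 2 := by positivity
      linarith
  refine ⟨𝓕⁻ (hmem.toLp h), ?_, ?_⟩
  · have e1 : (𝓕 (𝓕⁻ (hmem.toLp h)) : H N) = hmem.toLp h := FourierTransform.fourier_fourierInv_eq _
    rw [e1]
    filter_upwards [hmem.coeFn_toLp] with ξ hξ
    rw [hξ]
    rfl
  · filter_upwards [fourierInv_ae_eq h hint hmem] with x hx
    rw [hx, Real.fourierInv_eq']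
    have p1 : inner ℂ (𝓕 ((memL2_kx N θ t hc ht x).toLp (kx N θ t x)) : H N) (𝓕 (hg.toLp g) : H N) =
      inner ℂ ((memL2_kx N θ t hc ht x).toLp (kx N θ t x)) (hg.toLp g) := Lp.inner_fourier_eq _ _
    rw [L2.inner_def, L2.inner_def] at p1
    have p2 : ∫ y, inner ℂ (((memL2_kx N θ t hc ht x).toLp (kx N θ t x) : H N) y)
        ((hg.toLp g : H N) y) = ∫ y, ker N θ t (x - y) * g y := by
      apply integral_congr_ae
      filter_upwards [(memL2_kx N θ t hc ht x).coeFn_toLp, hg.coeFn_toLp] with y hy1 hy2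
      rw [hy1, hy2]
      simp [kx, mul_comm]
    have p3 : ∫ ξ, inner ℂ ((𝓕 ((memL2_kx N θ t hc ht x).toLp (kx N θ t x)) : H N) ξ)
        ((𝓕 (hg.toLp g) : H N) ξ) = ∫ ξ, Complex.exp (((2 * Real.pi * inner ℝ ξ x : ℝ) : ℂ) *
          Complex.I) • h ξ := by
      apply integral_congr_ae
      filter_upwards [fourier_ae_eq (kx N θ t x) (int_kx N θ t hc ht x)
        (memL2_kx N θ t hc ht x)] with ξ hξ
      rw [hξ, fourier_kx N θ t hc ht x ξ]
      simp only [hh, RCLike.inner_apply, map_mul, Complex.conj_conj, smul_eq_mul]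
      rw [← Complex.exp_conj]
      simp only [map_mul, Complex.conj_ofReal, Complex.conj_I]
      rw [real_inner_comm ξ x]
      have : (((-2 * Real.pi * inner ℝ ξ x : ℝ) : ℂ) * -Complex.I) =
        ((2 * Real.pi * inner ℝ ξ x : ℝ) : ℂ) * Complex.I := by push_cast; ring
      rw [this]
      ring
    rw [← p2, ← p1, p3]

end Pool.Agent.R228.GL
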