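import Pool.Agent.R228.GL.Stm

/-!
# GL-K3: mild solutions with initial value in `L²` are continuous with values in `L²`
-/

namespace Pool.Agent.R228.GL

open MeasureTheory Filter Set
open scoped ENNReal Topology FourierTransform ZeroAtInfty

namespace K3

/-- the weight `min(1, exp((|x|-n)/2))` -/
noncomputable def rho (N n : ℕ) (x : E N) : ℝ := min 1 (Real.exp ((‖x‖ - n) / 2))

lemma rho_nonneg (N n : ℕ) (x : E N) : 0 ≤ rho N n x :=
  le_min zero_le_one (Real.exp_pos _).le

lemma rho_le_one (N n : ℕ) (x : E N) : rho N n x ≤ 1 := min_le_left _ _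

lemma rho_cont (N n : ℕ) : Continuous (rho N n) := by
  unfold rho
  fun_prop

lemma rho_lip (N n : ℕ) (x y : E N) :
    rho N n x ≤ Real.exp (‖x - y‖ / 2) * rho N n y := by
  have hxy : ‖x‖ ≤ ‖x - y‖ + ‖y‖ := by
    calc ‖x‖ = ‖(x - y) + y‖ := by simp
      _ ≤ _ := norm_add_le _ _
  have h1 : (1 : ℝ) ≤ Real.exp (‖x - y‖ / 2) := Real.one_le_exp (by positivity)
  rw [rho, rho, mul_min_of_nonneg _ _ (Real.exp_pos _).le, mul_one, ← Real.exp_add]
  refine min_le_min h1 (Real.exp_le_exp.2 ?_)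
  linarith

lemma rho_eq_one {N n : ℕ} {x : E N} (h : (n : ℝ) ≤ ‖x‖) : rho N n x = 1 := by
  unfold rho
  exact min_eq_left (Real.one_le_exp (by linarith))

lemma rho_tendsto (N : ℕ) (x : E N) : Tendsto (fun n : ℕ => rho N n x) atTop (𝓝 0) := by
  have h : Tendsto (fun n : ℕ => Real.exp ((‖x‖ - n) / 2)) atTop (𝓝 0) := by
    refine Real.tendsto_exp_atBot.comp ?_
    have h1 : Tendsto (fun n : ℕ => (-(n : ℝ) / 2 + ‖x‖ / 2)) atTop atBot := by
      refine tendsto_atBot_add_const_right _ _ ?_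
      refine Tendsto.atBot_div_const (by norm_num) ?_
      exact tendsto_neg_atTop_atBot.comp tendsto_natCast_atTop_atTop
    refine h1.congr fun n => by ring
  refine squeeze_zero (fun n => rho_nonneg N n x) (fun n => min_le_right _ _) h

lemma enorm_sq {z : ℂ} : ENNReal.ofReal (‖z‖ ^ 2) = ‖z‖ₑ ^ 2 := by
  rw [← ofReal_norm, ENNReal.ofReal_pow (norm_nonneg _)]

lemma eLpNorm_sq {N : ℕ} (f : E N → ℂ) :
    eLpNorm f 2 (volume : Measure (E N)) ^ 2 = ∫⁻ x, ENNReal.ofReal (‖f x‖ ^ 2) := by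
  have := eLpNorm_nnreal_pow_eq_lintegral (f := f) (p := 2) (μ := (volume : Measure (E N)))
    (by norm_num)
  simp only [enorm_sq]
  have h2 : ((2 : NNReal) : ℝ) = ((2 : ℕ) : ℝ) := by norm_num
  rw [h2] at this
  simp only [ENNReal.rpow_natCast] at this
  simpa using this

lemma memLp_of_lint {N : ℕ} {f : E N → ℂ} (hc : Continuous f)
    (h : ∫⁻ x, ENNReal.ofReal (‖f x‖ ^ 2) < ⊤) : MemLp f 2 (volume : Measure (E N)) := by
  refine ⟨hc.aestronglyMeasurable, ?_⟩
  rw [← eLpNorm_sq] at h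
  by_contra hh
  have : eLpNorm f 2 (volume : Measure (E N)) = ⊤ := by
    simpa using hh
  rw [this] at h
  simp at h

lemma lint_of_memLp {N : ℕ} {f : E N → ℂ} (h : MemLp f 2 (volume : Measure (E N))) :
    ∫⁻ x, ENNReal.ofReal (‖f x‖ ^ 2) < ⊤ := by
  rw [← eLpNorm_sq]
  exact ENNReal.pow_lt_top h.2

lemma norm_toLp_lt {N : ℕ} {f : E N → ℂ} (hf : MemLp f 2 (volume : Measure (E N))) {ε : ℝ}
    (hε : 0 < ε) (h : ∫⁻ x, ENNReal.ofReal (‖f x‖ ^ 2) < ENNReal.ofReal (ε ^ 2)) :
    ‖hf.toLp f‖ < ε := by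
  rw [Lp.norm_toLp]
  refine ENNReal.toReal_lt_of_lt_ofReal ?_
  by_contra hh
  push Not at hh
  rw [← eLpNorm_sq, ENNReal.ofReal_pow hε.le] at h
  exact absurd (pow_le_pow_left₀ bot_le hh 2) (not_le.2 h)

/-- the main estimate -/
lemma split_bound {N : ℕ} (n : ℕ) (f g : C₀(E N, ℂ)) :
    ∫⁻ x, ENNReal.ofReal (‖f x - g x‖ ^ 2) ≤
      volume (Metric.closedBall (0 : E N) n) * ENNReal.ofReal (‖f - g‖ ^ 2) +
      2 * ((∫⁻ x, ENNReal.ofReal (rho N n x * ‖f x‖ ^ 2)) +
        ∫⁻ x, ENNReal.ofReal (rho N n x * ‖g x‖ ^ 2)) := by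
  have hB : MeasurableSet (Metric.closedBall (0 : E N) n) := Metric.isClosed_closedBall.measurableSet
  rw [← lintegral_add_compl _ hB]
  refine add_le_add ?_ ?_
  · calc ∫⁻ x in Metric.closedBall (0 : E N) n, ENNReal.ofReal (‖f x - g x‖ ^ 2)
        ≤ ∫⁻ x in Metric.closedBall (0 : E N) n, ENNReal.ofReal (‖f - g‖ ^ 2) := by
          refine lintegral_mono fun x => ENNReal.ofReal_le_ofReal ?_
          have : ‖f x - g x‖ ≤ ‖f - g‖ := by
            have := (f - g).toBCF.norm_coe_le_norm x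
            simpa using this
          exact pow_le_pow_left₀ (norm_nonneg _) this 2
      _ = _ := by rw [lintegral_const, Measure.restrict_apply_univ, mul_comm]
  · calc ∫⁻ x in (Metric.closedBall (0 : E N) n)ᶜ, ENNReal.ofReal (‖f x - g x‖ ^ 2)
        ≤ ∫⁻ x in (Metric.closedBall (0 : E N) n)ᶜ,
            2 * (ENNReal.ofReal (rho N n x * ‖f x‖ ^ 2) +
              ENNReal.ofReal (rho N n x * ‖g x‖ ^ 2)) := by
          refine setLIntegral_mono' hB.compl fun x hx => ?_
          have hx' : (n : ℝ) ≤ ‖x‖ := by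
            have : ¬ ‖x‖ ≤ n := by simpa using hx
            exact (not_le.1 this).le
          rw [rho_eq_one hx', one_mul, one_mul, ← ENNReal.ofReal_add (by positivity) (by positivity)]
          have h2 : ∀ r : ℝ, 2 * ENNReal.ofReal r = ENNReal.ofReal (2 * r) := by
            intro r
            rw [ENNReal.ofReal_mul (by norm_num)]
            norm_num
          rw [h2]
          refine ENNReal.ofReal_le_ofReal ?_
          have h3 : ‖f x - g x‖ ≤ ‖f x‖ + ‖g x‖ := norm_sub_le _ _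
          nlinarith [norm_nonneg (f x - g x), norm_nonneg (f x), norm_nonneg (g x),
            sq_nonneg (‖f x‖ - ‖g x‖), pow_le_pow_left₀ (norm_nonneg _) h3 2]
      _ ≤ ∫⁻ x, 2 * (ENNReal.ofReal (rho N n x * ‖f x‖ ^ 2) +
              ENNReal.ofReal (rho N n x * ‖g x‖ ^ 2)) := setLIntegral_le_lintegral _ _
      _ = _ := by
          have hm : ∀ h : C₀(E N, ℂ), Measurable
              fun x => ENNReal.ofReal (rho N n x * ‖h x‖ ^ 2) := by
            intro h
            refine ENNReal.measurable_ofReal.comp ?_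
            refine Continuous.measurable ?_
            have := rho_cont N n
            have h2 : Continuous fun x => h x := h.continuous
            fun_prop
          have e1 : Measurable fun x => (ENNReal.ofReal (rho N n x * ‖f x‖ ^ 2) +
              ENNReal.ofReal (rho N n x * ‖g x‖ ^ 2)) := (hm f).add (hm g)
          rw [lintegral_const_mul _ e1, lintegral_add_left (hm f)]

end K3

open K3 in
theorem k3 (hA : S_K3A) : S_K3 := by
  intro N θ α γ T u0 u hθ0 hθ hα hγ hT hu hu0
  have hfin := lint_of_memLp hu0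
  -- membership
  have hmem : ∀ t ∈ Ico 0 T, MemLp (fun x => u t x) 2 (volume : Measure (E N)) := by
    intro t ht
    obtain ⟨C, hC, hh⟩ := hA θ α γ T u0 u hθ0 hθ hα hγ hu t ht.1 ht.2
    refine memLp_of_lint (u t).continuous ?_
    have h1 := hh (fun _ => 1) measurable_const (fun _ => zero_le_one) (fun _ => le_rfl)
      (fun x y => by rw [mul_one]; exact Real.one_le_exp (by positivity)) t ⟨ht.1, le_rfl⟩
    simp only [one_mul] at h1
    exact lt_of_le_of_lt h1 (ENNReal.mul_lt_top ENNReal.ofReal_lt_top hfin)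
  classical
  let U : ℝ → H N := fun t => if h : t ∈ Ico 0 T then (hmem t h).toLp (fun x => u t x) else 0
  have hU : ∀ t (h : t ∈ Ico 0 T), U t = (hmem t h).toLp (fun x => u t x) := by
    intro t h
    simp only [U, dif_pos h]
  refine ⟨U, ?_, ?_⟩
  · intro t ht
    rw [hU t ht]
    exact (hmem t ht).coeFn_toLp
  · intro t ht
    obtain ⟨T', htT', hT'T⟩ := exists_between ht.2
    obtain ⟨C, hC, hh⟩ := hA θ α γ T u0 u hθ0 hθ hα hγ hu T' (ht.1.trans htT'.le) hT'T
    rw [ContinuousWithinAt, Metric.tendsto_nhds]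
    intro ε hε
    -- the tail
    have htail : Tendsto (fun n : ℕ => ∫⁻ x, ENNReal.ofReal (rho N n x * ‖u0 x‖ ^ 2)) atTop
        (𝓝 0) := by
      have h0 : (0 : ℝ≥0∞) = ∫⁻ x : E N, 0 := by simp
      rw [h0]
      refine tendsto_lintegral_of_dominated_convergence
        (fun x => ENNReal.ofReal (‖u0 x‖ ^ 2)) ?_ ?_ hfin.ne ?_
      · intro n
        refine ENNReal.measurable_ofReal.comp (Continuous.measurable ?_)
        have := rho_cont N n
        have h2 : Continuous fun x => u0 x := u0.continuous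
        fun_prop
      · intro n
        refine Eventually.of_forall fun x => ENNReal.ofReal_le_ofReal ?_
        have := rho_le_one N n x
        nlinarith [sq_nonneg ‖u0 x‖]
      · refine Eventually.of_forall fun x => ?_
        have h1 := (rho_tendsto N x).mul_const (‖u0 x‖ ^ 2)
        rw [zero_mul] at h1
        have h2 := ENNReal.tendsto_ofReal h1
        simpa using h2
    have htail' : Tendsto (fun n : ℕ => 2 * (ENNReal.ofReal C *
        (∫⁻ x, ENNReal.ofReal (rho N n x * ‖u0 x‖ ^ 2)) + ENNReal.ofReal C *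
        (∫⁻ x, ENNReal.ofReal (rho N n x * ‖u0 x‖ ^ 2)))) atTop (𝓝 0) := by
      have h1 := ENNReal.Tendsto.const_mul (a := ENNReal.ofReal C) htail
        (Or.inr ENNReal.ofReal_ne_top)
      rw [mul_zero] at h1
      have h2 := ENNReal.Tendsto.const_mul (a := (2 : ℝ≥0∞)) (h1.add h1)
        (Or.inr (by norm_num))
      simpa using h2
    have hε2 : (0 : ℝ≥0∞) < ENNReal.ofReal (ε ^ 2 / 2) := by
      rw [ENNReal.ofReal_pos]; positivity
    obtain ⟨n, hn⟩ := (htail'.eventually (gt_mem_nhds hε2)).exists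
    -- continuity on the ball
    have hball : Tendsto (fun s => volume (Metric.closedBall (0 : E N) n) *
        ENNReal.ofReal (‖u s - u t‖ ^ 2)) (𝓝[Ico 0 T] t) (𝓝 0) := by
      have h1 : Tendsto (fun s => ‖u s - u t‖ ^ 2) (𝓝[Ico 0 T] t) (𝓝 0) := by
        have h2 : Tendsto (fun s => u s - u t) (𝓝[Ico 0 T] t) (𝓝 (u t - u t)) :=
          (hu.cont t ht).sub tendsto_const_nhds
        have h3 := (h2.norm).pow 2
        simpa using h3
      have h2 := ENNReal.tendsto_ofReal h1
      have h3 := ENNReal.Tendsto.const_mul (a := volume (Metric.closedBall (0 : E N) n)) h2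
        (Or.inr (measure_closedBall_lt_top.ne))
      simpa using h3
    have hlt : ∀ᶠ s in 𝓝[Ico 0 T] t, s < T' :=
      mem_nhdsWithin_of_mem_nhds (Iio_mem_nhds htT')
    filter_upwards [hball.eventually (gt_mem_nhds hε2), hlt, self_mem_nhdsWithin] with s hs hsT' hsI
    rw [dist_eq_norm, hU s hsI, hU t ht, ← MemLp.toLp_sub]
    refine norm_toLp_lt _ hε ?_
    have hrho := fun r (hr : r ∈ Icc 0 T') => hh (rho N n) (rho_cont N n).measurable
      (rho_nonneg N n) (rho_le_one N n) (rho_lip N n) r hr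
    calc ∫⁻ x, ENNReal.ofReal (‖((fun x => u s x) - (fun x => u t x)) x‖ ^ 2)
        = ∫⁻ x, ENNReal.ofReal (‖u s x - u t x‖ ^ 2) := rfl
      _ ≤ _ := split_bound n (u s) (u t)
      _ ≤ volume (Metric.closedBall (0 : E N) n) * ENNReal.ofReal (‖u s - u t‖ ^ 2) +
          2 * (ENNReal.ofReal C *
        (∫⁻ x, ENNReal.ofReal (rho N n x * ‖u0 x‖ ^ 2)) + ENNReal.ofReal C *
        (∫⁻ x, ENNReal.ofReal (rho N n x * ‖u0 x‖ ^ 2))) := by
          gcongr
          · exact hrho s ⟨hsI.1, hsT'.le⟩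
          · exact hrho t ⟨ht.1, htT'.le⟩
      _ < ENNReal.ofReal (ε ^ 2 / 2) + ENNReal.ofReal (ε ^ 2 / 2) := ENNReal.add_lt_add hs hn
      _ = ENNReal.ofReal (ε ^ 2) := by
          rw [← ENNReal.ofReal_add (by positivity) (by positivity)]
          congr 1
          ring

end Pool.Agent.R228.GL
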