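import Pool.Agent.R228.GL.Stm

/-! # MP_b98ad5_an, piece GL-K3A: weighted `L²` estimate for mild solutions -/

set_option autoImplicit false

open MeasureTheory Filter Set
open scoped ENNReal Topology FourierTransform ZeroAtInfty

namespace Pool.Agent.R228.GL

namespace K3Aux

lemma kerMeas (N : ℕ) (θ : ℝ) : Measurable fun p : ℝ × E N => ker N θ p.1 p.2 := by
  unfold ker
  fun_prop

/-- Cauchy-Schwarz -/
lemma cs {X : Type*} [MeasurableSpace X] (μ : Measure X) {f g : X → ℝ≥0∞} (hf : AEMeasurable f μ)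
    (hg : AEMeasurable g μ) :
    (∫⁻ x, f x * g x ∂μ) ^ 2 ≤ (∫⁻ x, f x ∂μ) * ∫⁻ x, f x * g x ^ 2 ∂μ := by
  have hf2 : AEMeasurable (fun x => f x ^ (1 / 2 : ℝ)) μ := hf.pow_const _
  have h := ENNReal.lintegral_mul_le_Lp_mul_Lq μ Real.HolderConjugate.two_two
    (f := fun x => f x ^ (1 / 2 : ℝ)) (g := fun x => f x ^ (1 / 2 : ℝ) * g x) hf2 (hf2.mul hg)
  have e1 : ∀ x, ((fun x => f x ^ (1 / 2 : ℝ)) * (fun x => f x ^ (1 / 2 : ℝ) * g x)) x =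
      f x * g x := by
    intro x
    show f x ^ (1 / 2 : ℝ) * (f x ^ (1 / 2 : ℝ) * g x) = f x * g x
    rw [← mul_assoc, ← ENNReal.rpow_add_of_nonneg _ _ (by norm_num) (by norm_num)]
    norm_num
  have e2 : ∀ x, (f x ^ (1 / 2 : ℝ)) ^ (2 : ℝ) = f x := by
    intro x
    rw [← ENNReal.rpow_mul]
    norm_num
  have e3 : ∀ x, (f x ^ (1 / 2 : ℝ) * g x) ^ (2 : ℝ) = f x * g x ^ 2 := by
    intro x
    rw [ENNReal.mul_rpow_of_nonneg _ _ (by norm_num), e2, ENNReal.rpow_two]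
  simp only [e1, e2, e3] at h
  calc (∫⁻ x, f x * g x ∂μ) ^ 2
      ≤ ((∫⁻ x, f x ∂μ) ^ (1 / 2 : ℝ) * (∫⁻ x, f x * g x ^ 2 ∂μ) ^ (1 / 2 : ℝ)) ^ 2 := by
        gcongr
    _ = (∫⁻ x, f x ∂μ) * ∫⁻ x, f x * g x ^ 2 ∂μ := by
        rw [mul_pow, ← ENNReal.rpow_two, ← ENNReal.rpow_two, ← ENNReal.rpow_mul,
          ← ENNReal.rpow_mul]
        norm_num

/-- weighted bound for an integral operator -/
lemma gen {N : ℕ} {Z : Type*} [MeasurableSpace Z] (ν : Measure Z) [SFinite ν]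
    (κ : E N → Z → ℝ≥0∞) (hκ : Measurable (Function.uncurry κ)) (b r' : Z → ℝ≥0∞)
    (hb : AEMeasurable b ν) (r : E N → ℝ≥0∞) (hr : Measurable r) (C1 C2 : ℝ≥0∞) (hC1 : C1 ≠ ∞)
    (hC2 : C2 ≠ ∞)
    (h1 : ∀ x, ∫⁻ z, κ x z ∂ν ≤ C1) (h2 : ∀ᵐ z ∂ν, ∫⁻ x, r x * κ x z ≤ C2 * r' z) :
    ∫⁻ x, r x * (∫⁻ z, κ x z * b z ∂ν) ^ 2 ≤ C1 * (C2 * ∫⁻ z, r' z * b z ^ 2 ∂ν) := by
  have hκx : ∀ x, Measurable (κ x) := fun x => hκ.comp measurable_prodMk_left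
  have hκz : ∀ z, Measurable (fun x => κ x z) := fun z => hκ.comp measurable_prodMk_right
  have hjoint : AEMeasurable (Function.uncurry fun (x : E N) (z : Z) => r x * κ x z * b z ^ 2)
      ((volume : Measure (E N)).prod ν) := by
    exact ((hr.comp measurable_fst).mul hκ).aemeasurable.mul
      ((hb.comp_quasiMeasurePreserving Measure.quasiMeasurePreserving_snd).pow_const 2)
  have s1 : ∀ x, r x * (∫⁻ z, κ x z * b z ∂ν) ^ 2 ≤ C1 * ∫⁻ z, r x * κ x z * b z ^ 2 ∂ν := by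
    intro x
    have e := cs ν (hκx x).aemeasurable hb
    have e2 : ∫⁻ z, r x * κ x z * b z ^ 2 ∂ν = r x * ∫⁻ z, κ x z * b z ^ 2 ∂ν := by
      rw [← lintegral_const_mul'' (r x) (f := fun z => κ x z * b z ^ 2)
        ((hκx x).aemeasurable.mul (hb.pow_const 2))]
      refine lintegral_congr fun z => ?_
      ring
    rw [e2]
    calc r x * (∫⁻ z, κ x z * b z ∂ν) ^ 2
        ≤ r x * ((∫⁻ z, κ x z ∂ν) * ∫⁻ z, κ x z * b z ^ 2 ∂ν) := by gcongr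
      _ ≤ r x * (C1 * ∫⁻ z, κ x z * b z ^ 2 ∂ν) := by gcongr; exact h1 x
      _ = C1 * (r x * ∫⁻ z, κ x z * b z ^ 2 ∂ν) := by ring
  have s2 : ∀ᵐ z ∂ν, ∫⁻ x, r x * κ x z * b z ^ 2 ≤ C2 * (r' z * b z ^ 2) := by
    filter_upwards [h2] with z hz
    rw [lintegral_mul_const (b z ^ 2) (f := fun x => r x * κ x z) (hr.mul (hκz z)), ← mul_assoc]
    gcongr
  calc ∫⁻ x, r x * (∫⁻ z, κ x z * b z ∂ν) ^ 2
      ≤ ∫⁻ x, C1 * ∫⁻ z, r x * κ x z * b z ^ 2 ∂ν := lintegral_mono s1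
    _ = C1 * ∫⁻ x, ∫⁻ z, r x * κ x z * b z ^ 2 ∂ν := lintegral_const_mul' _ _ hC1
    _ = C1 * ∫⁻ z, (∫⁻ x, r x * κ x z * b z ^ 2) ∂ν := by rw [lintegral_lintegral_swap hjoint]
    _ ≤ C1 * ∫⁻ z, C2 * (r' z * b z ^ 2) ∂ν := mul_le_mul' le_rfl (lintegral_mono_ae s2)
    _ = C1 * (C2 * ∫⁻ z, r' z * b z ^ 2 ∂ν) := by rw [lintegral_const_mul' _ _ hC2]

/-- Gronwall's lemma -/
lemma gron {n : ℝ → ℝ≥0∞} {A B : ℝ≥0∞} {K T' : ℝ} (hK : 0 ≤ K) (hB : B ≠ ∞)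
    (hnB : ∀ t ∈ Icc 0 T', n t ≤ B)
    (h : ∀ t ∈ Icc 0 T', n t ≤ A + ENNReal.ofReal K * ∫⁻ s in Ioo 0 t, n s) :
    ∀ t ∈ Icc 0 T', n t ≤ ENNReal.ofReal (Real.exp ((2 * K + 1) * t)) * (2 * A) := by
  set lam : ℝ := 2 * K + 1 with hlam
  have hl : 0 < lam := by rw [hlam]; linarith
  set ex : ℝ → ℝ≥0∞ := fun t => ENNReal.ofReal (Real.exp (lam * t)) with hex
  set ey : ℝ → ℝ≥0∞ := fun t => ENNReal.ofReal (Real.exp (-(lam * t))) with hey
  have hxy : ∀ t, ex t * ey t = 1 := by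
    intro t
    rw [hex, hey]
    beta_reduce
    rw [← ENNReal.ofReal_mul (Real.exp_pos _).le, ← Real.exp_add, add_neg_cancel, Real.exp_zero,
      ENNReal.ofReal_one]
  set m : ℝ≥0∞ := ⨆ t ∈ Icc 0 T', n t * ey t with hm
  have hle : ∀ t ∈ Icc 0 T', n t * ey t ≤ m := fun t ht => le_iSup₂_of_le t ht le_rfl
  have hnm : ∀ t ∈ Icc 0 T', n t ≤ m * ex t := by
    intro t ht
    calc n t = n t * ey t * ex t := by rw [mul_assoc, mul_comm (ey t), hxy, mul_one]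
      _ ≤ m * ex t := by gcongr; exact hle t ht
  have hmB : m ≤ B := by
    refine iSup₂_le fun t ht => ?_
    have h1 : ey t ≤ 1 := by
      rw [hey]
      beta_reduce
      rw [← ENNReal.ofReal_one]
      refine ENNReal.ofReal_le_ofReal ?_
      rw [Real.exp_le_one_iff]
      have := mul_nonneg hl.le ht.1
      linarith
    calc n t * ey t ≤ B * 1 := by gcongr; exact hnB t ht
      _ = B := mul_one B
  have hmf : m ≠ ∞ := (lt_of_le_of_lt hmB hB.lt_top).ne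
  have hint : ∀ t, 0 ≤ t → ∫⁻ s in Ioo 0 t, ex s ≤ ENNReal.ofReal (1 / lam) * ex t := by
    intro t ht
    have hc : Continuous fun s : ℝ => Real.exp (lam * s) := by fun_prop
    have hii : IntegrableOn (fun s : ℝ => Real.exp (lam * s)) (Ioo 0 t) :=
      (hc.integrableOn_Icc (a := 0) (b := t)).mono_set Ioo_subset_Icc_self
    have e1 : ∫⁻ s in Ioo 0 t, ex s = ENNReal.ofReal (∫ s in Ioo 0 t, Real.exp (lam * s)) := by
      rw [ofReal_integral_eq_lintegral_ofReal hii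
        (Filter.Eventually.of_forall fun s => (Real.exp_pos _).le)]
    have e2 : ∫ s in Ioo 0 t, Real.exp (lam * s) = (Real.exp (lam * t) - 1) / lam := by
      rw [← integral_Ioc_eq_integral_Ioo, ← intervalIntegral.integral_of_le ht]
      have hd : ∀ s ∈ uIcc 0 t, HasDerivAt (fun s : ℝ => Real.exp (lam * s) / lam)
          (Real.exp (lam * s)) s := by
        intro s _
        have h0 := (((hasDerivAt_id' s).const_mul lam).exp).div_const lam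
        have e : Real.exp (lam * s) * (lam * 1) / lam = Real.exp (lam * s) := by field_simp
        rw [e] at h0
        exact h0
      rw [intervalIntegral.integral_eq_sub_of_hasDerivAt hd (hc.intervalIntegrable _ _)]
      simp only [mul_zero, Real.exp_zero]
      ring
    rw [e1, e2, hex]
    beta_reduce
    rw [← ENNReal.ofReal_mul (by positivity)]
    refine ENNReal.ofReal_le_ofReal ?_
    rw [one_div, inv_mul_eq_div]
    exact div_le_div_of_nonneg_right (by linarith) hl.le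
  have hstep : ∀ t ∈ Icc 0 T', n t * ey t ≤ A + ENNReal.ofReal (1 / 2) * m := by
    intro t ht
    have h1 : ∫⁻ s in Ioo 0 t, n s ≤ m * (ENNReal.ofReal (1 / lam) * ex t) := by
      calc ∫⁻ s in Ioo 0 t, n s ≤ ∫⁻ s in Ioo 0 t, m * ex s := by
            refine setLIntegral_mono' measurableSet_Ioo fun s hs => ?_
            exact hnm s ⟨hs.1.le, hs.2.le.trans ht.2⟩
        _ = m * ∫⁻ s in Ioo 0 t, ex s := lintegral_const_mul' _ _ hmf
        _ ≤ _ := by gcongr; exact hint t ht.1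
    have h2 : ey t ≤ 1 := by
      rw [hey]
      beta_reduce
      rw [← ENNReal.ofReal_one]
      refine ENNReal.ofReal_le_ofReal ?_
      rw [Real.exp_le_one_iff]
      have := mul_nonneg hl.le ht.1
      linarith
    have h3 : ENNReal.ofReal K * ENNReal.ofReal (1 / lam) ≤ ENNReal.ofReal (1 / 2) := by
      rw [← ENNReal.ofReal_mul hK]
      refine ENNReal.ofReal_le_ofReal ?_
      rw [mul_one_div, div_le_div_iff₀ hl (by norm_num)]
      rw [hlam]; linarith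
    calc n t * ey t ≤ (A + ENNReal.ofReal K * (m * (ENNReal.ofReal (1 / lam) * ex t))) * ey t := by
          gcongr
          exact (h t ht).trans (by gcongr)
      _ = A * ey t + (ENNReal.ofReal K * ENNReal.ofReal (1 / lam)) * m * (ex t * ey t) := by ring
      _ ≤ A * 1 + ENNReal.ofReal (1 / 2) * m * 1 := by
          rw [hxy]
          gcongr
      _ = _ := by rw [mul_one, mul_one]
  have hm2 : m ≤ A + ENNReal.ofReal (1 / 2) * m := iSup₂_le hstep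
  have hhalf : ENNReal.ofReal (1 / 2) * m + ENNReal.ofReal (1 / 2) * m = m := by
    rw [← add_mul, ← ENNReal.ofReal_add (by norm_num) (by norm_num)]
    norm_num
  have hm3 : ENNReal.ofReal (1 / 2) * m ≤ A := by
    have hf : ENNReal.ofReal (1 / 2) * m ≠ ∞ := ENNReal.mul_ne_top ENNReal.ofReal_ne_top hmf
    refine (ENNReal.add_le_add_iff_right hf).1 ?_
    rw [hhalf]
    exact hm2
  have hm4 : m ≤ 2 * A := by
    rw [← hhalf, two_mul]
    exact add_le_add hm3 hm3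
  intro t ht
  calc n t ≤ m * ex t := hnm t ht
    _ ≤ 2 * A * ex t := by gcongr
    _ = _ := by rw [mul_comm]

lemma uMeas {N : ℕ} {T t : ℝ} {u : ℝ → C₀(E N, ℂ)} (hu : ContinuousOn u (Ico 0 T)) (ht : t < T) :
    AEMeasurable (fun p : ℝ × E N => u p.1 p.2) ((volume.restrict (Ioo 0 t)).prod volume) := by
  have hsub : Ioo 0 t ⊆ Ico 0 T := fun s hs => ⟨hs.1.le, hs.2.trans ht⟩
  have hc : ContinuousOn (fun p : ℝ × E N => u p.1 p.2) (Ioo 0 t ×ˢ univ) := by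
    rintro ⟨s, x⟩ hp
    have hs : s ∈ Ioo 0 t := hp.1
    have h1 : Tendsto (fun p : ℝ × E N => u p.1) (𝓝[Ioo 0 t ×ˢ univ] (s, x)) (𝓝 (u s)) := by
      have := ((hu.mono hsub) s hs).tendsto
      refine this.comp ?_
      refine tendsto_nhdsWithin_iff.2 ⟨?_, ?_⟩
      · exact (continuous_fst.tendsto (s, x)).mono_left nhdsWithin_le_nhds
      · filter_upwards [self_mem_nhdsWithin] with p hp using hp.1
    have h2 : Tendsto (fun p : ℝ × E N => u s p.2) (𝓝[Ioo 0 t ×ˢ univ] (s, x)) (𝓝 (u s x)) :=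
      (((u s).continuous.comp continuous_snd).tendsto (s, x)).mono_left nhdsWithin_le_nhds
    have h3 : Tendsto (fun p : ℝ × E N => dist (u p.1) (u s)) (𝓝[Ioo 0 t ×ˢ univ] (s, x)) (𝓝 0) :=
      tendsto_iff_dist_tendsto_zero.1 h1
    have h4 := tendsto_iff_dist_tendsto_zero.1 h2
    refine tendsto_iff_dist_tendsto_zero.2 ?_
    refine squeeze_zero (fun _ => dist_nonneg) (fun p => ?_) (by simpa using h3.add h4)
    refine (dist_triangle (u p.1 p.2) (u s p.2) (u s x)).trans ?_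
    refine add_le_add ?_ le_rfl
    rw [← ZeroAtInftyContinuousMap.dist_toBCF_eq_dist]
    exact BoundedContinuousFunction.dist_coe_le_dist (f := (u p.1).toBCF) (g := (u s).toBCF) p.2
  have := hc.aemeasurable (μ := (volume : Measure ℝ).prod (volume : Measure (E N)))
    (measurableSet_Ioo.prod MeasurableSet.univ)
  rw [← Measure.prod_restrict, Measure.restrict_univ] at this
  exact this

lemma sq_add_le (a b : ℝ≥0∞) : (a + b) ^ 2 ≤ 2 * a ^ 2 + 2 * b ^ 2 := by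
  have h := ENNReal.rpow_add_le_mul_rpow_add_rpow a b (p := 2) (by norm_num)
  have e : (2 : ℝ) - 1 = 1 := by norm_num
  rw [e, ENNReal.rpow_one, ENNReal.rpow_two, ENNReal.rpow_two, ENNReal.rpow_two, mul_add] at h
  exact h

lemma zc_norm (θ : ℝ) : ‖zc θ‖ = 1 := Complex.norm_exp_ofReal_mul_I θ

lemma nl_le {N : ℕ} {θ α γ M : ℝ} (hα : 0 < α) (hγ : 0 ≤ γ) (f : E N → ℂ) (x : E N)
    (hM : ‖f x‖ ≤ M) : ‖nl θ α γ f x‖ ≤ (M ^ α + γ) * ‖f x‖ := by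
  unfold nl
  refine (norm_add_le _ _).trans ?_
  rw [norm_mul, norm_mul, norm_mul, zc_norm, one_mul, Complex.norm_real, Complex.norm_real,
    Real.norm_of_nonneg (Real.rpow_nonneg (norm_nonneg _) _), Real.norm_of_nonneg hγ, ← add_mul]
  refine mul_le_mul_of_nonneg_right ?_ (norm_nonneg _)
  have := Real.rpow_le_rpow (norm_nonneg (f x)) hM hα.le
  linarith

/-- the modulus of the kernel -/
noncomputable def kn (N : ℕ) (θ τ : ℝ) (z : E N) : ℝ≥0∞ := ‖ker N θ τ z‖ₑ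

lemma kn_eq (N : ℕ) (θ τ : ℝ) (z : E N) : kn N θ τ z = ‖ker N θ τ z‖ₑ := rfl

lemma knMeas (N : ℕ) (θ : ℝ) : Measurable fun p : ℝ × E N => kn N θ p.1 p.2 :=
  (kerMeas N θ).enorm

attribute [irreducible] kn

lemma knMeas' (N : ℕ) (θ τ : ℝ) : Measurable (kn N θ τ) := by
  have h : Measurable fun z : E N => ((τ, z) : ℝ × E N) := by fun_prop
  exact (knMeas N θ).comp h

/-- admissible weights -/
def Wt {N : ℕ} (r : E N → ℝ≥0∞) : Prop :=
  Measurable r ∧ ∀ x y, r x ≤ ENNReal.ofReal (Real.exp ‖x - y‖) * r y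

/-- bounds for the kernel -/
def KB (N : ℕ) (θ T' C1 : ℝ) : Prop :=
  ∀ τ, 0 < τ → τ ≤ T' → (∀ x : E N, ∫⁻ y, kn N θ τ (x - y) ≤ ENNReal.ofReal C1) ∧
    ∀ r : E N → ℝ≥0∞, Wt r → ∀ y, ∫⁻ x, r x * kn N θ τ (x - y) ≤ ENNReal.ofReal C1 * r y

lemma exists_KB (h1 : S_K1) {N : ℕ} {θ : ℝ} (hθ : 0 ≤ θ) (hθ' : θ < Real.pi / 2) {T' : ℝ}
    (hT0 : 0 ≤ T') : ∃ C1 : ℝ, 1 ≤ C1 ∧ KB N θ T' C1 := by
  obtain ⟨_, hK⟩ := h1 N θ hθ hθ'
  obtain ⟨C0, hC0, hC⟩ := hK (T' + 1) (by linarith)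
  refine ⟨max C0 1, le_max_right _ _, fun τ h0 h1 => ?_⟩
  have hbd : ∫⁻ x, kn N θ τ x * ENNReal.ofReal (Real.exp ‖x‖) ≤
      ENNReal.ofReal (max C0 1) := by
    refine le_trans (le_of_eq ?_) ((hC τ h0 (by linarith)).trans
      (ENNReal.ofReal_le_ofReal (le_max_left _ _)))
    refine lintegral_congr fun x => ?_
    rw [ENNReal.ofReal_mul (norm_nonneg _), ofReal_norm, kn_eq]
  constructor
  · intro x
    rw [lintegral_sub_left_eq_self (kn N θ τ) x]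
    refine le_trans (lintegral_mono fun y => ?_) hbd
    have : (1 : ℝ≥0∞) ≤ ENNReal.ofReal (Real.exp ‖y‖) := by
      rw [← ENNReal.ofReal_one]
      exact ENNReal.ofReal_le_ofReal (Real.one_le_exp (norm_nonneg _))
    calc kn N θ τ y = kn N θ τ y * 1 := (mul_one _).symm
      _ ≤ _ := by gcongr
  · intro r hr y
    calc ∫⁻ x, r x * kn N θ τ (x - y)
        ≤ ∫⁻ x, r y * (kn N θ τ (x - y) * ENNReal.ofReal (Real.exp ‖x - y‖)) := by
          refine lintegral_mono fun x => ?_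
          calc r x * kn N θ τ (x - y)
              ≤ (ENNReal.ofReal (Real.exp ‖x - y‖) * r y) * kn N θ τ (x - y) :=
                mul_le_mul' (hr.2 x y) le_rfl
            _ = _ := by ring
      _ = r y * ∫⁻ x, kn N θ τ (x - y) * ENNReal.ofReal (Real.exp ‖x - y‖) := by
          refine lintegral_const_mul _ ?_
          exact ((knMeas' N θ τ).comp (by fun_prop)).mul (by fun_prop)
      _ = r y * ∫⁻ x, kn N θ τ x * ENNReal.ofReal (Real.exp ‖x‖) := by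
          rw [lintegral_sub_right_eq_self (fun z => kn N θ τ z * ENNReal.ofReal (Real.exp ‖z‖)) y]
      _ ≤ r y * ENNReal.ofReal (max C0 1) := mul_le_mul' le_rfl hbd
      _ = _ := mul_comm _ _

/-- bounds for the solution -/
def UB {N : ℕ} (θ α γ T' M Λ : ℝ) (u : ℝ → C₀(E N, ℂ)) : Prop :=
  ∀ s ∈ Icc 0 T', ∀ y, ‖u s y‖ₑ ≤ ENNReal.ofReal M ∧
    ‖nl θ α γ (fun y => u s y) y‖ₑ ≤ ENNReal.ofReal Λ * ‖u s y‖ₑ

lemma exists_UB {N : ℕ} {θ α γ T : ℝ} {u : ℝ → C₀(E N, ℂ)} (hα : 0 < α) (hγ : 0 ≤ γ)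
    (hu : ContinuousOn u (Ico 0 T)) {T' : ℝ} (hT' : T' < T) :
    ∃ M Λ : ℝ, 0 ≤ Λ ∧ UB θ α γ T' M Λ u := by
  obtain ⟨M0, hM0⟩ := isCompact_Icc.exists_bound_of_continuousOn
    (hu.mono (fun s (hs : s ∈ Icc 0 T') => (⟨hs.1, hs.2.trans_lt hT'⟩ : s ∈ Ico 0 T)))
  have hM1 : ∀ s ∈ Icc 0 T', ∀ x, ‖u s x‖ ≤ max M0 0 := by
    intro s hs x
    have h1 : ‖u s x‖ ≤ ‖u s‖ := by
      rw [← ZeroAtInftyContinuousMap.norm_toBCF_eq_norm]
      exact (u s).toBCF.norm_coe_le_norm x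
    exact h1.trans ((hM0 s hs).trans (le_max_left _ _))
  have hMn : 0 ≤ max M0 0 := le_max_right _ _
  have hΛn : 0 ≤ (max M0 0) ^ α + γ := add_nonneg (Real.rpow_nonneg hMn _) hγ
  refine ⟨max M0 0, (max M0 0) ^ α + γ, hΛn, fun s hs y => ⟨?_, ?_⟩⟩
  · rw [← ofReal_norm]
    exact ENNReal.ofReal_le_ofReal (hM1 s hs y)
  · rw [← ofReal_norm, ← ofReal_norm, ← ENNReal.ofReal_mul hΛn]
    exact ENNReal.ofReal_le_ofReal (nl_le hα hγ _ _ (hM1 s hs y))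

/-- the modulus of the nonlinearity -/
noncomputable def bb {N : ℕ} (θ α γ : ℝ) (u : ℝ → C₀(E N, ℂ)) (z : ℝ × E N) : ℝ≥0∞ :=
  ‖nl θ α γ (fun y => u z.1 y) z.2‖ₑ

/-- the measure on the sources -/
noncomputable def νν (N : ℕ) (t : ℝ) : Measure (ℝ × E N) :=
  ((volume : Measure ℝ).restrict (Ioo 0 t)).prod volume

instance (N : ℕ) (t : ℝ) : SFinite (νν N t) := by
  unfold νν
  infer_instance

lemma bbMeas {N : ℕ} {θ α γ T : ℝ} {u : ℝ → C₀(E N, ℂ)}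
    (hu : ContinuousOn u (Ico 0 T)) {t : ℝ} (ht : t < T) :
    AEMeasurable (bb θ α γ u) (νν N t) := by
  have hg : Measurable fun w : ℂ => ‖zc θ * ((‖w‖ ^ α : ℝ) : ℂ) * w + (γ : ℂ) * w‖ₑ := by
    fun_prop
  exact hg.comp_aemeasurable (uMeas hu ht)

lemma k2Meas (N : ℕ) (θ t : ℝ) :
    Measurable (Function.uncurry fun (x : E N) (z : ℝ × E N) => kn N θ (t - z.1) (x - z.2)) := by
  have h : Measurable fun p : E N × (ℝ × E N) => ((t - p.2.1, p.1 - p.2.2) : ℝ × E N) := by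
    fun_prop
  show Measurable (fun p : E N × (ℝ × E N) => kn N θ (t - p.2.1) (p.1 - p.2.2))
  exact (knMeas N θ).comp h

lemma k2Meas' (N : ℕ) (θ t : ℝ) (x : E N) :
    Measurable fun z : ℝ × E N => kn N θ (t - z.1) (x - z.2) := by
  have h : Measurable fun p : ℝ × E N => ((t - p.1, x - p.2) : ℝ × E N) := by
    fun_prop
  exact (knMeas N θ).comp h

lemma k1Meas (N : ℕ) (θ t : ℝ) :
    Measurable (Function.uncurry fun (x y : E N) => kn N θ t (x - y)) := by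
  show Measurable (fun p : E N × E N => kn N θ t (p.1 - p.2))
  exact (knMeas' N θ t).comp (measurable_fst.sub measurable_snd)

/-- pointwise bound -/
lemma pt_bound {N : ℕ} {θ α γ T : ℝ} {u0 : C₀(E N, ℂ)} {u : ℝ → C₀(E N, ℂ)}
    (hu : IsMild θ α γ T u0 u) {t : ℝ} (h0 : 0 < t) (htT : t < T) (x : E N) :
    ‖u t x‖ₑ ≤ (∫⁻ y, kn N θ t (x - y) * ‖u0 y‖ₑ) +
      ∫⁻ z, kn N θ (t - z.1) (x - z.2) * bb θ α γ u z ∂(νν N t) := by
  rw [hu.eq t ⟨h0.le, htT⟩ x]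
  refine (enorm_add_le _ _).trans (add_le_add ?_ ?_)
  · unfold Tsg
    rw [if_neg h0.ne']
    refine (enorm_integral_le_lintegral_enorm _).trans (le_of_eq ?_)
    refine lintegral_congr fun y => ?_
    rw [enorm_mul, kn_eq]
  · rw [intervalIntegral.integral_of_le h0.le, integral_Ioc_eq_integral_Ioo]
    refine (enorm_integral_le_lintegral_enorm _).trans ?_
    have hm : AEMeasurable (fun z : ℝ × E N => kn N θ (t - z.1) (x - z.2) * bb θ α γ u z)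
        (((volume : Measure ℝ).restrict (Ioo 0 t)).prod volume) :=
      (k2Meas' N θ t x).aemeasurable.mul (bbMeas hu.cont htT)
    unfold νν
    rw [lintegral_prod _ hm]
    refine setLIntegral_mono' measurableSet_Ioo fun s hs => ?_
    unfold Tsg
    rw [if_neg (by have := hs.2; linarith : ¬ t - s = 0)]
    refine (enorm_integral_le_lintegral_enorm _).trans (le_of_eq ?_)
    refine lintegral_congr fun y => ?_
    rw [enorm_mul, kn_eq]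
    rfl

lemma g2 {N : ℕ} {θ α γ T T' C1 M Λ : ℝ} {u : ℝ → C₀(E N, ℂ)}
    (hu : ContinuousOn u (Ico 0 T)) (hC1 : 1 ≤ C1) (hKB : KB N θ T' C1)
    (hΛ : 0 ≤ Λ) (hUB : UB θ α γ T' M Λ u) (hT' : T' < T) {r : E N → ℝ≥0∞} (hr : Wt r) {t : ℝ}
    (h0 : 0 < t) (ht : t ≤ T') :
    ∫⁻ x, r x * (∫⁻ z, kn N θ (t - z.1) (x - z.2) * bb θ α γ u z ∂(νν N t)) ^ 2 ≤
      ENNReal.ofReal (T' * C1) * (ENNReal.ofReal C1 *
        (ENNReal.ofReal (Λ ^ 2) * ∫⁻ s in Ioo 0 t, ∫⁻ x, r x * ‖u s x‖ₑ ^ 2)) := by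
  have htT : t < T := ht.trans_lt hT'
  have hC1pos : 0 < C1 := by linarith
  have hbm := bbMeas (θ := θ) (α := α) (γ := γ) hu htT
  have hmem : ∀ᵐ z ∂(νν N t), z.1 ∈ Ioo 0 t := by
    have h1 : ∀ᵐ s ∂((volume : Measure ℝ).restrict (Ioo 0 t)), s ∈ Ioo 0 t :=
      ae_restrict_mem measurableSet_Ioo
    exact Measure.quasiMeasurePreserving_fst.ae h1
  have e2 : ∫⁻ x, r x * (∫⁻ z, kn N θ (t - z.1) (x - z.2) * bb θ α γ u z ∂(νν N t)) ^ 2 ≤
      ENNReal.ofReal (T' * C1) * (ENNReal.ofReal C1 *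
        ∫⁻ z, r z.2 * bb θ α γ u z ^ 2 ∂(νν N t)) := by
    refine gen (νν N t) (fun x z => kn N θ (t - z.1) (x - z.2)) (k2Meas N θ t) (bb θ α γ u)
      (fun z => r z.2) hbm r hr.1 _ _ ENNReal.ofReal_ne_top ENNReal.ofReal_ne_top (fun x => ?_) ?_
    · unfold νν
      rw [lintegral_prod _ (k2Meas' N θ t x).aemeasurable]
      calc ∫⁻ s in Ioo 0 t, ∫⁻ y, kn N θ (t - s) (x - y) ≤ ∫⁻ s in Ioo 0 t, ENNReal.ofReal C1 := by
            refine setLIntegral_mono' measurableSet_Ioo fun s hs => ?_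
            exact (hKB (t - s) (by linarith [hs.2]) (by linarith [hs.1, ht])).1 x
        _ = ENNReal.ofReal C1 * ENNReal.ofReal t := by
            rw [setLIntegral_const, Real.volume_Ioo, sub_zero]
        _ ≤ ENNReal.ofReal (T' * C1) := by
            rw [← ENNReal.ofReal_mul hC1pos.le]
            refine ENNReal.ofReal_le_ofReal ?_
            rw [mul_comm]
            exact mul_le_mul_of_nonneg_right ht hC1pos.le
    · filter_upwards [hmem] with z hz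
      exact (hKB (t - z.1) (by linarith [hz.2]) (by linarith [hz.1, ht])).2 r hr z.2
  have e3 : ∫⁻ z, r z.2 * bb θ α γ u z ^ 2 ∂(νν N t) ≤
      ENNReal.ofReal (Λ ^ 2) * ∫⁻ s in Ioo 0 t, ∫⁻ x, r x * ‖u s x‖ₑ ^ 2 := by
    have hm : AEMeasurable (fun z : ℝ × E N => r z.2 * bb θ α γ u z ^ 2)
        (((volume : Measure ℝ).restrict (Ioo 0 t)).prod volume) :=
      ((hr.1.comp measurable_snd).aemeasurable).mul (hbm.pow_const 2)
    unfold νν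
    rw [lintegral_prod _ hm, ← lintegral_const_mul' _ _ ENNReal.ofReal_ne_top]
    refine setLIntegral_mono' measurableSet_Ioo fun s hs => ?_
    have hs' : s ∈ Icc 0 T' := ⟨hs.1.le, hs.2.le.trans ht⟩
    rw [← lintegral_const_mul' _ _ ENNReal.ofReal_ne_top]
    refine lintegral_mono fun y => ?_
    have h2 := (hUB s hs' y).2
    calc r y * bb θ α γ u (s, y) ^ 2 ≤ r y * (ENNReal.ofReal Λ * ‖u s y‖ₑ) ^ 2 :=
          mul_le_mul' le_rfl (pow_le_pow_left' h2 2)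
      _ = ENNReal.ofReal (Λ ^ 2) * (r y * ‖u s y‖ₑ ^ 2) := by
          rw [ENNReal.ofReal_pow hΛ]
          ring
  exact e2.trans (mul_le_mul' le_rfl (mul_le_mul' le_rfl e3))

lemma step {N : ℕ} {θ α γ T T' C1 M Λ : ℝ} {u0 : C₀(E N, ℂ)} {u : ℝ → C₀(E N, ℂ)}
    (hu : IsMild θ α γ T u0 u) (hC1 : 1 ≤ C1) (hKB : KB N θ T' C1)
    (hΛ : 0 ≤ Λ) (hUB : UB θ α γ T' M Λ u) (hT' : T' < T) {r : E N → ℝ≥0∞} (hr : Wt r) {t : ℝ}
    (h0 : 0 < t) (ht : t ≤ T') :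
    ∫⁻ x, r x * ‖u t x‖ₑ ^ 2 ≤
      2 * (ENNReal.ofReal C1 * (ENNReal.ofReal C1 * ∫⁻ x, r x * ‖u0 x‖ₑ ^ 2)) +
      2 * (ENNReal.ofReal (T' * C1) * (ENNReal.ofReal C1 *
        (ENNReal.ofReal (Λ ^ 2) * ∫⁻ s in Ioo 0 t, ∫⁻ x, r x * ‖u s x‖ₑ ^ 2))) := by
  have htT : t < T := ht.trans_lt hT'
  have hX1m : Measurable fun x => ∫⁻ y, kn N θ t (x - y) * ‖u0 y‖ₑ := by
    refine Measurable.lintegral_prod_right'
      (f := fun p : E N × E N => kn N θ t (p.1 - p.2) * ‖u0 p.2‖ₑ) ?_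
    exact (k1Meas N θ t).mul ((u0.continuous.measurable.comp measurable_snd).enorm)
  have g1 : ∫⁻ x, r x * (∫⁻ y, kn N θ t (x - y) * ‖u0 y‖ₑ) ^ 2 ≤
      ENNReal.ofReal C1 * (ENNReal.ofReal C1 * ∫⁻ x, r x * ‖u0 x‖ₑ ^ 2) :=
    gen volume (fun x y => kn N θ t (x - y)) (k1Meas N θ t) (fun y => ‖u0 y‖ₑ) r
      u0.continuous.measurable.enorm.aemeasurable r hr.1
      (ENNReal.ofReal C1) (ENNReal.ofReal C1) ENNReal.ofReal_ne_top ENNReal.ofReal_ne_top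
      (hKB t h0 ht).1 (Filter.Eventually.of_forall ((hKB t h0 ht).2 r hr))
  have g2' := g2 hu.cont hC1 hKB hΛ hUB hT' hr h0 ht
  calc ∫⁻ x, r x * ‖u t x‖ₑ ^ 2 ≤ ∫⁻ x, (2 * (r x * (∫⁻ y, kn N θ t (x - y) * ‖u0 y‖ₑ) ^ 2) +
        2 * (r x * (∫⁻ z, kn N θ (t - z.1) (x - z.2) * bb θ α γ u z ∂(νν N t)) ^ 2)) := by
        refine lintegral_mono fun x => ?_
        calc r x * ‖u t x‖ₑ ^ 2 ≤ r x * ((∫⁻ y, kn N θ t (x - y) * ‖u0 y‖ₑ) +
              ∫⁻ z, kn N θ (t - z.1) (x - z.2) * bb θ α γ u z ∂(νν N t)) ^ 2 :=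
              mul_le_mul' le_rfl (pow_le_pow_left' (pt_bound hu h0 htT x) 2)
          _ ≤ r x * (2 * (∫⁻ y, kn N θ t (x - y) * ‖u0 y‖ₑ) ^ 2 +
              2 * (∫⁻ z, kn N θ (t - z.1) (x - z.2) * bb θ α γ u z ∂(νν N t)) ^ 2) :=
              mul_le_mul' le_rfl (sq_add_le _ _)
          _ = _ := by ring
    _ = 2 * (∫⁻ x, r x * (∫⁻ y, kn N θ t (x - y) * ‖u0 y‖ₑ) ^ 2) +
        2 * ∫⁻ x, r x * (∫⁻ z, kn N θ (t - z.1) (x - z.2) * bb θ α γ u z ∂(νν N t)) ^ 2 := by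
        rw [lintegral_add_left
          (f := fun x => 2 * (r x * (∫⁻ y, kn N θ t (x - y) * ‖u0 y‖ₑ) ^ 2))
          ((hr.1.mul (hX1m.pow_const 2)).const_mul 2),
          lintegral_const_mul' _ _ (by norm_num), lintegral_const_mul' _ _ (by norm_num)]
    _ ≤ _ := add_le_add (mul_le_mul' le_rfl g1) (mul_le_mul' le_rfl g2')

lemma u_zero {N : ℕ} {θ α γ T : ℝ} {u0 : C₀(E N, ℂ)} {u : ℝ → C₀(E N, ℂ)}
    (hu : IsMild θ α γ T u0 u) (hT : 0 < T) (x : E N) : u 0 x = u0 x := by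
  have := hu.eq 0 ⟨le_rfl, hT⟩ x
  rw [intervalIntegral.integral_same, add_zero] at this
  rw [this]
  unfold Tsg
  rw [if_pos rfl]

/-- the constant -/
noncomputable def KC (T' C1 Λ : ℝ) : ℝ := 2 * (T' * C1) * C1 * Λ ^ 2

lemma step' {N : ℕ} {θ α γ T T' C1 M Λ : ℝ} {u0 : C₀(E N, ℂ)} {u : ℝ → C₀(E N, ℂ)}
    (hu : IsMild θ α γ T u0 u) (hC1 : 1 ≤ C1) (hKB : KB N θ T' C1)
    (hΛ : 0 ≤ Λ) (hUB : UB θ α γ T' M Λ u) (hT0 : 0 ≤ T') (hT' : T' < T) {r : E N → ℝ≥0∞}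
    (hr : Wt r) {t : ℝ} (h0 : 0 ≤ t) (ht : t ≤ T') :
    ∫⁻ x, r x * ‖u t x‖ₑ ^ 2 ≤
      2 * (ENNReal.ofReal C1 * (ENNReal.ofReal C1 * ∫⁻ x, r x * ‖u0 x‖ₑ ^ 2)) +
      ENNReal.ofReal (KC T' C1 Λ) * ∫⁻ s in Ioo 0 t, ∫⁻ x, r x * ‖u s x‖ₑ ^ 2 := by
  rcases eq_or_lt_of_le h0 with h0 | h0
  · have e : ∫⁻ x, r x * ‖u t x‖ₑ ^ 2 = ∫⁻ x, r x * ‖u0 x‖ₑ ^ 2 := by
      rw [← h0]
      refine lintegral_congr fun x => ?_
      rw [u_zero hu (by linarith)]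
    rw [e]
    have hone : (1 : ℝ≥0∞) ≤ ENNReal.ofReal C1 := by
      rw [← ENNReal.ofReal_one]
      exact ENNReal.ofReal_le_ofReal hC1
    refine le_trans ?_ le_self_add
    calc ∫⁻ x, r x * ‖u0 x‖ₑ ^ 2 = 1 * (1 * (1 * ∫⁻ x, r x * ‖u0 x‖ₑ ^ 2)) := by
          rw [one_mul, one_mul, one_mul]
      _ ≤ _ := mul_le_mul' one_le_two (mul_le_mul' hone (mul_le_mul' hone le_rfl))
  · refine (step hu hC1 hKB hΛ hUB hT' hr h0 ht).trans (add_le_add le_rfl (le_of_eq ?_))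
    have e2 : (2 : ℝ≥0∞) = ENNReal.ofReal 2 := by norm_num
    have hC0 : 0 ≤ C1 := by linarith
    have e3 : ENNReal.ofReal (KC T' C1 Λ) = 2 * ENNReal.ofReal (T' * C1) * ENNReal.ofReal C1 *
        ENNReal.ofReal (Λ ^ 2) := by
      unfold KC
      rw [ENNReal.ofReal_mul (by positivity), ENNReal.ofReal_mul (by positivity),
        ENNReal.ofReal_mul (by norm_num), ← e2]
    rw [e3]
    ring

/-- the main estimate for integrable weights -/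
lemma main (h1 : S_K1) {N : ℕ} {θ α γ T : ℝ} {u0 : C₀(E N, ℂ)} {u : ℝ → C₀(E N, ℂ)} (hθ : 0 ≤ θ)
    (hθ' : θ < Real.pi / 2) (hα : 0 < α) (hγ : 0 ≤ γ) (hu : IsMild θ α γ T u0 u) {T' : ℝ}
    (hT0 : 0 ≤ T') (hT' : T' < T) :
    ∃ C : ℝ, 0 < C ∧ ∀ r : E N → ℝ≥0∞, Wt r → ∫⁻ x, r x ≠ ∞ → ∀ t ∈ Icc 0 T',
      ∫⁻ x, r x * ‖u t x‖ₑ ^ 2 ≤ ENNReal.ofReal C * ∫⁻ x, r x * ‖u0 x‖ₑ ^ 2 := by
  obtain ⟨C1, hC1, hKB⟩ := exists_KB (N := N) h1 hθ hθ' hT0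
  obtain ⟨M, Λ, hΛ, hUB⟩ := exists_UB (θ := θ) hα hγ hu.cont hT'
  have hC0 : 0 < C1 := by linarith
  have hKn : 0 ≤ KC T' C1 Λ := by
    unfold KC
    positivity
  refine ⟨Real.exp ((2 * KC T' C1 Λ + 1) * T') * (2 * (2 * (C1 * C1))), by positivity, ?_⟩
  intro r hr hrf t ht
  have hnB : ∀ t ∈ Icc 0 T', ∫⁻ x, r x * ‖u t x‖ₑ ^ 2 ≤ (∫⁻ x, r x) * ENNReal.ofReal M ^ 2 := by
    intro t ht
    rw [← lintegral_mul_const _ hr.1]
    exact lintegral_mono fun x => mul_le_mul' le_rfl (pow_le_pow_left' (hUB t ht x).1 2)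
  have hB : (∫⁻ x, r x) * ENNReal.ofReal M ^ 2 ≠ ∞ :=
    ENNReal.mul_ne_top hrf (ENNReal.pow_ne_top ENNReal.ofReal_ne_top)
  refine (gron hKn hB hnB (fun t ht => step' hu hC1 hKB hΛ hUB hT0 hT' hr ht.1 ht.2) t ht).trans ?_
  have hexp : ENNReal.ofReal (Real.exp ((2 * KC T' C1 Λ + 1) * t)) ≤
      ENNReal.ofReal (Real.exp ((2 * KC T' C1 Λ + 1) * T')) := by
    refine ENNReal.ofReal_le_ofReal (Real.exp_le_exp.2 ?_)
    exact mul_le_mul_of_nonneg_left ht.2 (by linarith)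
  refine (mul_le_mul' hexp le_rfl).trans (le_of_eq ?_)
  have e2 : (2 : ℝ≥0∞) = ENNReal.ofReal 2 := by norm_num
  have e3 : ENNReal.ofReal (Real.exp ((2 * KC T' C1 Λ + 1) * T') * (2 * (2 * (C1 * C1)))) =
      ENNReal.ofReal (Real.exp ((2 * KC T' C1 Λ + 1) * T')) *
        (2 * (2 * (ENNReal.ofReal C1 * ENNReal.ofReal C1))) := by
    rw [ENNReal.ofReal_mul (Real.exp_pos _).le, ENNReal.ofReal_mul (by norm_num : (0 : ℝ) ≤ 2),
      ENNReal.ofReal_mul (by norm_num : (0 : ℝ) ≤ 2), ENNReal.ofReal_mul hC0.le, ← e2]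
  rw [e3]
  ring

/-- the cut off -/
noncomputable def wj {N : ℕ} (j : ℕ) (x : E N) : ℝ :=
  ((1 + 1 / (2 * ((N : ℝ) + 1) * ((j : ℝ) + 1)) * ‖x‖) ^ (N + 1))⁻¹

lemma wj_pos {N : ℕ} (j : ℕ) (x : E N) : 0 < wj j x := by
  unfold wj
  have h : 0 ≤ ‖x‖ := norm_nonneg x
  positivity

lemma wj_le_one {N : ℕ} (j : ℕ) (x : E N) : wj j x ≤ 1 := by
  unfold wj
  have h : 0 ≤ ‖x‖ := norm_nonneg x
  have h1 : (1 : ℝ) ≤ 1 + 1 / (2 * ((N : ℝ) + 1) * ((j : ℝ) + 1)) * ‖x‖ := by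
    have : 0 ≤ 1 / (2 * ((N : ℝ) + 1) * ((j : ℝ) + 1)) * ‖x‖ := by positivity
    linarith
  exact inv_le_one_of_one_le₀ (one_le_pow₀ h1)

lemma wj_meas {N : ℕ} (j : ℕ) : Measurable (fun x : E N => wj j x) := by
  unfold wj
  fun_prop

lemma wj_ratio {N : ℕ} (j : ℕ) (x y : E N) : wj j x ≤ Real.exp (‖x - y‖ / 2) * wj j y := by
  unfold wj
  set ε : ℝ := 1 / (2 * ((N : ℝ) + 1) * ((j : ℝ) + 1)) with hε
  have hε0 : 0 < ε := by rw [hε]; positivity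
  have hεN : ((N : ℝ) + 1) * ε ≤ 1 / 2 := by
    rw [hε, mul_one_div, div_le_div_iff₀ (by positivity) (by norm_num)]
    have hj : (0 : ℝ) ≤ (j : ℝ) := Nat.cast_nonneg j
    have hN : (0 : ℝ) ≤ (N : ℝ) := Nat.cast_nonneg N
    nlinarith [mul_nonneg hj hN]
  have hx : 0 ≤ ‖x‖ := norm_nonneg x
  have hy : 0 ≤ ‖y‖ := norm_nonneg y
  have hd : 0 ≤ ‖x - y‖ := norm_nonneg _
  have htri : ‖y‖ ≤ ‖x‖ + ‖x - y‖ := by
    have := norm_sub_le x (x - y)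
    rwa [sub_sub_cancel] at this
  have h1 : 1 + ε * ‖y‖ ≤ (1 + ε * ‖x‖) * Real.exp (ε * ‖x - y‖) := by
    have e1 : 1 + ε * ‖x - y‖ ≤ Real.exp (ε * ‖x - y‖) := by
      have := Real.add_one_le_exp (ε * ‖x - y‖)
      linarith
    have e2 : (1 + ε * ‖x‖) * (1 + ε * ‖x - y‖) ≤ (1 + ε * ‖x‖) * Real.exp (ε * ‖x - y‖) :=
      mul_le_mul_of_nonneg_left e1 (by positivity)
    have e3 : ε * ‖y‖ ≤ ε * (‖x‖ + ‖x - y‖) := mul_le_mul_of_nonneg_left htri hε0.le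
    have e4 : 0 ≤ ε * ‖x‖ * (ε * ‖x - y‖) := by positivity
    nlinarith
  have h2 : (1 + ε * ‖y‖) ^ (N + 1) ≤ (1 + ε * ‖x‖) ^ (N + 1) * Real.exp (‖x - y‖ / 2) := by
    refine (pow_le_pow_left₀ (by positivity) h1 (N + 1)).trans ?_
    rw [mul_pow, ← Real.exp_nat_mul]
    refine mul_le_mul_of_nonneg_left (Real.exp_le_exp.2 ?_) (by positivity)
    push_cast
    have := mul_le_mul_of_nonneg_right hεN hd
    linarith
  rw [inv_le_iff_one_le_mul₀ (by positivity), mul_assoc, mul_comm, mul_assoc, ← div_eq_inv_mul,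
    one_le_div (by positivity)]
  exact h2

lemma wj_tendsto {N : ℕ} (x : E N) : Tendsto (fun j : ℕ => wj j x) atTop (𝓝 1) := by
  unfold wj
  have h1 : Tendsto (fun j : ℕ => 1 / (2 * ((N : ℝ) + 1) * ((j : ℝ) + 1))) atTop (𝓝 0) := by
    have h2 : Tendsto (fun j : ℕ => 1 / ((j : ℝ) + 1)) atTop (𝓝 0) :=
      tendsto_one_div_add_atTop_nhds_zero_nat
    have h3 := h2.const_mul (1 / (2 * ((N : ℝ) + 1)))
    rw [mul_zero] at h3
    refine h3.congr fun j => ?_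
    rw [one_div_mul_one_div]
  have h4 := ((h1.mul_const ‖x‖).const_add 1).pow (N + 1)
  have h5 := h4.inv₀ (by simp)
  simpa using h5

lemma wj_int {N : ℕ} (j : ℕ) : ∫⁻ x : E N, ENNReal.ofReal (wj j x) ≠ ∞ := by
  set ε : ℝ := 1 / (2 * ((N : ℝ) + 1) * ((j : ℝ) + 1)) with hε
  have hε0 : 0 < ε := by rw [hε]; positivity
  have hε1 : ε ≤ 1 := by
    rw [hε, div_le_one (by positivity)]
    have hj : (0 : ℝ) ≤ (j : ℝ) := Nat.cast_nonneg j
    have hN : (0 : ℝ) ≤ (N : ℝ) := Nat.cast_nonneg N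
    nlinarith [mul_nonneg hj hN]
  have hint := integrable_one_add_norm (E := E N) (μ := volume) (r := (N : ℝ) + 1) (by simp)
  have hint2 := (hint.const_mul ((ε ^ (N + 1))⁻¹)).lintegral_lt_top
  refine (lt_of_le_of_lt (lintegral_mono fun x => ENNReal.ofReal_le_ofReal ?_) hint2).ne
  have hx : 0 ≤ ‖x‖ := norm_nonneg x
  have e1 : (1 + ‖x‖) ^ (-((N : ℝ) + 1)) = ((1 + ‖x‖) ^ (N + 1))⁻¹ := by
    rw [Real.rpow_neg (by positivity)]
    congr 1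
    rw [← Real.rpow_natCast]
    push_cast
    rfl
  rw [e1, ← mul_inv, ← mul_pow]
  unfold wj
  rw [← hε]
  refine inv_anti₀ (by positivity) (pow_le_pow_left₀ (by positivity) ?_ _)
  nlinarith

end K3Aux

open K3Aux

theorem k3a (h1 : S_K1) : S_K3A := by
  intro N θ α γ T u0 u hθ hθ' hα hγ hu T' hT0 hT'
  obtain ⟨C, hC, hmain⟩ := K3Aux.main h1 hθ hθ' hα hγ hu hT0 hT'
  refine ⟨C, hC, ?_⟩
  intro ρ hρm hρ0 hρ1 hρe t ht
  have hofr : ∀ (v : C₀(E N, ℂ)) (x : E N) (a : ℝ), 0 ≤ a →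
      ENNReal.ofReal a * ‖v x‖ₑ ^ 2 = ENNReal.ofReal (a * ‖v x‖ ^ 2) := by
    intro v x a ha
    rw [ENNReal.ofReal_mul ha, ENNReal.ofReal_pow (norm_nonneg _), ofReal_norm]
  have hWt : ∀ j : ℕ, Wt (fun x : E N => ENNReal.ofReal (ρ x * wj j x)) := by
    intro j
    refine ⟨(hρm.mul (wj_meas j)).ennreal_ofReal, fun x y => ?_⟩
    rw [← ENNReal.ofReal_mul (Real.exp_pos _).le]
    refine ENNReal.ofReal_le_ofReal ?_
    have e1 := hρe x y
    have e2 := wj_ratio j x y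
    have e3 : Real.exp ‖x - y‖ = Real.exp (‖x - y‖ / 2) * Real.exp (‖x - y‖ / 2) := by
      rw [← Real.exp_add]
      congr 1
      ring
    calc ρ x * wj j x ≤ (Real.exp (‖x - y‖ / 2) * ρ y) * (Real.exp (‖x - y‖ / 2) * wj j y) :=
          mul_le_mul e1 e2 (wj_pos j x).le (mul_nonneg (Real.exp_pos _).le (hρ0 y))
      _ = _ := by rw [e3]; ring
  have hfin : ∀ j : ℕ, ∫⁻ x : E N, ENNReal.ofReal (ρ x * wj j x) ≠ ∞ := by
    intro j
    refine (lt_of_le_of_lt (lintegral_mono fun x => ENNReal.ofReal_le_ofReal ?_)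
      (wj_int (N := N) j).lt_top).ne
    have := mul_le_mul_of_nonneg_right (hρ1 x) (wj_pos j x).le
    linarith
  have hle : ∀ j : ℕ, ∫⁻ x, ENNReal.ofReal (ρ x * wj j x) * ‖u t x‖ₑ ^ 2 ≤
      ENNReal.ofReal C * ∫⁻ x, ENNReal.ofReal (ρ x * ‖u0 x‖ ^ 2) := by
    intro j
    refine (hmain _ (hWt j) (hfin j) t ht).trans (mul_le_mul' le_rfl (lintegral_mono fun x => ?_))
    rw [← hofr u0 x (ρ x) (hρ0 x)]
    refine mul_le_mul' (ENNReal.ofReal_le_ofReal ?_) le_rfl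
    have := mul_le_mul_of_nonneg_left (wj_le_one j x) (hρ0 x)
    linarith
  have hlim : ∀ x, Tendsto (fun j : ℕ => ENNReal.ofReal (ρ x * wj j x) * ‖u t x‖ₑ ^ 2) atTop
      (𝓝 (ENNReal.ofReal (ρ x * ‖u t x‖ ^ 2))) := by
    intro x
    have e1 : ∀ j : ℕ, ENNReal.ofReal (ρ x * wj j x) * ‖u t x‖ₑ ^ 2 =
        ENNReal.ofReal (ρ x * wj j x * ‖u t x‖ ^ 2) := fun j =>
      hofr (u t) x _ (mul_nonneg (hρ0 x) (wj_pos j x).le)
    simp only [e1]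
    refine (ENNReal.continuous_ofReal.tendsto _).comp ?_
    have := ((wj_tendsto x).const_mul (ρ x)).mul_const (‖u t x‖ ^ 2)
    rw [mul_one] at this
    exact this
  have hmeas : ∀ j : ℕ, Measurable fun x : E N =>
      ENNReal.ofReal (ρ x * wj j x) * ‖u t x‖ₑ ^ 2 := fun j =>
    (hWt j).1.mul ((u t).continuous.measurable.enorm.pow_const 2)
  calc ∫⁻ x, ENNReal.ofReal (ρ x * ‖u t x‖ ^ 2)
      = ∫⁻ x, liminf (fun j : ℕ => ENNReal.ofReal (ρ x * wj j x) * ‖u t x‖ₑ ^ 2) atTop :=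
        lintegral_congr fun x => (hlim x).liminf_eq.symm
    _ ≤ liminf (fun j : ℕ => ∫⁻ x, ENNReal.ofReal (ρ x * wj j x) * ‖u t x‖ₑ ^ 2) atTop :=
        lintegral_liminf_le hmeas
    _ ≤ liminf (fun _ : ℕ => ENNReal.ofReal C * ∫⁻ x, ENNReal.ofReal (ρ x * ‖u0 x‖ ^ 2)) atTop :=
        liminf_le_liminf (Filter.Eventually.of_forall hle)
    _ = _ := liminf_const _

end Pool.Agent.R228.GL
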