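import Pool.Agent.R228.GL.K3a

/-! # MP_b98ad5_an, piece GL-K5: Duhamel's formula in `L²`, in Fourier variables -/

set_option autoImplicit false

open MeasureTheory Filter Set
open scoped ENNReal Topology FourierTransform ZeroAtInfty

namespace Pool.Agent.R228.GL

namespace K5Aux

open K3Aux

/-- the Fourier transform on `L²` -/
noncomputable abbrev Fo (N : ℕ) : H N ≃ₗᵢ[ℂ] H N := Lp.fourierTransformₗᵢ (E N) ℂ

lemma fo_eq {N : ℕ} (f : H N) : (𝓕 f : H N) = Fo N f := rfl

/-- the semigroup in space variables -/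
noncomputable def W {N : ℕ} (S : ℝ → H N →L[ℂ] H N) (τ : ℝ) (f : H N) : H N :=
  (Fo N).symm (S τ (Fo N f))

lemma W_ae (h2 : S_K2) {N : ℕ} {θ : ℝ} (hθ : 0 ≤ θ) (hθ' : θ < Real.pi / 2)
    {S : ℝ → H N →L[ℂ] H N}
    (hS : ∀ t, 0 ≤ t → ∀ f, ∀ᵐ ξ, (S t f) ξ =
      Complex.exp (-(zc θ * (t : ℂ) * ((aa ξ : ℝ) : ℂ))) * f ξ) {τ : ℝ} (hτ : 0 < τ) (G : H N)
    (g : E N → ℂ) (hg : ∀ᵐ x, G x = g x) :
    ∀ᵐ x, (W S τ G) x = ∫ y, ker N θ τ (x - y) * g y := by
  have hgm : MemLp g 2 (volume : Measure (E N)) := (memLp_congr_ae hg).1 (Lp.memLp G)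
  obtain ⟨F, hF1, hF2⟩ := h2 N θ τ hθ hθ' hτ g hgm
  have hGe : hgm.toLp g = G := by
    apply Lp.ext
    filter_upwards [hgm.coeFn_toLp, hg] with x h1 h2
    rw [h1, h2]
  rw [hGe] at hF1
  have hFW : F = W S τ G := by
    unfold W
    rw [LinearIsometryEquiv.eq_symm_apply, ← fo_eq, ← fo_eq]
    apply Lp.ext
    filter_upwards [hF1, hS τ hτ.le (𝓕 G)] with ξ h1 h2
    rw [h1, h2]
  rw [← hFW]
  exact hF2

lemma W_cont {N : ℕ} {S : ℝ → H N →L[ℂ] H N} (hS1 : ∀ t, 0 ≤ t → ∀ f, ‖S t f‖ ≤ ‖f‖)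
    (hS2 : ∀ f, ContinuousOn (fun t => S t f) (Ici 0)) {T t : ℝ} {Gh : ℝ → H N}
    (hG : ContinuousOn Gh (Ico 0 T)) (ht : t < T) :
    ContinuousOn (fun s => S (t - s) (Fo N (Gh s))) (Icc 0 t) := by
  intro s hs
  have hsT : s ∈ Ico 0 T := ⟨hs.1, hs.2.trans_lt ht⟩
  have h1 : Tendsto (fun r => Gh r) (𝓝[Icc 0 t] s) (𝓝 (Gh s)) :=
    ((hG s hsT).mono (fun r hr => ⟨hr.1, hr.2.trans_lt ht⟩)).tendsto
  have h2 : Tendsto (fun r => Fo N (Gh r)) (𝓝[Icc 0 t] s) (𝓝 (Fo N (Gh s))) :=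
    ((Fo N).continuous.tendsto _).comp h1
  have h3 : Tendsto (fun r => S (t - r) (Fo N (Gh s))) (𝓝[Icc 0 t] s)
      (𝓝 (S (t - s) (Fo N (Gh s)))) := by
    have h4 := (hS2 (Fo N (Gh s))) (t - s) (by rw [mem_Ici]; linarith [hs.2])
    refine h4.tendsto.comp (tendsto_nhdsWithin_iff.2 ⟨?_, ?_⟩)
    · exact ((continuous_const.sub continuous_id).tendsto s).mono_left nhdsWithin_le_nhds
    · filter_upwards [self_mem_nhdsWithin] with r hr
      rw [mem_Ici]
      linarith [hr.2]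
  have h5 := tendsto_iff_dist_tendsto_zero.1 h2
  have h6 := tendsto_iff_dist_tendsto_zero.1 h3
  refine tendsto_iff_dist_tendsto_zero.2 ?_
  refine squeeze_zero' (Filter.Eventually.of_forall fun _ => dist_nonneg) ?_
    (by simpa using h5.add h6)
  filter_upwards [self_mem_nhdsWithin] with r hr
  refine (dist_triangle _ (S (t - r) (Fo N (Gh s))) _).trans (add_le_add ?_ le_rfl)
  rw [dist_eq_norm, dist_eq_norm, ← map_sub (S (t - r))]
  have htr : 0 ≤ t - r := by linarith [hr.2]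
  refine (hS1 (t - r) htr _).trans (le_of_eq ?_)
  rw [← map_sub, LinearIsometryEquiv.norm_map]

/-- the inner integral -/
noncomputable def Ph {N : ℕ} (θ α γ t : ℝ) (u : ℝ → C₀(E N, ℂ)) (p : ℝ × E N) : ℂ :=
  ∫ y, ker N θ (t - p.1) (p.2 - y) * nl θ α γ (fun y => u p.1 y) y

lemma Ph_meas {N : ℕ} {θ α γ T t : ℝ} {u : ℝ → C₀(E N, ℂ)} (hu : ContinuousOn u (Ico 0 T))
    (ht : t < T) (B : Set (E N)) :
    AEStronglyMeasurable (Ph θ α γ t u)
      (((volume : Measure ℝ).restrict (Ioo 0 t)).prod ((volume : Measure (E N)).restrict B)) := by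
  unfold Ph
  refine AEStronglyMeasurable.integral_prod_right' (f := fun q : (ℝ × E N) × E N =>
    ker N θ (t - q.1.1) (q.1.2 - q.2) * nl θ α γ (fun y => u q.1.1 y) q.2) ?_
  refine AEMeasurable.aestronglyMeasurable (AEMeasurable.mul ?_ ?_)
  · have h : Measurable fun q : (ℝ × E N) × E N => ((t - q.1.1, q.1.2 - q.2) : ℝ × E N) := by
      fun_prop
    exact ((kerMeas N θ).comp h).aemeasurable
  · have hg : Measurable fun w : ℂ => zc θ * ((‖w‖ ^ α : ℝ) : ℂ) * w + (γ : ℂ) * w := by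
      fun_prop
    have hq : Measure.QuasiMeasurePreserving (fun q : (ℝ × E N) × E N => ((q.1.1, q.2) : ℝ × E N))
        ((((volume : Measure ℝ).restrict (Ioo 0 t)).prod
          ((volume : Measure (E N)).restrict B)).prod volume)
        (((volume : Measure ℝ).restrict (Ioo 0 t)).prod volume) := by
      exact MeasureTheory.QuasiMeasurePreserving.prodMap
        (Measure.quasiMeasurePreserving_fst (μ := (volume : Measure ℝ).restrict (Ioo 0 t))
          (ν := (volume : Measure (E N)).restrict B))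
        (Measure.QuasiMeasurePreserving.id (volume : Measure (E N)))
    have hum : AEMeasurable (fun q : (ℝ × E N) × E N => u q.1.1 q.2) ((((volume : Measure ℝ).restrict
        (Ioo 0 t)).prod ((volume : Measure (E N)).restrict B)).prod volume) :=
      (uMeas hu ht).comp_quasiMeasurePreserving hq
    exact hg.comp_aemeasurable hum

lemma Ph_bdd (h1 : S_K1) {N : ℕ} {θ α γ T t : ℝ} {u : ℝ → C₀(E N, ℂ)} (hθ : 0 ≤ θ)
    (hθ' : θ < Real.pi / 2) (hα : 0 < α) (hγ : 0 ≤ γ) (hu : ContinuousOn u (Ico 0 T))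
    (ht : t < T) : ∃ C : ℝ, ∀ s ∈ Ioo 0 t, ∀ x, ‖Ph θ α γ t u (s, x)‖ ≤ C := by
  obtain ⟨⟨c0, hc0, hK⟩, _⟩ := h1 N θ hθ hθ'
  obtain ⟨M0, hM0⟩ := isCompact_Icc.exists_bound_of_continuousOn
    (hu.mono (fun s (hs : s ∈ Icc 0 t) => (⟨hs.1, hs.2.trans_lt ht⟩ : s ∈ Ico 0 T)))
  have hM1 : ∀ s ∈ Icc 0 t, ∀ x, ‖u s x‖ ≤ max M0 0 := by
    intro s hs x
    have h1 : ‖u s x‖ ≤ ‖u s‖ := by
      rw [← ZeroAtInftyContinuousMap.norm_toBCF_eq_norm]
      exact (u s).toBCF.norm_coe_le_norm x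
    exact h1.trans ((hM0 s hs).trans (le_max_left _ _))
  have hMn : 0 ≤ max M0 0 := le_max_right _ _
  set C : ℝ := ((max M0 0) ^ α + γ) * max M0 0 with hC
  have hCn : 0 ≤ C := mul_nonneg (add_nonneg (Real.rpow_nonneg hMn _) hγ) hMn
  refine ⟨c0 * C, fun s hs x => ?_⟩
  obtain ⟨hi, hb⟩ := hK (t - s) (by linarith [hs.2])
  have hi2 : Integrable (fun y => ‖ker N θ (t - s) (x - y)‖ * C) :=
    (hi.norm.comp_sub_left x).mul_const C
  unfold Ph
  refine (norm_integral_le_of_norm_le hi2 (Filter.Eventually.of_forall fun y => ?_)).trans ?_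
  · show ‖ker N θ (t - s) (x - y) * nl θ α γ (fun y => u s y) y‖ ≤ _
    rw [norm_mul]
    refine mul_le_mul_of_nonneg_left ?_ (norm_nonneg _)
    have hs' : s ∈ Icc 0 t := ⟨hs.1.le, hs.2.le⟩
    refine (nl_le hα hγ _ _ (hM1 s hs' y)).trans ?_
    exact mul_le_mul_of_nonneg_left (hM1 s hs' y) (add_nonneg (Real.rpow_nonneg hMn _) hγ)
  · rw [integral_mul_const]
    refine mul_le_mul_of_nonneg_right ?_ hCn
    rw [integral_sub_left_eq_self (fun z => ‖ker N θ (t - s) z‖) volume x]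
    exact hb

/-- the test functional -/
lemma test_eq {N : ℕ} {B : Set (E N)} (hB : MeasurableSet B) (hBf : volume B ≠ ∞) (f : H N) :
    innerSL ℂ (indicatorConstLp 2 hB hBf (1 : ℂ)) f = ∫ x in B, f x := by
  rw [innerSL_apply_apply]
  exact L2.inner_indicatorConstLp_one hB hBf f

end K5Aux

open K3Aux K5Aux

theorem k5 (h1 : S_K1) (h2 : S_K2) : S_K5 := by
  intro N θ α γ T u0 u hθ hθ' hα hγ hT hu U Gh S hU hUc hG hGc hS hS1 hS2 t ht
  rcases eq_or_lt_of_le ht.1 with h0 | h0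
  · rw [← h0, intervalIntegral.integral_same, add_zero]
    apply Lp.ext
    filter_upwards [hS 0 le_rfl (𝓕 (U 0))] with ξ hξ
    rw [hξ]
    simp
  · have htT : t < T := ht.2
    -- the right side in space variables
    set I : H N := ∫ s in (0 : ℝ)..t, S (t - s) (Fo N (Gh s)) with hI
    have hcont := W_cont hS1 hS2 hGc htT
    have hii : IntervalIntegrable (fun s => S (t - s) (Fo N (Gh s))) volume 0 t := by
      refine ContinuousOn.intervalIntegrable ?_
      rw [uIcc_of_le h0.le]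
      exact hcont
    suffices hmain : U t = W S t (U 0) + (Fo N).symm I by
      show Fo N (U t) = S t (Fo N (U 0)) + I
      rw [hmain, map_add, W, LinearIsometryEquiv.apply_symm_apply,
        LinearIsometryEquiv.apply_symm_apply]
    obtain ⟨Cb, hCb⟩ := Ph_bdd h1 hθ hθ' hα hγ hu.cont htT
    apply Lp.ext
    refine Lp.ae_eq_of_forall_setIntegral_eq (U t) (W S t (U 0) + (Fo N).symm I) (by norm_num)
      (by norm_num) ?_ ?_ ?_
    · intro B _ hBf
      exact integrableOn_Lp_of_measure_ne_top (U t) (by norm_num) hBf.ne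
    · intro B _ hBf
      exact integrableOn_Lp_of_measure_ne_top _ (by norm_num) hBf.ne
    intro B hB hBf
    rw [← test_eq hB hBf.ne, ← test_eq hB hBf.ne, map_add]
    have e1 : innerSL ℂ (indicatorConstLp 2 hB hBf.ne (1 : ℂ)) (W S t (U 0)) =
        ∫ x in B, Tsg θ t (fun y => u0 y) x := by
      rw [test_eq]
      have hu0 : ∀ᵐ x, U 0 x = u0 x := by
        filter_upwards [hU 0 ⟨le_rfl, hT⟩] with x hx
        rw [hx, u_zero hu hT]
      have h3 := W_ae h2 hθ hθ' hS h0 (U 0) (fun y => u0 y) hu0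
      refine setIntegral_congr_ae hB ?_
      filter_upwards [h3] with x hx _
      rw [hx]
      unfold Tsg
      rw [if_neg h0.ne']
    have e2 : innerSL ℂ (indicatorConstLp 2 hB hBf.ne (1 : ℂ)) ((Fo N).symm I) =
        ∫ s in Ioo 0 t, ∫ x in B, Ph θ α γ t u (s, x) := by
      have hc := ContinuousLinearMap.intervalIntegral_comp_comm
        ((innerSL ℂ (indicatorConstLp 2 hB hBf.ne (1 : ℂ))).comp
          ((Fo N).symm.toContinuousLinearEquiv : H N →L[ℂ] H N)) hii
      have hc' : innerSL ℂ (indicatorConstLp 2 hB hBf.ne (1 : ℂ)) ((Fo N).symm I) =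
        ∫ s in (0 : ℝ)..t, innerSL ℂ (indicatorConstLp 2 hB hBf.ne (1 : ℂ))
          ((Fo N).symm (S (t - s) (Fo N (Gh s)))) := hc.symm
      rw [hc', intervalIntegral.integral_of_le h0.le, integral_Ioc_eq_integral_Ioo]
      refine setIntegral_congr_fun measurableSet_Ioo fun s hs => ?_
      show innerSL ℂ (indicatorConstLp 2 hB hBf.ne (1 : ℂ))
          ((Fo N).symm (S (t - s) (Fo N (Gh s)))) = ∫ x in B, Ph θ α γ t u (s, x)
      rw [test_eq]
      have h3 := W_ae h2 hθ hθ' hS (by linarith [hs.2] : 0 < t - s) (Gh s)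
        (fun x => nl θ α γ (fun y => u s y) x) (hG s ⟨hs.1.le, hs.2.trans htT⟩)
      refine setIntegral_congr_ae hB ?_
      filter_upwards [h3] with x hx _
      exact hx
    have hBfin : IsFiniteMeasure ((volume : Measure (E N)).restrict B) :=
      ⟨by rw [Measure.restrict_apply_univ]; exact hBf⟩
    have hPint : Integrable (fun p : ℝ × E N => Ph θ α γ t u p)
        (((volume : Measure ℝ).restrict (Ioo 0 t)).prod ((volume : Measure (E N)).restrict B)) := by
      have : IsFiniteMeasure ((volume : Measure ℝ).restrict (Ioo 0 t)) := inferInstance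
      refine Integrable.of_bound (Ph_meas hu.cont htT B) Cb ?_
      have hm : ∀ᵐ s ∂((volume : Measure ℝ).restrict (Ioo 0 t)), s ∈ Ioo 0 t :=
        ae_restrict_mem measurableSet_Ioo
      have hm2 : ∀ᵐ p ∂(((volume : Measure ℝ).restrict (Ioo 0 t)).prod
          ((volume : Measure (E N)).restrict B)), p.1 ∈ Ioo 0 t :=
        Measure.quasiMeasurePreserving_fst.ae hm
      filter_upwards [hm2] with p hp
      exact hCb p.1 hp p.2
    have e3 : ∫ s in Ioo 0 t, ∫ x in B, Ph θ α γ t u (s, x) =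
        ∫ x in B, ∫ s in Ioo 0 t, Ph θ α γ t u (s, x) :=
      integral_integral_swap (f := fun s x => Ph θ α γ t u (s, x)) hPint
    have e4 : ∀ x, ∫ s in Ioo 0 t, Ph θ α γ t u (s, x) =
        ∫ s in (0 : ℝ)..t, Tsg θ (t - s) (nl θ α γ (fun y => u s y)) x := by
      intro x
      rw [intervalIntegral.integral_of_le h0.le, integral_Ioc_eq_integral_Ioo]
      refine setIntegral_congr_fun measurableSet_Ioo fun s hs => ?_
      show Ph θ α γ t u (s, x) = Tsg θ (t - s) (nl θ α γ (fun y => u s y)) x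
      unfold Tsg
      rw [if_neg (by have := hs.2; linarith : ¬ t - s = 0)]
      rfl
    rw [e1, e2, e3]
    have i2 : IntegrableOn (fun x => ∫ s in Ioo 0 t, Ph θ α γ t u (s, x)) B :=
      hPint.integral_prod_right
    have hUt : ∀ᵐ x, (U t) x = Tsg θ t (fun y => u0 y) x +
        ∫ s in Ioo 0 t, Ph θ α γ t u (s, x) := by
      filter_upwards [hU t ht] with x hx
      rw [hx, hu.eq t ht x, e4]
    have iU : IntegrableOn (fun x => (U t) x) B :=
      integrableOn_Lp_of_measure_ne_top (U t) (by norm_num) hBf.ne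
    have i1 : IntegrableOn (fun x => Tsg θ t (fun y => u0 y) x) B := by
      refine (iU.sub i2).congr ?_
      filter_upwards [ae_restrict_of_ae hUt] with x hx
      show (U t) x - ∫ s in Ioo 0 t, Ph θ α γ t u (s, x) = _
      rw [hx]
      ring
    rw [test_eq, ← integral_add i1 i2]
    exact setIntegral_congr_ae hB (by filter_upwards [hUt] with x hx _ using hx)

end Pool.Agent.R228.GL
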