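import Pool.Agent.R228.GL.Stm

/-!
# GL-K6: the truncated differential equation
-/

namespace Pool.Agent.R228.GL

open MeasureTheory Filter Set
open scoped ENNReal Topology FourierTransform ZeroAtInfty

namespace K6

variable {N : ℕ}

theorem norm_zc (θ : ℝ) : ‖zc θ‖ = 1 := by
  unfold zc
  exact Complex.norm_exp_ofReal_mul_I θ

theorem aa_nonneg (ξ : E N) : 0 ≤ aa ξ := by
  unfold aa
  positivity

theorem est1 (θ : ℝ) (P A : ℕ → H N →L[ℂ] H N) (S : ℝ → H N →L[ℂ] H N)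
    (hP : ∀ n f, ∀ᵐ ξ, (P n f) ξ = if aa ξ ≤ n then f ξ else 0)
    (hA : ∀ n f, ∀ᵐ ξ, (A n f) ξ = if aa ξ ≤ n then ((aa ξ : ℝ) : ℂ) * f ξ else 0)
    (hS : ∀ t, 0 ≤ t → ∀ f, ∀ᵐ ξ, (S t f) ξ =
      Complex.exp (-(zc θ * (t : ℂ) * ((aa ξ : ℝ) : ℂ))) * f ξ)
    (n : ℕ) (h : ℝ) (h0 : 0 ≤ h) (h1 : h * n ≤ 1) (f : H N) :
    ‖P n (S h f) - P n f + h • (zc θ • A n f)‖ ≤ (h * n) ^ 2 * ‖f‖ := by
  refine Lp.norm_le_mul_norm_of_ae_le_mul ?_
  filter_upwards [Lp.coeFn_add (P n (S h f) - P n f) (h • (zc θ • A n f)),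
    Lp.coeFn_sub (P n (S h f)) (P n f), Lp.coeFn_smul h (zc θ • A n f),
    Lp.coeFn_smul (zc θ) (A n f), hP n (S h f), hP n f, hA n f, hS h h0 f] with
    ξ e1 e2 e3 e4 e5 e6 e7 e8
  rw [e1, Pi.add_apply, e2, Pi.sub_apply, e3, Pi.smul_apply, e4, Pi.smul_apply, e5, e6, e7, e8]
  by_cases hc : aa ξ ≤ n
  · simp only [hc, if_true]
    have h3 : ‖-(zc θ * (h : ℂ) * ((aa ξ : ℝ) : ℂ))‖ ≤ h * n := by
      rw [norm_neg, norm_mul, norm_mul, norm_zc, one_mul, Complex.norm_real, Complex.norm_real,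
        Real.norm_of_nonneg h0, Real.norm_of_nonneg (aa_nonneg ξ)]
      exact mul_le_mul_of_nonneg_left hc h0
    have h2 := Complex.norm_exp_sub_one_sub_id_le
      (x := -(zc θ * (h : ℂ) * ((aa ξ : ℝ) : ℂ))) (h3.trans h1)
    have e : Complex.exp (-(zc θ * (h : ℂ) * ((aa ξ : ℝ) : ℂ))) * f ξ - f ξ +
        h • (zc θ • (((aa ξ : ℝ) : ℂ) * f ξ)) =
        (Complex.exp (-(zc θ * (h : ℂ) * ((aa ξ : ℝ) : ℂ))) - 1 -
          (-(zc θ * (h : ℂ) * ((aa ξ : ℝ) : ℂ)))) * f ξ := by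
      simp only [smul_eq_mul, Complex.real_smul]
      ring
    rw [e, norm_mul]
    refine mul_le_mul_of_nonneg_right (h2.trans ?_) (norm_nonneg _)
    exact pow_le_pow_left₀ (norm_nonneg _) h3 2
  · simp only [hc, if_false, sub_zero, smul_zero, add_zero, norm_zero]
    positivity

theorem semi (θ : ℝ) (S : ℝ → H N →L[ℂ] H N)
    (hS : ∀ t, 0 ≤ t → ∀ f, ∀ᵐ ξ, (S t f) ξ =
      Complex.exp (-(zc θ * (t : ℂ) * ((aa ξ : ℝ) : ℂ))) * f ξ)
    (a b : ℝ) (ha : 0 ≤ a) (hb : 0 ≤ b) (f : H N) : S a (S b f) = S (a + b) f := by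
  refine Lp.ext ?_
  filter_upwards [hS a ha (S b f), hS b hb f, hS (a + b) (by positivity) f] with ξ e1 e2 e3
  rw [e1, e2, e3, ← mul_assoc, ← Complex.exp_add]
  congr 2
  push_cast
  ring

section abs

variable {G : Type*} [NormedAddCommGroup G] [NormedSpace ℝ G] [CompleteSpace G]

theorem joint (S : ℝ → G →L[ℝ] G) (hSn : ∀ t, 0 ≤ t → ∀ f, ‖S t f‖ ≤ ‖f‖)
    (hSc : ∀ f, ContinuousOn (fun t => S t f) (Ici 0)) (g : ℝ → G) (K : Set ℝ) (t : ℝ)
    (hK : ∀ r ∈ K, r ≤ t) (hg : ContinuousOn g K) :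
    ContinuousOn (fun r => S (t - r) (g r)) K := by
  intro r0 hr0
  have h1 : ContinuousWithinAt (fun r => S (t - r) (g r0)) K r0 := by
    have h := (hSc (g r0)) (t - r0) (sub_nonneg.2 (hK r0 hr0))
    exact ContinuousWithinAt.comp (t := Ici (0 : ℝ)) (f := fun r : ℝ => t - r) h
      ((continuous_const.sub continuous_id).continuousWithinAt)
      (fun r hr => sub_nonneg.2 (hK r hr))
  have h2 : Tendsto (fun r => S (t - r) (g r - g r0)) (𝓝[K] r0) (𝓝 0) := by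
    refine squeeze_zero_norm' (a := fun r => ‖g r - g r0‖) ?_ ?_
    · filter_upwards [self_mem_nhdsWithin] with r hr using hSn _ (sub_nonneg.2 (hK r hr)) _
    · exact tendsto_iff_norm_sub_tendsto_zero.1 (hg r0 hr0)
  have h3 := h2.add h1
  rw [zero_add] at h3
  refine h3.congr fun r => ?_
  rw [map_sub, sub_add_cancel]

theorem star (T : ℝ) (S : ℝ → G →L[ℝ] G) (V Gh : ℝ → G)
    (hSn : ∀ t, 0 ≤ t → ∀ f, ‖S t f‖ ≤ ‖f‖) (hSc : ∀ f, ContinuousOn (fun t => S t f) (Ici 0))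
    (hse : ∀ a b, 0 ≤ a → 0 ≤ b → ∀ f, S a (S b f) = S (a + b) f)
    (hGc : ContinuousOn Gh (Ico 0 T))
    (hV : ∀ t ∈ Ico 0 T, V t = S t (V 0) + ∫ s in (0 : ℝ)..t, S (t - s) (Gh s))
    (s u : ℝ) (hs : 0 ≤ s) (hsu : s ≤ u) (hu : u < T) :
    V u = S (u - s) (V s) + ∫ r in s..u, S (u - r) (Gh r) := by
  have hGs : ContinuousOn Gh (Icc 0 u) := hGc.mono fun r hr => ⟨hr.1, lt_of_le_of_lt hr.2 hu⟩
  have hcu : ContinuousOn (fun r => S (u - r) (Gh r)) (Icc 0 u) :=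
    joint S hSn hSc Gh (Icc 0 u) u (fun r hr => hr.2) hGs
  have hcs : ContinuousOn (fun r => S (s - r) (Gh r)) (Icc 0 s) :=
    joint S hSn hSc Gh (Icc 0 s) s (fun r hr => hr.2)
      (hGs.mono (Icc_subset_Icc_right hsu))
  have i1 : IntervalIntegrable (fun r => S (s - r) (Gh r)) volume 0 s := by
    refine ContinuousOn.intervalIntegrable ?_
    rwa [uIcc_of_le hs]
  have i2 : IntervalIntegrable (fun r => S (u - r) (Gh r)) volume 0 s := by
    refine ContinuousOn.intervalIntegrable ?_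
    rw [uIcc_of_le hs]
    exact hcu.mono (Icc_subset_Icc_right hsu)
  have i3 : IntervalIntegrable (fun r => S (u - r) (Gh r)) volume s u := by
    refine ContinuousOn.intervalIntegrable ?_
    rw [uIcc_of_le hsu]
    exact hcu.mono (Icc_subset_Icc_left hs)
  have hcomm : S (u - s) (∫ r in (0 : ℝ)..s, S (s - r) (Gh r)) =
      ∫ r in (0 : ℝ)..s, S (u - r) (Gh r) := by
    rw [← ContinuousLinearMap.intervalIntegral_comp_comm (S (u - s)) i1]
    refine intervalIntegral.integral_congr fun r hr => ?_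
    rw [uIcc_of_le hs] at hr
    have e := hse (u - s) (s - r) (sub_nonneg.2 hsu) (sub_nonneg.2 hr.2) (Gh r)
    rw [sub_add_sub_cancel] at e
    exact e
  have e2 := hse (u - s) s (sub_nonneg.2 hsu) hs (V 0)
  rw [sub_add_cancel] at e2
  rw [hV u ⟨hs.trans hsu, hu⟩, hV s ⟨hs, lt_of_le_of_lt hsu hu⟩, map_add, hcomm,
    e2, add_assoc, intervalIntegral.integral_add_adjacent_intervals i2 i3]

theorem key (T m : ℝ) (hm : 0 ≤ m) (S : ℝ → G →L[ℝ] G) (P B : G →L[ℝ] G) (V Gh : ℝ → G)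
    (hSn : ∀ t, 0 ≤ t → ∀ f, ‖S t f‖ ≤ ‖f‖) (hSc : ∀ f, ContinuousOn (fun t => S t f) (Ici 0))
    (hse : ∀ a b, 0 ≤ a → 0 ≤ b → ∀ f, S a (S b f) = S (a + b) f)
    (est : ∀ h, 0 ≤ h → h * m ≤ 1 → ∀ f, ‖P (S h f) - P f + h • B f‖ ≤ (h * m) ^ 2 * ‖f‖)
    (hGc : ContinuousOn Gh (Ico 0 T))
    (hV : ∀ t ∈ Ico 0 T, V t = S t (V 0) + ∫ s in (0 : ℝ)..t, S (t - s) (Gh s))
    (t s u : ℝ) (hs : 0 ≤ s) (hsu : s ≤ u) (hu : u < T) (hn : (u - s) * m ≤ 1)
    (η : ℝ) (hVη : ‖V s - V t‖ ≤ η) (hGη : ∀ r ∈ Icc s u, ‖Gh r - Gh t‖ ≤ η) :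
    ‖P (V u) - P (V s) - (u - s) • (-(B (V t)) + P (Gh t))‖ ≤
      (u - s) * ((u - s) * m ^ 2 * ‖V s‖ +
        (‖B‖ + ‖P‖) * η + ((u - s) * m) ^ 2 * ‖Gh t‖ + (u - s) * ‖B‖ * ‖Gh t‖) := by
  have hh : 0 ≤ u - s := sub_nonneg.2 hsu
  have hGs : ContinuousOn Gh (Icc s u) :=
    hGc.mono fun r hr => ⟨hs.trans hr.1, lt_of_le_of_lt hr.2 hu⟩
  have hcu : ContinuousOn (fun r => S (u - r) (Gh r)) (Icc s u) :=
    joint S hSn hSc Gh (Icc s u) u (fun r hr => hr.2) hGs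
  have i3 : IntervalIntegrable (fun r => S (u - r) (Gh r)) volume s u := by
    refine ContinuousOn.intervalIntegrable ?_
    rwa [uIcc_of_le hsu]
  have i4 : IntervalIntegrable (fun r => P (S (u - r) (Gh r))) volume s u := by
    refine ContinuousOn.intervalIntegrable ?_
    rw [uIcc_of_le hsu]
    exact P.continuous.comp_continuousOn hcu
  have hint : P (∫ r in s..u, S (u - r) (Gh r)) - (u - s) • P (Gh t) =
      ∫ r in s..u, (P (S (u - r) (Gh r)) - P (Gh t)) := by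
    rw [intervalIntegral.integral_sub i4 intervalIntegrable_const,
      intervalIntegral.integral_const, ContinuousLinearMap.intervalIntegral_comp_comm P i3]
  have hdec : P (V u) - P (V s) - (u - s) • (-(B (V t)) + P (Gh t)) =
      (P (S (u - s) (V s)) - P (V s) + (u - s) • B (V s)) - (u - s) • B (V s - V t) +
      ∫ r in s..u, (P (S (u - r) (Gh r)) - P (Gh t)) := by
    have e0 : P (V u) = P (S (u - s) (V s)) + P (∫ r in s..u, S (u - r) (Gh r)) := by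
      rw [← map_add, ← star T S V Gh hSn hSc hse hGc hV s u hs hsu hu]
    rw [← hint, e0, map_sub, smul_sub, smul_add, smul_neg]
    abel
  have b1 := est (u - s) hh hn (V s)
  have b2 : ‖(u - s) • B (V s - V t)‖ ≤ (u - s) * (‖B‖ * η) := by
    rw [norm_smul, Real.norm_of_nonneg hh]
    refine mul_le_mul_of_nonneg_left ?_ hh
    exact (B.le_opNorm _).trans (mul_le_mul_of_nonneg_left hVη (norm_nonneg _))
  have b3 : ‖∫ r in s..u, (P (S (u - r) (Gh r)) - P (Gh t))‖ ≤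
      (‖P‖ * η + (((u - s) * m) ^ 2 * ‖Gh t‖ + (u - s) * ‖B‖ * ‖Gh t‖)) * |u - s| := by
    refine intervalIntegral.norm_integral_le_of_norm_le_const fun r hr => ?_
    rw [uIoc_of_le hsu] at hr
    have hτ0 : 0 ≤ u - r := sub_nonneg.2 hr.2
    have hτ1 : u - r ≤ u - s := by linarith [hr.1]
    have hτn : (u - r) * m ≤ 1 := (mul_le_mul_of_nonneg_right hτ1 hm).trans hn
    have c1 := est (u - r) hτ0 hτn (Gh t)
    have c2 : ‖(u - r) • B (Gh t)‖ ≤ (u - s) * ‖B‖ * ‖Gh t‖ := by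
      rw [norm_smul, Real.norm_of_nonneg hτ0, mul_assoc]
      exact mul_le_mul hτ1 (B.le_opNorm _) (norm_nonneg _) hh
    have c3 : ‖P (S (u - r) (Gh r - Gh t))‖ ≤ ‖P‖ * η :=
      (P.le_opNorm _).trans (mul_le_mul_of_nonneg_left
        ((hSn _ hτ0 _).trans (hGη r ⟨hr.1.le, hr.2⟩)) (norm_nonneg _))
    have c4 : ((u - r) * m) ^ 2 * ‖Gh t‖ ≤ ((u - s) * m) ^ 2 * ‖Gh t‖ := by
      refine mul_le_mul_of_nonneg_right ?_ (norm_nonneg _)
      refine pow_le_pow_left₀ (mul_nonneg hτ0 hm) ?_ 2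
      exact mul_le_mul_of_nonneg_right hτ1 hm
    have hd : P (S (u - r) (Gh r)) - P (Gh t) = P (S (u - r) (Gh r - Gh t)) +
        ((P (S (u - r) (Gh t)) - P (Gh t) + (u - r) • B (Gh t)) - (u - r) • B (Gh t)) := by
      rw [map_sub, map_sub]
      abel
    rw [hd]
    refine (norm_add_le _ _).trans (add_le_add c3 ((norm_sub_le _ _).trans ?_))
    exact add_le_add (c1.trans c4) c2
  rw [hdec]
  refine (norm_add_le _ _).trans ?_
  refine (add_le_add ((norm_sub_le _ _).trans (add_le_add b1 b2)) b3).trans (le_of_eq ?_)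
  rw [abs_of_nonneg hh]
  ring

theorem abstract_k6 (T m : ℝ) (hm : 0 ≤ m) (S : ℝ → G →L[ℝ] G) (P B : G →L[ℝ] G)
    (V Gh : ℝ → G)
    (hSn : ∀ t, 0 ≤ t → ∀ f, ‖S t f‖ ≤ ‖f‖) (hSc : ∀ f, ContinuousOn (fun t => S t f) (Ici 0))
    (hse : ∀ a b, 0 ≤ a → 0 ≤ b → ∀ f, S a (S b f) = S (a + b) f)
    (est : ∀ h, 0 ≤ h → h * m ≤ 1 → ∀ f, ‖P (S h f) - P f + h • B f‖ ≤ (h * m) ^ 2 * ‖f‖)
    (hVc : ContinuousOn V (Ico 0 T)) (hGc : ContinuousOn Gh (Ico 0 T))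
    (hV : ∀ t ∈ Ico 0 T, V t = S t (V 0) + ∫ s in (0 : ℝ)..t, S (t - s) (Gh s))
    (t : ℝ) (ht : t ∈ Ioo 0 T) :
    HasDerivAt (fun s => P (V s)) (-(B (V t)) + P (Gh t)) t := by
  have key := fun s u hs hsu hu hn η hVη hGη =>
    key T m hm S P B V Gh hSn hSc hse est hGc hV t s u hs hsu hu hn η hVη hGη
  generalize -(B (V t)) + P (Gh t) = L at key ⊢
  rw [hasDerivAt_iff_isLittleO, Asymptotics.isLittleO_iff]
  intro ε hε
  have hVt : ContinuousAt V t := hVc.continuousAt (Ico_mem_nhds ht.1 ht.2)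
  have hGt : ContinuousAt Gh t := hGc.continuousAt (Ico_mem_nhds ht.1 ht.2)
  set Q : ℝ := ‖B‖ + ‖P‖ + 1 with hQ
  have hQ0 : 0 < Q := by positivity
  set η : ℝ := min 1 (ε / (2 * Q)) with hη
  have hη0 : 0 < η := lt_min one_pos (by positivity)
  have hη1 : η ≤ 1 := min_le_left _ _
  have hη2 : (‖B‖ + ‖P‖) * η ≤ ε / 2 := by
    have h1 : η ≤ ε / (2 * Q) := min_le_right _ _
    calc (‖B‖ + ‖P‖) * η ≤ Q * (ε / (2 * Q)) :=
          mul_le_mul (by linarith) h1 hη0.le hQ0.le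
      _ = ε / 2 := by field_simp
  obtain ⟨δ1, hδ1, hV1⟩ := Metric.continuousAt_iff.1 hVt η hη0
  obtain ⟨δ2, hδ2, hG1⟩ := Metric.continuousAt_iff.1 hGt η hη0
  have hlim : Tendsto (fun x : ℝ => |x - t| * m ^ 2 * (‖V t‖ + 1) + (|x - t| * m) ^ 2 * ‖Gh t‖ +
      |x - t| * ‖B‖ * ‖Gh t‖) (𝓝 t) (𝓝 0) := by
    have hc : Continuous (fun x : ℝ => |x - t| * m ^ 2 * (‖V t‖ + 1) +
      (|x - t| * m) ^ 2 * ‖Gh t‖ + |x - t| * ‖B‖ * ‖Gh t‖) := by fun_prop
    have h := hc.tendsto t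
    rw [sub_self, abs_zero] at h
    refine h.trans (le_of_eq ?_)
    congr 1
    ring
  have hlim2 : Tendsto (fun x : ℝ => |x - t| * m) (𝓝 t) (𝓝 0) := by
    have hc : Continuous (fun x : ℝ => |x - t| * m) := by fun_prop
    have h := hc.tendsto t
    rw [sub_self, abs_zero, zero_mul] at h
    exact h
  filter_upwards [hlim.eventually (gt_mem_nhds (half_pos hε)),
    hlim2.eventually (gt_mem_nhds one_pos), Metric.ball_mem_nhds t hδ1, Metric.ball_mem_nhds t hδ2,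
    Ioo_mem_nhds ht.1 ht.2] with x hx1 hx2 hx3 hx4 hx5
  have hGb : ∀ r, |r - t| ≤ |x - t| → ‖Gh r - Gh t‖ ≤ η := by
    intro r hr
    rw [← dist_eq_norm]
    refine (hG1 ?_).le
    rw [Real.dist_eq]
    refine lt_of_le_of_lt hr ?_
    rwa [Metric.mem_ball, Real.dist_eq] at hx4
  have hVb : ‖V x - V t‖ ≤ η := by
    rw [← dist_eq_norm]
    exact (hV1 hx3).le
  have hVb' : ‖V x‖ ≤ ‖V t‖ + 1 := by
    have := norm_le_norm_add_norm_sub' (V x) (V t)
    linarith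
  have fin : ∀ s : ℝ, ‖V s‖ ≤ ‖V t‖ + 1 →
      |x - t| * m ^ 2 * ‖V s‖ + (‖B‖ + ‖P‖) * η + (|x - t| * m) ^ 2 * ‖Gh t‖ +
        |x - t| * ‖B‖ * ‖Gh t‖ ≤ ε := by
    intro s hs
    have : |x - t| * m ^ 2 * ‖V s‖ ≤ |x - t| * m ^ 2 * (‖V t‖ + 1) :=
      mul_le_mul_of_nonneg_left hs (by positivity)
    linarith
  rcases le_total t x with hle | hle
  · have hab : |x - t| = x - t := abs_of_nonneg (by linarith)
    have k := key t x ht.1.le hle hx5.2 (by rw [← hab]; exact hx2.le) η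
      (by rw [sub_self, norm_zero]; exact hη0.le)
      (fun r hr => hGb r (by
        rw [abs_of_nonneg (by linarith [hr.1]), hab]
        linarith [hr.2]))
    refine k.trans ?_
    have f := fin t (by linarith)
    rw [Real.norm_eq_abs, hab, mul_comm ε]
    rw [hab] at f
    exact mul_le_mul_of_nonneg_left f (by linarith)
  · have hab : |x - t| = t - x := by rw [abs_of_nonpos (by linarith)]; ring
    have k := key x t hx5.1.le hle ht.2 (by rw [← hab]; exact hx2.le) η hVb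
      (fun r hr => hGb r (by
        rw [abs_of_nonpos (by linarith [hr.2]), hab]
        linarith [hr.1]))
    have e : P (V x) - P (V t) - (x - t) • L = -(P (V t) - P (V x) - (t - x) • L) := by
      rw [← neg_sub t x, neg_smul]
      abel
    rw [e, norm_neg]
    refine k.trans ?_
    have f := fin x hVb'
    rw [Real.norm_eq_abs, hab, mul_comm ε]
    rw [hab] at f
    exact mul_le_mul_of_nonneg_left f (by linarith)

end abs

end K6

theorem k6 : S_K6 := by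
  intro N θ T hθ hθ' hT P A S V Gh hP hA hS hSn hSc hVc hGc hV n t ht
  exact K6.abstract_k6 T n (Nat.cast_nonneg n) (fun t => (S t).restrictScalars ℝ)
    ((P n).restrictScalars ℝ) ((zc θ • A n).restrictScalars ℝ) V Gh hSn hSc
    (K6.semi θ S hS) (fun h h0 h1 f => K6.est1 θ P A S hP hA hS n h h0 h1 f) hVc hGc hV t ht

end Pool.Agent.R228.GL
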