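import Pool.Agent.R228.GL.Stm

/-!
# Complex Ginzburg-Landau equation: sup norm bound up to time `K/γ`
-/

namespace Pool.Agent.R228.GL

open MeasureTheory Filter Set
open scoped ENNReal Topology FourierTransform ZeroAtInfty

namespace K8

/-- Gronwall's inequality in integral form -/
theorem gron (φ : ℝ → ℝ) (t A L : ℝ) (ht : 0 ≤ t) (hL : 0 ≤ L) (hc : ContinuousOn φ (Icc 0 t))
    (h : ∀ τ ∈ Icc (0 : ℝ) t, φ τ ≤ A + L * ∫ s in (0 : ℝ)..τ, φ s) :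
    φ t ≤ A * Real.exp (L * t) := by
  let ψ : ℝ → ℝ := fun s => φ (max 0 (min s t))
  have hψ : Continuous ψ := hc.comp_continuous (by fun_prop)
    (fun s => ⟨le_max_left _ _, max_le ht (min_le_right _ _)⟩)
  have hψe : ∀ s ∈ Icc (0 : ℝ) t, ψ s = φ s := by
    intro s hs
    simp only [ψ]
    rw [min_eq_left hs.2, max_eq_right hs.1]
  have hint : ∀ τ ∈ Icc (0 : ℝ) t, ∫ s in (0 : ℝ)..τ, φ s = ∫ s in (0 : ℝ)..τ, ψ s := by
    intro τ hτ
    apply intervalIntegral.integral_congr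
    intro s hs
    rw [uIcc_of_le hτ.1] at hs
    exact (hψe s ⟨hs.1, hs.2.trans hτ.2⟩).symm
  let F : ℝ → ℝ := fun τ => A + L * ∫ s in (0 : ℝ)..τ, ψ s
  have hF : ∀ τ, HasDerivAt F (L * ψ τ) τ := by
    intro τ
    have h1 := (hψ.integral_hasStrictDerivAt 0 τ).hasDerivAt
    exact (h1.const_mul L).const_add A
  have hE : ∀ τ, HasDerivAt (fun τ : ℝ => Real.exp (-(L * τ)))
      (Real.exp (-(L * τ)) * (-L)) τ := by
    intro τ
    have h1 : HasDerivAt (fun τ : ℝ => -(L * τ)) (-L) τ := by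
      have h2 := (hasDerivAt_id τ).const_mul (-L)
      rw [mul_one] at h2
      refine h2.congr_of_eventuallyEq (Eventually.of_forall fun s => ?_)
      simp
    exact h1.exp
  let G : ℝ → ℝ := fun τ => F τ * Real.exp (-(L * τ))
  have hG : ∀ τ, HasDerivAt G (L * ψ τ * Real.exp (-(L * τ)) +
      F τ * (Real.exp (-(L * τ)) * (-L))) τ := fun τ => (hF τ).mul (hE τ)
  have hφF : ∀ τ ∈ Icc (0 : ℝ) t, ψ τ ≤ F τ := by
    intro τ hτ
    rw [hψe τ hτ]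
    have h1 := h τ hτ
    rw [hint τ hτ] at h1
    exact h1
  have hanti : AntitoneOn G (Icc 0 t) := by
    apply antitoneOn_of_deriv_nonpos (convex_Icc 0 t)
    · exact (continuous_iff_continuousAt.2 fun τ => (hG τ).continuousAt).continuousOn
    · exact fun τ _ => (hG τ).differentiableAt.differentiableWithinAt
    · intro τ hτ
      rw [interior_Icc] at hτ
      rw [(hG τ).deriv]
      have h1 := hφF τ ⟨hτ.1.le, hτ.2.le⟩
      have h2 := Real.exp_pos (-(L * τ))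
      have h3 : L * ψ τ * Real.exp (-(L * τ)) + F τ * (Real.exp (-(L * τ)) * (-L)) =
          -(L * Real.exp (-(L * τ)) * (F τ - ψ τ)) := by ring
      rw [h3]
      have h4 : 0 ≤ L * Real.exp (-(L * τ)) * (F τ - ψ τ) :=
        mul_nonneg (mul_nonneg hL h2.le) (sub_nonneg.2 h1)
      linarith
  have h1 : G t ≤ G 0 := hanti ⟨le_rfl, ht⟩ ⟨ht, le_rfl⟩ ht
  have h2 : G 0 = A := by simp [G, F]
  rw [h2] at h1
  have h3 : F t = G t * Real.exp (L * t) := by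
    simp only [G]
    rw [mul_assoc, ← Real.exp_add, neg_add_cancel, Real.exp_zero, mul_one]
  calc φ t = ψ t := (hψe t ⟨ht, le_rfl⟩).symm
    _ ≤ F t := hφF t ⟨ht, le_rfl⟩
    _ = G t * Real.exp (L * t) := h3
    _ ≤ A * Real.exp (L * t) := mul_le_mul_of_nonneg_right h1 (Real.exp_pos _).le

theorem le_norm {N : ℕ} (f : C₀(E N, ℂ)) (x : E N) : ‖f x‖ ≤ ‖f‖ := by
  rw [← ZeroAtInftyContinuousMap.norm_toBCF_eq_norm]
  exact f.toBCF.norm_coe_le_norm x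

theorem norm_le {N : ℕ} (f : C₀(E N, ℂ)) (C : ℝ) (hC : 0 ≤ C) (h : ∀ x, ‖f x‖ ≤ C) :
    ‖f‖ ≤ C := by
  rw [← ZeroAtInftyContinuousMap.norm_toBCF_eq_norm]
  exact (BoundedContinuousFunction.norm_le hC).2 h

theorem tsg_le {N : ℕ} {θ c0 : ℝ} (hc : 1 ≤ c0)
    (h : ∀ t : ℝ, 0 < t → Integrable (ker N θ t) ∧ ∫ x, ‖ker N θ t x‖ ≤ c0) (t : ℝ) (ht : 0 ≤ t)
    (f : E N → ℂ) (F : ℝ) (hF : ∀ y, ‖f y‖ ≤ F) (x : E N) : ‖Tsg θ t f x‖ ≤ c0 * F := by
  have hF0 : 0 ≤ F := (norm_nonneg _).trans (hF x)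
  unfold Tsg
  split_ifs with h0
  · calc ‖f x‖ ≤ F := hF x
      _ ≤ c0 * F := by nlinarith
  · have htp : 0 < t := lt_of_le_of_ne ht (Ne.symm h0)
    obtain ⟨hi, hb⟩ := h t htp
    calc ‖∫ y, ker N θ t (x - y) * f y‖ ≤ ∫ y, ‖ker N θ t (x - y) * f y‖ :=
          norm_integral_le_integral_norm _
      _ ≤ ∫ y, ‖ker N θ t (x - y)‖ * F := by
        apply integral_mono_of_nonneg
        · exact ae_of_all _ fun y => norm_nonneg _
        · exact (hi.norm.comp_sub_left x).mul_const F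
        · exact ae_of_all _ fun y => by
            simp only [norm_mul]
            exact mul_le_mul_of_nonneg_left (hF y) (norm_nonneg _)
      _ = (∫ y, ‖ker N θ t (x - y)‖) * F := integral_mul_const _ _
      _ = (∫ y, ‖ker N θ t y‖) * F := by
          rw [integral_sub_left_eq_self (fun y => ‖ker N θ t y‖) volume x]
      _ ≤ c0 * F := mul_le_mul_of_nonneg_right hb hF0

theorem nl_le {N : ℕ} {θ α γ : ℝ} (hα : 0 < α) (hγ : 0 ≤ γ) (f : E N → ℂ) (F : ℝ)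
    (hF : ∀ y, ‖f y‖ ≤ F) (y : E N) : ‖nl θ α γ f y‖ ≤ F ^ α * F + γ * F := by
  have hF0 : 0 ≤ F := (norm_nonneg _).trans (hF y)
  have hz : ‖zc θ‖ = 1 := by
    unfold zc
    exact Complex.norm_exp_ofReal_mul_I θ
  have h1 : ‖f y‖ ^ α ≤ F ^ α := Real.rpow_le_rpow (norm_nonneg _) (hF y) hα.le
  have h0 : 0 ≤ ‖f y‖ ^ α := Real.rpow_nonneg (norm_nonneg _) _
  unfold nl
  calc ‖zc θ * ((‖f y‖ ^ α : ℝ) : ℂ) * f y + (γ : ℂ) * f y‖
      ≤ ‖zc θ * ((‖f y‖ ^ α : ℝ) : ℂ) * f y‖ + ‖(γ : ℂ) * f y‖ := norm_add_le _ _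
    _ = ‖f y‖ ^ α * ‖f y‖ + γ * ‖f y‖ := by
        rw [norm_mul, norm_mul, norm_mul, hz, one_mul, Complex.norm_real, Complex.norm_real,
          Real.norm_of_nonneg h0, Real.norm_of_nonneg hγ]
    _ ≤ F ^ α * F + γ * F := by
        apply add_le_add
        · exact mul_le_mul h1 (hF y) (norm_nonneg _) (h0.trans h1)
        · exact mul_le_mul_of_nonneg_left (hF y) hγ

theorem cont_g {N : ℕ} {α γ T c0 : ℝ} {u : ℝ → C₀(E N, ℂ)} (hα : 0 < α)
    (hu : ContinuousOn u (Ico 0 T)) :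
    ContinuousOn (fun s => c0 * (‖u s‖ ^ α * ‖u s‖ + γ * ‖u s‖)) (Ico 0 T) := by
  have h1 : ContinuousOn (fun s => ‖u s‖) (Ico 0 T) := hu.norm
  have h2 : ContinuousOn (fun s => ‖u s‖ ^ α) (Ico 0 T) :=
    h1.rpow_const fun s _ => Or.inr hα.le
  exact continuousOn_const.mul ((h2.mul h1).add (continuousOn_const.mul h1))

theorem key {N : ℕ} {θ α γ T c0 : ℝ} {u0 : C₀(E N, ℂ)} {u : ℝ → C₀(E N, ℂ)} (hα : 0 < α)
    (hγ : 0 ≤ γ) (hc : 1 ≤ c0)
    (h : ∀ t : ℝ, 0 < t → Integrable (ker N θ t) ∧ ∫ x, ‖ker N θ t x‖ ≤ c0)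
    (hu : IsMild θ α γ T u0 u) (τ : ℝ) (h0 : 0 ≤ τ) (hT : τ < T) :
    ‖u τ‖ ≤ c0 * ‖u0‖ + ∫ s in (0 : ℝ)..τ, c0 * (‖u s‖ ^ α * ‖u s‖ + γ * ‖u s‖) := by
  have hg : IntervalIntegrable (fun s => c0 * (‖u s‖ ^ α * ‖u s‖ + γ * ‖u s‖)) volume 0 τ := by
    apply ContinuousOn.intervalIntegrable
    rw [uIcc_of_le h0]
    exact (cont_g hα hu.cont).mono fun s hs => ⟨hs.1, hs.2.trans_lt hT⟩
  have hg0 : ∀ s, 0 ≤ c0 * (‖u s‖ ^ α * ‖u s‖ + γ * ‖u s‖) := by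
    intro s
    have h1 : 0 ≤ ‖u s‖ ^ α := Real.rpow_nonneg (norm_nonneg _) _
    have h2 := norm_nonneg (u s)
    have h3 : 0 ≤ c0 := by linarith
    positivity
  apply norm_le
  · have h1 : 0 ≤ ∫ s in (0 : ℝ)..τ, c0 * (‖u s‖ ^ α * ‖u s‖ + γ * ‖u s‖) :=
      intervalIntegral.integral_nonneg h0 fun s _ => hg0 s
    have h2 := norm_nonneg u0
    have h3 : 0 ≤ c0 := by linarith
    positivity
  intro x
  rw [hu.eq τ ⟨h0, hT⟩ x]
  refine (norm_add_le _ _).trans (add_le_add ?_ ?_)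
  · exact tsg_le hc h τ h0 _ _ (fun y => le_norm u0 y) x
  · apply intervalIntegral.norm_integral_le_of_norm_le h0 _ hg
    apply ae_of_all
    intro s hs
    exact tsg_le hc h (τ - s) (by linarith [hs.2]) _ _
      (fun y => nl_le hα hγ _ _ (fun z => le_norm (u s) z) y) x

theorem step {N : ℕ} {θ α γ T c0 M : ℝ} {u0 : C₀(E N, ℂ)} {u : ℝ → C₀(E N, ℂ)} (hα : 0 < α)
    (hγ : 0 ≤ γ) (hc : 1 ≤ c0) (hM : 0 ≤ M)
    (h : ∀ t : ℝ, 0 < t → Integrable (ker N θ t) ∧ ∫ x, ‖ker N θ t x‖ ≤ c0)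
    (hu : IsMild θ α γ T u0 u) (t : ℝ) (h0 : 0 ≤ t) (hT : t < T)
    (hb : ∀ s, 0 ≤ s → s < t → ‖u s‖ ≤ M) :
    ‖u t‖ ≤ c0 * ‖u0‖ * Real.exp (c0 * (M ^ α + γ) * t) := by
  have hMa : 0 ≤ M ^ α := Real.rpow_nonneg hM _
  have hc0 : 0 ≤ c0 := by linarith
  have hcu : ContinuousOn (fun s => ‖u s‖) (Icc 0 t) :=
    hu.cont.norm.mono fun s hs => ⟨hs.1, hs.2.trans_lt hT⟩
  refine gron (fun s => ‖u s‖) t (c0 * ‖u0‖) (c0 * (M ^ α + γ)) h0 (by positivity) hcu ?_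
  intro τ hτ
  refine (key hα hγ hc h hu τ hτ.1 (hτ.2.trans_lt hT)).trans ?_
  rw [← intervalIntegral.integral_const_mul]
  have hsub : uIcc 0 τ ⊆ Icc 0 t := by
    rw [uIcc_of_le hτ.1]
    exact Icc_subset_Icc le_rfl hτ.2
  have hle : ∫ s in (0 : ℝ)..τ, c0 * (‖u s‖ ^ α * ‖u s‖ + γ * ‖u s‖) ≤
      ∫ s in (0 : ℝ)..τ, c0 * (M ^ α + γ) * ‖u s‖ := by
    apply intervalIntegral.integral_mono_on_of_le_Ioo hτ.1
    · apply ContinuousOn.intervalIntegrable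
      exact (cont_g hα hu.cont).mono fun s hs => ⟨(hsub hs).1, (hsub hs).2.trans_lt hT⟩
    · apply ContinuousOn.intervalIntegrable
      exact continuousOn_const.mul (hcu.mono hsub)
    · intro s hs
      have h1 := hb s hs.1.le (hs.2.trans_le hτ.2)
      have h2 : ‖u s‖ ^ α ≤ M ^ α := Real.rpow_le_rpow (norm_nonneg _) h1 hα.le
      have h3 := norm_nonneg (u s)
      have h4 : ‖u s‖ ^ α * ‖u s‖ ≤ M ^ α * ‖u s‖ := mul_le_mul_of_nonneg_right h2 h3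
      calc c0 * (‖u s‖ ^ α * ‖u s‖ + γ * ‖u s‖) ≤ c0 * (M ^ α * ‖u s‖ + γ * ‖u s‖) :=
            mul_le_mul_of_nonneg_left (by linarith) hc0
        _ = c0 * (M ^ α + γ) * ‖u s‖ := by ring
  linarith

end K8

theorem k8 (h1 : S_K1) : S_K8 := by
  intro N θ α K u0 hθ0 hθ1 hα hK
  obtain ⟨⟨c0, hc, hker⟩, _⟩ := h1 N θ hθ0 hθ1
  have hc0 : 0 < c0 := by linarith
  have hu0 := norm_nonneg u0
  set M : ℝ := (c0 * ‖u0‖ + 1) * Real.exp (c0 * K + 1) with hMdef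
  have hM : 0 < M := by positivity
  have hMa : 0 < M ^ α := Real.rpow_pos_of_pos hM _
  refine ⟨M, c0 * K * M ^ α, hM, by positivity, ?_⟩
  intro γ T u hγ hu t ht0 htT htK
  have hg0 : 0 < c0 * K * M ^ α := by positivity
  have hγ0 : 0 < γ := hg0.trans hγ
  -- the bound for one time
  have hone : ∀ s, 0 ≤ s → s ≤ t → (∀ r, 0 ≤ r → r < s → ‖u r‖ ≤ M) → ‖u s‖ < M := by
    intro s hs0 hst hb
    have h2 := K8.step hα hγ0.le hc hM.le hker hu s hs0 (hst.trans_lt htT) hb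
    have h3 : c0 * (M ^ α + γ) * s ≤ c0 * K + 1 := by
      have h4 : s ≤ K / γ := hst.trans htK
      have h5 : γ * s ≤ K := by
        rw [le_div_iff₀ hγ0] at h4
        linarith
      have h6 : M ^ α * s * c0 ≤ 1 := by
        have h7 : M ^ α * s ≤ M ^ α * (K / γ) := mul_le_mul_of_nonneg_left h4 hMa.le
        have h8 : M ^ α * (K / γ) * c0 ≤ 1 := by
          rw [mul_div_assoc', div_mul_eq_mul_div, div_le_one hγ0]
          nlinarith
        nlinarith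
      nlinarith
    calc ‖u s‖ ≤ c0 * ‖u0‖ * Real.exp (c0 * (M ^ α + γ) * s) := h2
      _ ≤ c0 * ‖u0‖ * Real.exp (c0 * K + 1) :=
          mul_le_mul_of_nonneg_left (Real.exp_le_exp.2 h3) (by positivity)
      _ < M := by
          rw [hMdef]
          exact mul_lt_mul_of_pos_right (by linarith) (Real.exp_pos _)
  by_contra hcon
  push Not at hcon
  -- the first time with norm at least `M`
  have hcu : ContinuousOn (fun s => ‖u s‖) (Icc 0 t) :=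
    hu.cont.norm.mono fun s hs => ⟨hs.1, hs.2.trans_lt htT⟩
  have hcomp : IsCompact (Icc 0 t ∩ (fun s => ‖u s‖) ⁻¹' (Ici M)) := by
    have hcl : IsClosed (Icc 0 t ∩ (fun s => ‖u s‖) ⁻¹' (Ici M)) :=
      hcu.preimage_isClosed_of_isClosed isClosed_Icc isClosed_Ici
    exact isCompact_Icc.of_isClosed_subset hcl inter_subset_left
  obtain ⟨s, ⟨hs1, hs2⟩, hs3⟩ := hcomp.exists_isLeast ⟨t, ⟨ht0, le_rfl⟩, hcon.le⟩
  have h9 := hone s hs1.1 hs1.2 (fun r hr0 hrs => by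
    by_contra hr
    push Not at hr
    have := hs3 ⟨⟨hr0, hrs.le.trans hs1.2⟩, hr.le⟩
    linarith)
  have h10 : M ≤ ‖u s‖ := hs2
  linarith

end Pool.Agent.R228.GL
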