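import Pool.Agent.R228.GL.Stm

namespace Pool.Agent.R228.GL

open MeasureTheory Filter Set
open scoped ENNReal Topology FourierTransform ZeroAtInfty

namespace K9

theorem young {α a b : ℝ} (hα : 0 < α) (ha : 0 ≤ a) (hb : 0 ≤ b) :
    a ^ (α + 1) * b - a ^ (α + 2) ≤ b ^ (α + 2) / (α + 2) - a ^ (α + 2) / (α + 2) := by
  have h1 : 0 < α + 1 := by linarith
  have h2 : 0 < α + 2 := by linarith
  have hpq : ((α + 2) / (α + 1)).HolderConjugate (α + 2) := by
    rw [Real.holderConjugate_iff]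
    refine ⟨?_, ?_⟩
    · rw [lt_div_iff₀ h1]; linarith
    · field_simp
      ring
  have hY := Real.young_inequality_of_nonneg (Real.rpow_nonneg ha (α + 1)) hb hpq
  have h3 : (a ^ (α + 1)) ^ ((α + 2) / (α + 1)) = a ^ (α + 2) := by
    rw [← Real.rpow_mul ha]
    congr 1
    field_simp
  rw [h3] at hY
  have h4 : a ^ (α + 2) / ((α + 2) / (α + 1)) = a ^ (α + 2) - a ^ (α + 2) / (α + 2) := by
    field_simp
    ring
  rw [h4] at hY
  linarith

theorem rpow2 {α a : ℝ} (hα : 0 < α) (ha : 0 ≤ a) : a ^ (α + 2) = a ^ α * a ^ 2 := by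
  rw [Real.rpow_add' ha (by linarith)]
  congr 1
  exact Real.rpow_two a

theorem rpow1 {α a : ℝ} (hα : 0 < α) (ha : 0 ≤ a) : a ^ (α + 1) = a ^ α * a := by
  rw [Real.rpow_add' ha (by linarith), Real.rpow_one]

theorem inner_self (α : ℝ) (hα : 0 < α) (a : ℂ) :
    inner ℂ (((‖a‖ ^ α : ℝ) : ℂ) * a) a = ((‖a‖ ^ (α + 2) : ℝ) : ℂ) := by
  rw [RCLike.inner_apply, map_mul, Complex.conj_ofReal, rpow2 hα (norm_nonneg a)]
  have : a * (starRingEnd ℂ) a = ((‖a‖ ^ 2 : ℝ) : ℂ) := by
    rw [Complex.mul_conj, Complex.normSq_eq_norm_sq]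
  push_cast
  push_cast at this
  rw [← this]
  ring

theorem re_le (α : ℝ) (hα : 0 < α) (a b : ℂ) :
    (inner ℂ (((‖a‖ ^ α : ℝ) : ℂ) * a) (b - a)).re ≤
      ‖b‖ ^ (α + 2) / (α + 2) - ‖a‖ ^ (α + 2) / (α + 2) := by
  rw [inner_sub_right, inner_self α hα a, Complex.sub_re, Complex.ofReal_re]
  refine le_trans ?_ (young hα (norm_nonneg a) (norm_nonneg b))
  refine sub_le_sub_right ?_ _
  refine (Complex.re_le_norm _).trans ((norm_inner_le_norm _ _).trans ?_)
  rw [norm_mul, Complex.norm_real, Real.norm_of_nonneg (Real.rpow_nonneg (norm_nonneg a) α),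
    rpow1 hα (norm_nonneg a)]

end K9

open K9 in
theorem k9 : S_K9 := by
  intro N α M W k hα hM hk
  have hM0 : 0 ≤ M := by
    obtain ⟨x, hx⟩ := hM.exists
    exact (norm_nonneg _).trans hx
  have hW2 : Integrable (fun x => ‖W x‖ ^ 2) (volume : Measure (E N)) :=
    (Lp.memLp W).integrable_norm_pow (by norm_num)
  have hWm : AEStronglyMeasurable (fun x => W x) (volume : Measure (E N)) :=
    (Lp.memLp W).1
  have hint : Integrable (fun x => ‖W x‖ ^ (α + 2)) (volume : Measure (E N)) := by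
    refine Integrable.mono' (hW2.const_mul (M ^ α)) ?_ ?_
    · exact (hWm.norm.aemeasurable.pow_const (α + 2)).aestronglyMeasurable
    · filter_upwards [hM] with x hx
      rw [Real.norm_of_nonneg (Real.rpow_nonneg (norm_nonneg _) _), rpow2 hα (norm_nonneg _)]
      exact mul_le_mul_of_nonneg_right (Real.rpow_le_rpow (norm_nonneg _) hx hα.le) (sq_nonneg _)
  refine ⟨hint, ?_, ?_, ?_⟩
  · rw [L2.inner_def, ← integral_complex_ofReal]
    refine integral_congr_ae ?_
    filter_upwards [hk] with x hx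
    rw [hx]
    exact inner_self α hα (W x)
  · refine Lp.norm_le_mul_norm_of_ae_le_mul ?_
    filter_upwards [hk, hM] with x hx hx2
    rw [hx, norm_mul, Complex.norm_real, Real.norm_of_nonneg (Real.rpow_nonneg (norm_nonneg _) _)]
    exact mul_le_mul_of_nonneg_right (Real.rpow_le_rpow (norm_nonneg _) hx2 hα.le) (norm_nonneg _)
  · intro W' hW'
    rw [L2.inner_def]
    have hii := L2.integrable_inner (𝕜 := ℂ) k (W' - W)
    have h1 : (∫ x, inner ℂ (k x) ((W' - W : H N) x)).re =
        ∫ x, (inner ℂ (k x) ((W' - W : H N) x)).re := by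
      exact (integral_re hii).symm
    rw [h1, ← integral_div, ← integral_div, ← integral_sub (hW'.div_const _) (hint.div_const _)]
    refine integral_mono_ae hii.re ((hW'.div_const _).sub (hint.div_const _)) ?_
    filter_upwards [hk, Lp.coeFn_sub W' W] with x hx hx2
    simp only [hx, hx2, Pi.sub_apply]
    exact re_le α hα (W x) (W' x)

end Pool.Agent.R228.GL
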