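import Pool.Agent.R228.GL.Stm

/-!
# GL-KC: continuity of the nonlinearity in `L²`
-/

namespace Pool.Agent.R228.GL

open MeasureTheory Filter Set
open scoped ENNReal Topology FourierTransform ZeroAtInfty

namespace KcAux

/-- convexity inequality for powers -/
lemma rpow_aux {α r s : ℝ} (hα : 0 < α) (hs : 0 ≤ s) (hsr : s ≤ r) :
    (r ^ α - s ^ α) * s ≤ (α + 1) * r ^ α * (r - s) := by
  have hr : 0 ≤ r := hs.trans hsr
  rcases hr.eq_or_lt with h0 | hr0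
  · have hs0 : s = 0 := le_antisymm (h0 ▸ hsr) hs
    rw [hs0, ← h0]; simp
  · have hb := one_add_mul_self_le_rpow_one_add (s := s / r - 1) (p := α + 1)
      (by have : 0 ≤ s / r := div_nonneg hs hr; linarith) (by linarith)
    have e1 : 1 + (s / r - 1) = s / r := by ring
    rw [e1, Real.div_rpow hs hr] at hb
    have hrp : 0 < r ^ (α + 1) := Real.rpow_pos_of_pos hr0 _
    have e2 : r ^ (α + 1) = r ^ α * r := Real.rpow_add_one hr0.ne' α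
    have e3 : s ^ (α + 1) = s ^ α * s := by
      rw [Real.rpow_add_one' hs (by linarith)]
    rw [le_div_iff₀ hrp, e2, e3] at hb
    have e4 : (1 + (α + 1) * (s / r - 1)) * (r ^ α * r) =
        r ^ α * r + (α + 1) * r ^ α * (s - r) := by
      field_simp
    rw [e4] at hb
    have h5 : r ^ α * s ≤ r ^ α * r := mul_le_mul_of_nonneg_left hsr (Real.rpow_nonneg hr _)
    nlinarith

/-- local Lipschitz bound with `‖b‖ ≤ ‖a‖` -/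
lemma lip_aux {α M : ℝ} (hα : 0 < α) {a b : ℂ} (ha : ‖a‖ ≤ M) (hab : ‖b‖ ≤ ‖a‖) :
    ‖((‖a‖ ^ α : ℝ) : ℂ) * a - ((‖b‖ ^ α : ℝ) : ℂ) * b‖ ≤ (α + 2) * M ^ α * ‖a - b‖ := by
  have e : ((‖a‖ ^ α : ℝ) : ℂ) * a - ((‖b‖ ^ α : ℝ) : ℂ) * b =
      ((‖a‖ ^ α : ℝ) : ℂ) * (a - b) + ((‖a‖ ^ α - ‖b‖ ^ α : ℝ) : ℂ) * b := by
    push_cast; ring
  have h0 : 0 ≤ ‖a‖ ^ α := Real.rpow_nonneg (norm_nonneg _) _
  have h1 : ‖a‖ ^ α ≤ M ^ α := Real.rpow_le_rpow (norm_nonneg _) ha hα.le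
  have h2 : 0 ≤ ‖a‖ ^ α - ‖b‖ ^ α :=
    sub_nonneg.2 (Real.rpow_le_rpow (norm_nonneg _) hab hα.le)
  have h3 := rpow_aux hα (norm_nonneg b) hab
  have h4 : ‖a‖ - ‖b‖ ≤ ‖a - b‖ := norm_sub_norm_le a b
  have h5 : 0 ≤ ‖a - b‖ := norm_nonneg _
  calc ‖((‖a‖ ^ α : ℝ) : ℂ) * a - ((‖b‖ ^ α : ℝ) : ℂ) * b‖
      ≤ ‖((‖a‖ ^ α : ℝ) : ℂ) * (a - b)‖ + ‖((‖a‖ ^ α - ‖b‖ ^ α : ℝ) : ℂ) * b‖ := by
        rw [e]; exact norm_add_le _ _
    _ = ‖a‖ ^ α * ‖a - b‖ + (‖a‖ ^ α - ‖b‖ ^ α) * ‖b‖ := by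
        rw [norm_mul, norm_mul, Complex.norm_of_nonneg h0, Complex.norm_of_nonneg h2]
    _ ≤ ‖a‖ ^ α * ‖a - b‖ + (α + 1) * ‖a‖ ^ α * (‖a‖ - ‖b‖) := by linarith
    _ ≤ ‖a‖ ^ α * ‖a - b‖ + (α + 1) * ‖a‖ ^ α * ‖a - b‖ := by
        have : (α + 1) * ‖a‖ ^ α * (‖a‖ - ‖b‖) ≤ (α + 1) * ‖a‖ ^ α * ‖a - b‖ :=
          mul_le_mul_of_nonneg_left h4 (by positivity)
        linarith
    _ = (α + 2) * ‖a‖ ^ α * ‖a - b‖ := by ring
    _ ≤ (α + 2) * M ^ α * ‖a - b‖ := by gcongr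

/-- local Lipschitz bound -/
lemma lip {α M : ℝ} (hα : 0 < α) {a b : ℂ} (ha : ‖a‖ ≤ M) (hb : ‖b‖ ≤ M) :
    ‖((‖a‖ ^ α : ℝ) : ℂ) * a - ((‖b‖ ^ α : ℝ) : ℂ) * b‖ ≤ (α + 2) * M ^ α * ‖a - b‖ := by
  rcases le_total ‖b‖ ‖a‖ with h | h
  · exact lip_aux hα ha h
  · rw [norm_sub_rev, norm_sub_rev a b]
    exact lip_aux hα hb h

lemma norm_apply_le {N : ℕ} (f : C₀(E N, ℂ)) (x : E N) : ‖f x‖ ≤ ‖f‖ := by
  exact f.toBCF.norm_coe_le_norm x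

lemma memLp {N : ℕ} {α : ℝ} (hα : 0 < α) (f : C₀(E N, ℂ)) (V : H N) (h : ∀ᵐ x, V x = f x) :
    MemLp (fun x => ((‖f x‖ ^ α : ℝ) : ℂ) * f x) 2 (volume : Measure (E N)) := by
  have hf : MemLp (fun x => f x) 2 (volume : Measure (E N)) :=
    (memLp_congr_ae h).1 (Lp.memLp V)
  refine MemLp.of_le_mul (c := ‖f‖ ^ α) hf ?_ ?_
  · have hc : Continuous (fun x => ((‖f x‖ ^ α : ℝ) : ℂ) * f x) := by
      have h1 : Continuous (fun x => f x) := f.continuous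
      exact (Complex.continuous_ofReal.comp (h1.norm.rpow_const (fun x => Or.inr hα.le))).mul h1
    exact hc.aestronglyMeasurable
  · refine Eventually.of_forall fun x => ?_
    rw [norm_mul, Complex.norm_of_nonneg (Real.rpow_nonneg (norm_nonneg _) _)]
    exact mul_le_mul_of_nonneg_right
      (Real.rpow_le_rpow (norm_nonneg _) (norm_apply_le f x) hα.le) (norm_nonneg _)

end KcAux

open KcAux in
/-- GL-KC -/
theorem kc : S_KC := by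
  intro N α T u U hα hu hU hUc
  classical
  let F : ℝ → H N := fun t => if h : t ∈ Ico 0 T then
    (memLp hα (u t) (U t) (hU t h)).toLp _ else 0
  have hF : ∀ t ∈ Ico 0 T, ∀ᵐ x, F t x = ((‖u t x‖ ^ α : ℝ) : ℂ) * u t x := by
    intro t ht
    have e : F t = (memLp hα (u t) (U t) (hU t ht)).toLp _ := dif_pos ht
    rw [e]
    exact MemLp.coeFn_toLp _
  refine ⟨F, hF, ?_⟩
  intro t ht
  have hloc : ∀ᶠ s in 𝓝[Ico 0 T] t, ‖u s‖ ≤ ‖u t‖ + 1 := by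
    have h1 : Tendsto (fun s => ‖u s‖) (𝓝[Ico 0 T] t) (𝓝 ‖u t‖) := (hu t ht).norm
    exact (h1.eventually (gt_mem_nhds (lt_add_one _))).mono fun s hs => le_of_lt hs
  have hmem : ∀ᶠ s in 𝓝[Ico 0 T] t, s ∈ Ico 0 T := self_mem_nhdsWithin
  have hbd : ∀ᶠ s in 𝓝[Ico 0 T] t,
      ‖F s - F t‖ ≤ ((α + 2) * (‖u t‖ + 1) ^ α) * ‖U s - U t‖ := by
    filter_upwards [hloc, hmem] with s hs hsm
    refine Lp.norm_le_mul_norm_of_ae_le_mul ?_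
    filter_upwards [Lp.coeFn_sub (F s) (F t), Lp.coeFn_sub (U s) (U t), hF s hsm, hF t ht,
      hU s hsm, hU t ht] with x h1 h2 h3 h4 h5 h6
    rw [h1, h2, Pi.sub_apply, Pi.sub_apply, h3, h4, h5, h6]
    exact lip hα ((norm_apply_le (u s) x).trans hs)
      ((norm_apply_le (u t) x).trans (le_add_of_nonneg_right zero_le_one))
  have hlim : Tendsto (fun s => ((α + 2) * (‖u t‖ + 1) ^ α) * ‖U s - U t‖)
      (𝓝[Ico 0 T] t) (𝓝 0) := by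
    have h1 : Tendsto (fun s => ‖U s - U t‖) (𝓝[Ico 0 T] t) (𝓝 0) :=
      tendsto_iff_norm_sub_tendsto_zero.1 (hUc t ht)
    simpa using h1.const_mul ((α + 2) * (‖u t‖ + 1) ^ α)
  refine tendsto_iff_norm_sub_tendsto_zero.2 ?_
  exact squeeze_zero' (Eventually.of_forall fun s => norm_nonneg _) hbd hlim

end Pool.Agent.R228.GL
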