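import Pool.Agent.R228.GL.Stm

/-!
# Complex Ginzburg-Landau equation: Levine differential inequalities in integrated form
-/

universe u

namespace Pool.Agent.R228.GL

open MeasureTheory Filter Set
open scoped Topology

namespace Lev

variable {G : Type u} [NormedAddCommGroup G] [InnerProductSpace ℂ G]
variable {P A : ℕ → G →L[ℂ] G} {z : ℂ} {α γ T a0 : ℝ} {w k : ℝ → G} {p : ℝ → ℝ}

/-- the truncated version of D -/
noncomputable def Dn (P A : ℕ → G →L[ℂ] G) (α γ : ℝ) (w k : ℝ → G) (n : ℕ) (r : ℝ) : ℝ :=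
  Real.exp (α * γ * r) * (inner ℂ (k r) (P n (w r))).re - an A w n r

theorem Dn_eq (hP : IsTrunc P A) (n : ℕ) (r : ℝ) : Dn P A α γ w k n r =
    (inner ℂ (-(A n (w r)) + ((Real.exp (α * γ * r) : ℝ) : ℂ) • P n (k r)) (P n (w r))).re := by
  rw [inner_add_left, inner_neg_left, inner_smul_left]
  have h1 : inner ℂ (A n (w r)) (P n (w r)) = inner ℂ (A n (w r)) (w r) := by
    rw [← hP.symP, hP.PA]
  have h2 : inner ℂ (P n (k r)) (P n (w r)) = inner ℂ (k r) (P n (w r)) := by
    rw [hP.symP, hP.idem]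
  rw [h1, h2, Complex.conj_ofReal, Complex.add_re, Complex.neg_re, Complex.re_ofReal_mul]
  simp only [Dn, an]
  ring

theorem Dn_sq (hP : IsTrunc P A) (hz : ‖z‖ = 1) (n : ℕ) (r : ℝ) :
    Dn P A α γ w k n r ^ 2 ≤ ‖w r‖ ^ 2 * ‖dw P A z α γ w k n r‖ ^ 2 := by
  have h1 : |Dn P A α γ w k n r| ≤ ‖w r‖ * ‖dw P A z α γ w k n r‖ := by
    rw [Dn_eq hP]
    refine (Complex.abs_re_le_norm _).trans ?_
    refine (norm_inner_le_norm _ _).trans ?_
    have e : ‖dw P A z α γ w k n r‖ =
        ‖-(A n (w r)) + ((Real.exp (α * γ * r) : ℝ) : ℂ) • P n (k r)‖ := by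
      unfold dw
      rw [norm_smul, hz, one_mul]
    rw [e, mul_comm]
    exact mul_le_mul_of_nonneg_right (hP.norm_le _ _) (norm_nonneg _)
  rw [← mul_pow]
  exact sq_le_sq' (by linarith [(abs_le.1 h1).1]) (abs_le.1 h1).2

theorem an_nonneg (hP : IsTrunc P A) (n : ℕ) (r : ℝ) : 0 ≤ an A w n r := hP.nonneg n (w r)

theorem aS_nonneg (hP : IsTrunc P A) (r : ℝ) : 0 ≤ aS A w r :=
  Real.iSup_nonneg fun n => an_nonneg hP n r

theorem ee_le (hP : IsTrunc P A) (hα : 0 < α) (r : ℝ) : (α + 2) * ee A α γ w p r ≤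
    (α + 2) * (Real.exp (α * γ * r) * p r) - aS A w r := by
  have h := aS_nonneg (w := w) hP r
  unfold ee
  nlinarith

theorem Dn_tendsto (hP : IsTrunc P A) (hv : IsEvol P A z α γ T a0 w k p) {r C : ℝ}
    (hr : r ∈ Ico 0 T) (hC : ∀ n, an A w n r ≤ C) :
    Tendsto (fun n => Dn P A α γ w k n r) atTop
      (𝓝 ((α + 2) * (Real.exp (α * γ * r) * p r) - aS A w r)) := by
  have h1 : Tendsto (fun n => an A w n r) atTop (𝓝 (aS A w r)) := by
    refine tendsto_atTop_ciSup ?_ ⟨C, ?_⟩
    · intro n m hnm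
      exact hP.mono n m (w r) hnm
    · rintro _ ⟨n, rfl⟩
      exact hC n
  have h2 : Tendsto (fun n => (inner ℂ (k r) (P n (w r))).re) atTop
      (𝓝 ((inner ℂ (k r) (w r)).re)) := by
    have h3 : Tendsto (fun n => inner ℂ (k r) (P n (w r))) atTop (𝓝 (inner ℂ (k r) (w r))) :=
      tendsto_const_nhds.inner (hP.tends (w r))
    exact (Complex.continuous_re.tendsto _).comp h3
  have h4 := (h2.const_mul (Real.exp (α * γ * r))).sub h1
  rw [hv.kw r hr, Complex.ofReal_re] at h4
  have e : Real.exp (α * γ * r) * ((α + 2) * p r) - aS A w r =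
      (α + 2) * (Real.exp (α * γ * r) * p r) - aS A w r := by ring
  rw [e] at h4
  exact h4

theorem Dn_cont (hv : IsEvol P A z α γ T a0 w k p) (n : ℕ) :
    ContinuousOn (Dn P A α γ w k n) (Ico 0 T) := by
  unfold Dn an
  have h1 : ContinuousOn (fun r => P n (w r)) (Ico 0 T) := (P n).continuous.comp_continuousOn hv.cw
  have h2 : ContinuousOn (fun r => A n (w r)) (Ico 0 T) := (A n).continuous.comp_continuousOn hv.cw
  have h3 : ContinuousOn (fun r => (inner ℂ (k r) (P n (w r))).re) (Ico 0 T) :=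
    Complex.continuous_re.comp_continuousOn (hv.ck.inner h1)
  have h4 : ContinuousOn (fun r => (inner ℂ (A n (w r)) (w r)).re) (Ico 0 T) :=
    Complex.continuous_re.comp_continuousOn (h2.inner hv.cw)
  have h5 : ContinuousOn (fun r : ℝ => Real.exp (α * γ * r)) (Ico 0 T) := by fun_prop
  exact (h5.mul h3).sub h4

theorem dw_cont (hv : IsEvol P A z α γ T a0 w k p) (n : ℕ) :
    ContinuousOn (fun r => ‖dw P A z α γ w k n r‖ ^ 2) (Ico 0 T) := by
  unfold dw
  have h1 : ContinuousOn (fun r => P n (k r)) (Ico 0 T) := (P n).continuous.comp_continuousOn hv.ck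
  have h2 : ContinuousOn (fun r => A n (w r)) (Ico 0 T) := (A n).continuous.comp_continuousOn hv.cw
  have h5 : ContinuousOn (fun r : ℝ => ((Real.exp (α * γ * r) : ℝ) : ℂ)) (Ico 0 T) := by fun_prop
  exact (((h2.neg.add (h5.smul h1)).const_smul z).norm).pow 2

theorem Dn_abs (hP : IsTrunc P A) {r C : ℝ} (n : ℕ) (hC : an A w n r ≤ C) :
    ‖Dn P A α γ w k n r‖ ≤ C + Real.exp (α * γ * r) * (‖k r‖ * ‖w r‖) := by
  have h0 := an_nonneg (w := w) hP n r
  have h1 : |(inner ℂ (k r) (P n (w r))).re| ≤ ‖k r‖ * ‖w r‖ := by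
    refine (Complex.abs_re_le_norm _).trans ((norm_inner_le_norm _ _).trans ?_)
    exact mul_le_mul_of_nonneg_left (hP.norm_le _ _) (norm_nonneg _)
  have h2 : |Real.exp (α * γ * r) * (inner ℂ (k r) (P n (w r))).re| ≤
      Real.exp (α * γ * r) * (‖k r‖ * ‖w r‖) := by
    rw [abs_mul, abs_of_pos (Real.exp_pos _)]
    exact mul_le_mul_of_nonneg_left h1 (Real.exp_pos _).le
  have h3 := abs_le.1 h2
  rw [Real.norm_eq_abs, abs_le]
  unfold Dn
  constructor <;> linarith [h3.1, h3.2]

end Lev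

theorem lev (hE : S_E.{u}) (hN : S_N.{u}) : S_C.{u} := by
  intro G _ _ _ P A z α γ T a0 w k p hP hv t1 ht1 ht1T het1
  have hα := hv.hα
  have hzr := hv.hre
  obtain ⟨hbd, hE2⟩ := hE P A z α γ T a0 w k p hP hv
  -- monotonicity of the energy
  have hpos : ∀ s t : ℝ, 0 ≤ s → s ≤ t → t < T →
      0 ≤ α * γ * (∫ r in s..t, Real.exp (α * γ * r) * p r) := by
    intro s t hs hst ht
    refine mul_nonneg (mul_nonneg hα.le hv.hγ) (intervalIntegral.integral_nonneg hst ?_)
    intro r hr
    exact mul_nonneg (Real.exp_pos _).le (hv.p0 r ⟨hs.trans hr.1, lt_of_le_of_lt hr.2 ht⟩)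
  have hmono : ∀ s t : ℝ, 0 ≤ s → s ≤ t → t < T → ee A α γ w p s ≤ ee A α γ w p t := by
    intro s t hs hst ht
    refine le_of_forall_pos_le_add fun ε hε => ?_
    obtain ⟨n, hn⟩ := (hE2 s t hs hst ht ε hε).exists
    have h1 : 0 ≤ ∫ r in s..t, ‖dw P A z α γ w k n r‖ ^ 2 :=
      intervalIntegral.integral_nonneg hst fun r _ => by positivity
    have h2 := mul_nonneg hzr.le h1
    have h3 := hpos s t hs hst ht
    linarith
  have hepos : ∀ t, t1 ≤ t → t < T → 0 < ee A α γ w p t := fun t h1 h2 =>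
    lt_of_lt_of_le het1 (hmono t1 t ht1 h1 h2)
  have hwpos : ∀ t, t1 ≤ t → t < T → 0 < ‖w t‖ := by
    intro t h1 h2
    rw [norm_pos_iff]
    intro h0
    have h3 := hv.kw t ⟨ht1.trans h1, h2⟩
    rw [h0, inner_zero_right] at h3
    have h4 : (α + 2) * p t = 0 := by exact_mod_cast h3.symm
    have h5 : p t = 0 := by
      rcases mul_eq_zero.1 h4 with h | h
      · linarith
      · exact h
    have h6 := hepos t h1 h2
    have h7 := Lev.aS_nonneg (w := w) hP t
    unfold ee at h6
    rw [h5] at h6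
    linarith
  refine ⟨hwpos, ?_⟩
  intro s t hs hst ht
  have hs0 : 0 ≤ s := ht1.trans hs
  obtain ⟨C, hC⟩ := hbd t (hs0.trans hst) ht
  obtain ⟨haS, hpc, hN2⟩ := hN P A z α γ T a0 w k p hP hv s t hs0 hst ht ⟨C, hC⟩
  have hsub : Icc s t ⊆ Ico 0 T := fun r hr => ⟨hs0.trans hr.1, lt_of_le_of_lt hr.2 ht⟩
  have hpint : IntervalIntegrable (fun r => Real.exp (α * γ * r) * p r) volume s t := by
    refine ContinuousOn.intervalIntegrable ?_
    rw [uIcc_of_le hst]
    have h5 : ContinuousOn (fun r : ℝ => Real.exp (α * γ * r)) (Icc s t) := by fun_prop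
    exact h5.mul (hpc.mono hsub)
  have hDint : IntervalIntegrable
      (fun r => (α + 2) * (Real.exp (α * γ * r) * p r) - aS A w r) volume s t :=
    (hpint.const_mul (α + 2)).sub haS
  have heint : IntervalIntegrable (fun r => ee A α γ w p r) volume s t :=
    hpint.sub (haS.div_const 2)
  -- lower bound of the integral of D
  have hlow : (α + 2) * (∫ r in s..t, ee A α γ w p r) ≤
      ∫ r in s..t, ((α + 2) * (Real.exp (α * γ * r) * p r) - aS A w r) := by
    rw [← intervalIntegral.integral_const_mul]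
    exact intervalIntegral.integral_mono_on hst (heint.const_mul (α + 2)) hDint
      fun r _ => Lev.ee_le hP hα r
  have hepint : 0 ≤ ∫ r in s..t, ee A α γ w p r :=
    intervalIntegral.integral_nonneg hst fun r hr =>
      (hepos r (hs.trans hr.1) (lt_of_le_of_lt hr.2 ht)).le
  have h4th : 2 * z.re * (α + 2) * (∫ r in s..t, ee A α γ w p r) ≤ ‖w t‖ ^ 2 - ‖w s‖ ^ 2 := by
    rw [hN2]
    have h1 := mul_le_mul_of_nonneg_left hlow (show 0 ≤ 2 * z.re by positivity)
    linarith
  have hsq : ‖w s‖ ^ 2 ≤ ‖w t‖ ^ 2 := by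
    have h1 : 0 ≤ 2 * z.re * (α + 2) * (∫ r in s..t, ee A α γ w p r) := by positivity
    linarith
  have hnm : ∀ r ∈ Icc s t, ‖w r‖ ^ 2 ≤ ‖w t‖ ^ 2 := by
    intro r hr
    have hr0 : 0 ≤ r := hs0.trans hr.1
    obtain ⟨haS', _, hN2'⟩ := hN P A z α γ T a0 w k p hP hv r t hr0 hr.2 ht ⟨C, hC⟩
    have hi : 0 ≤ ∫ x in r..t, ((α + 2) * (Real.exp (α * γ * x) * p x) - aS A w x) := by
      refine intervalIntegral.integral_nonneg hr.2 fun x hx => ?_
      have h1 := Lev.ee_le (γ := γ) (w := w) (p := p) hP hα x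
      have h2 := hepos x ((hs.trans hr.1).trans hx.1) (lt_of_le_of_lt hx.2 ht)
      have h3 : 0 ≤ (α + 2) * ee A α γ w p x := by positivity
      linarith
    have h4 : 0 ≤ ‖w t‖ ^ 2 - ‖w r‖ ^ 2 := by
      rw [hN2']
      positivity
    linarith
  refine ⟨?_, hmono s t hs0 hst ht, ?_, h4th⟩
  · exact (pow_le_pow_iff_left₀ (norm_nonneg _) (norm_nonneg _) two_ne_zero).1 hsq
  · -- the third claim
    obtain ⟨c, hc⟩ : ∃ c, c = (α + 2) * ee A α γ w p s := ⟨_, rfl⟩
    obtain ⟨I, hI⟩ : ∃ I, I = ∫ r in s..t, ((α + 2) * (Real.exp (α * γ * r) * p r) - aS A w r) :=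
      ⟨_, rfl⟩
    have hc0 : 0 < c := by
      rw [hc]
      have := hepos s hs (lt_of_le_of_lt hst ht)
      positivity
    have hDn : ∀ n, IntervalIntegrable (fun r => Lev.Dn P A α γ w k n r) volume s t := by
      intro n
      refine ContinuousOn.intervalIntegrable ?_
      rw [uIcc_of_le hst]
      exact (Lev.Dn_cont hv n).mono hsub
    have hdn : ∀ n, IntervalIntegrable (fun r => ‖dw P A z α γ w k n r‖ ^ 2) volume s t := by
      intro n
      refine ContinuousOn.intervalIntegrable ?_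
      rw [uIcc_of_le hst]
      exact (Lev.dw_cont hv n).mono hsub
    have hlim : Tendsto (fun n => ∫ r in s..t, Lev.Dn P A α γ w k n r) atTop (𝓝 I) := by
      rw [hI]
      refine intervalIntegral.tendsto_integral_filter_of_dominated_convergence
        (fun r => C + Real.exp (α * γ * r) * (‖k r‖ * ‖w r‖)) ?_ ?_ ?_ ?_
      · refine Eventually.of_forall fun n => ?_
        exact (hDn n).aestronglyMeasurable_restrict_uIoc
      · refine Eventually.of_forall fun n => Eventually.of_forall fun r hr => ?_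
        rw [uIoc_of_le hst] at hr
        exact Lev.Dn_abs hP n (hC r (hs0.trans hr.1.le) hr.2 n)
      · refine ContinuousOn.intervalIntegrable ?_
        rw [uIcc_of_le hst]
        have h5 : ContinuousOn (fun r : ℝ => Real.exp (α * γ * r)) (Icc s t) := by fun_prop
        exact continuousOn_const.add
          (h5.mul ((hv.ck.mono hsub).norm.mul (hv.cw.mono hsub).norm))
      · refine Eventually.of_forall fun r hr => ?_
        rw [uIoc_of_le hst] at hr
        exact Lev.Dn_tendsto hP hv (hsub ⟨hr.1.le, hr.2⟩)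
          (fun n => hC r (hs0.trans hr.1.le) hr.2 n)
    have hn : ∀ n, 2 * c * (∫ r in s..t, Lev.Dn P A α γ w k n r) - c ^ 2 * (t - s) ≤
        ‖w t‖ ^ 2 * ∫ r in s..t, ‖dw P A z α γ w k n r‖ ^ 2 := by
      intro n
      have e1 : 2 * c * (∫ r in s..t, Lev.Dn P A α γ w k n r) - c ^ 2 * (t - s) =
          ∫ r in s..t, (2 * c * Lev.Dn P A α γ w k n r - c ^ 2) := by
        have hA : IntervalIntegrable (fun r => 2 * c * Lev.Dn P A α γ w k n r) volume s t :=
          (hDn n).const_mul (2 * c)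
        have hB : IntervalIntegrable (fun _ : ℝ => c ^ 2) volume s t :=
          intervalIntegrable_const
        rw [intervalIntegral.integral_sub hA hB, intervalIntegral.integral_const_mul,
          intervalIntegral.integral_const, smul_eq_mul]
        ring
      rw [e1, ← intervalIntegral.integral_const_mul]
      refine intervalIntegral.integral_mono_on hst
        (((hDn n).const_mul (2 * c)).sub intervalIntegrable_const)
        ((hdn n).const_mul (‖w t‖ ^ 2)) fun r hr => ?_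
      have h1 := Lev.Dn_sq (α := α) (γ := γ) (w := w) (k := k) hP hv.hz n r
      have h2 := mul_le_mul_of_nonneg_right (hnm r hr)
        (show 0 ≤ ‖dw P A z α γ w k n r‖ ^ 2 by positivity)
      nlinarith [sq_nonneg (Lev.Dn P A α γ w k n r - c)]
    have hbound : z.re * (2 * c * I - c ^ 2 * (t - s)) ≤
        ‖w t‖ ^ 2 * (ee A α γ w p t - ee A α γ w p s) := by
      have hlim2 : Tendsto (fun n => z.re * (2 * c * (∫ r in s..t, Lev.Dn P A α γ w k n r) -
          c ^ 2 * (t - s))) atTop (𝓝 (z.re * (2 * c * I - c ^ 2 * (t - s)))) :=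
        ((hlim.const_mul (2 * c)).sub_const _).const_mul _
      have hall : ∀ ε : ℝ, 0 < ε → z.re * (2 * c * I - c ^ 2 * (t - s)) ≤
          ‖w t‖ ^ 2 * (ee A α γ w p t - ee A α γ w p s + ε) := by
        intro ε hε
        refine le_of_tendsto hlim2 ?_
        filter_upwards [hE2 s t hs0 hst ht ε hε] with n hn2
        have h1 := mul_le_mul_of_nonneg_left (hn n) hzr.le
        have h2 := hpos s t hs0 hst ht
        have h3 : z.re * (∫ r in s..t, ‖dw P A z α γ w k n r‖ ^ 2) ≤
            ee A α γ w p t - ee A α γ w p s + ε := by linarith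
        have h4 := mul_le_mul_of_nonneg_left h3 (show 0 ≤ ‖w t‖ ^ 2 by positivity)
        calc z.re * (2 * c * (∫ r in s..t, Lev.Dn P A α γ w k n r) - c ^ 2 * (t - s)) ≤
            z.re * (‖w t‖ ^ 2 * ∫ r in s..t, ‖dw P A z α γ w k n r‖ ^ 2) := h1
          _ = ‖w t‖ ^ 2 * (z.re * ∫ r in s..t, ‖dw P A z α γ w k n r‖ ^ 2) := by ring
          _ ≤ _ := h4
      have hlim3 : Tendsto (fun ε : ℝ => ‖w t‖ ^ 2 * (ee A α γ w p t - ee A α γ w p s + ε))
          (𝓝[>] 0) (𝓝 (‖w t‖ ^ 2 * (ee A α γ w p t - ee A α γ w p s + 0))) := by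
        have hcc : Continuous (fun ε : ℝ => ‖w t‖ ^ 2 *
          (ee A α γ w p t - ee A α γ w p s + ε)) := by fun_prop
        exact (hcc.tendsto 0).mono_left nhdsWithin_le_nhds
      rw [add_zero] at hlim3
      refine ge_of_tendsto hlim3 ?_
      filter_upwards [self_mem_nhdsWithin] with ε hε
      exact hall ε hε
    -- the integral of D is at least c (t - s)
    have hIc : c * (t - s) ≤ I := by
      have h1 : ∫ r in s..t, c ≤ I := by
        rw [hI]
        refine intervalIntegral.integral_mono_on hst intervalIntegrable_const hDint fun r hr => ?_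
        have h2 := Lev.ee_le (γ := γ) (w := w) (p := p) hP hα r
        have h3 := hmono s r hs0 hr.1 (lt_of_le_of_lt hr.2 ht)
        rw [hc]
        have h4 := mul_le_mul_of_nonneg_left h3 (show 0 ≤ α + 2 by linarith)
        linarith
      rw [intervalIntegral.integral_const, smul_eq_mul] at h1
      linarith
    have h5 : c * I ≤ 2 * c * I - c ^ 2 * (t - s) := by nlinarith
    have h6 := mul_le_mul_of_nonneg_left h5 hzr.le
    have h7 : ‖w t‖ ^ 2 - ‖w s‖ ^ 2 = 2 * z.re * I := by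
      rw [hN2, hI]
    rw [h7]
    have h8 : (α + 2) / 2 * ee A α γ w p s * (2 * z.re * I) = z.re * (c * I) := by
      rw [hc]
      ring
    rw [h8]
    linarith

end Pool.Agent.R228.GL
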