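import Pool.Agent.R228.GL.Stm

/-!
# Complex Ginzburg-Landau equation: assembly
-/

namespace Pool.Agent.R228.GL

open MeasureTheory Filter Set
open scoped ENNReal Topology FourierTransform ZeroAtInfty

theorem zc_norm (θ : ℝ) : ‖zc θ‖ = 1 := by
  unfold zc
  exact Complex.norm_exp_ofReal_mul_I θ

theorem zc_re (θ : ℝ) : (zc θ).re = Real.cos θ := by
  unfold zc
  exact Complex.exp_ofReal_mul_I_re θ

/-- differentiability with respect to the real structure underlying the complex one -/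
def HD {G : Type*} [NormedAddCommGroup G] [InnerProductSpace ℂ G] (f : ℝ → G) (f' : G)
    (t : ℝ) : Prop := HasDerivAt f f' t

theorem hd_iff {G : Type*} [NormedAddCommGroup G] [InnerProductSpace ℂ G] (f : ℝ → G) (f' : G)
    (t : ℝ) : HD f f' t ↔
      (fun x => f x - f t - ((x - t : ℝ) : ℂ) • f') =o[𝓝 t] fun x => x - t := by
  unfold HD
  rw [hasDerivAt_iff_isLittleO]
  rfl

theorem real_smul_Lp {N : ℕ} (c : ℝ) (f : H N) : (c • f : H N) = (c : ℂ) • f := by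
  apply Lp.ext
  filter_upwards [Lp.coeFn_smul c f, Lp.coeFn_smul (c : ℂ) f] with x h1 h2
  rw [h1, h2, Pi.smul_apply, Pi.smul_apply]
  simp

theorem hd_of {N : ℕ} {f : ℝ → H N} {f' : H N} {t : ℝ} (h : HasDerivAt f f' t) : HD f f' t := by
  rw [hd_iff]
  rw [hasDerivAt_iff_isLittleO] at h
  refine h.congr_left fun x => ?_
  rw [real_smul_Lp]

/-- removing the linear term -/
theorem ode_transform {G : Type*} [NormedAddCommGroup G] [InnerProductSpace ℂ G]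
    (P A : G →L[ℂ] G) (V Fh : ℝ → G) (z : ℂ) (α γ t : ℝ)
    (hd : HD (fun s => P (V s)) (-(z • A (V t)) + P (z • Fh t + (γ : ℂ) • V t)) t) :
    HD (fun s => P (((Real.exp (-(γ * s)) : ℝ) : ℂ) • V s))
      (z • (-(A (((Real.exp (-(γ * t)) : ℝ) : ℂ) • V t)) +
        ((Real.exp (α * γ * t) : ℝ) : ℂ) •
          P (((Real.exp (-((α + 1) * γ * t)) : ℝ) : ℂ) • Fh t))) t := by
  unfold HD at hd ⊢
  have he : HasDerivAt (fun s : ℝ => ((Real.exp (-(γ * s)) : ℝ) : ℂ))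
      (((-γ * Real.exp (-(γ * t)) : ℝ)) : ℂ) t := by
    have : HasDerivAt (fun s : ℝ => Real.exp (-(γ * s))) (-γ * Real.exp (-(γ * t))) t := by
      have h : HasDerivAt (fun s : ℝ => -(γ * s)) (-γ) t := by
        have h3 : HasDerivAt (fun s : ℝ => (-γ) * s) (-γ * 1) t :=
          (hasDerivAt_id t).const_mul (-γ)
        rw [mul_one] at h3
        refine h3.congr_of_eventuallyEq (Eventually.of_forall fun s => ?_)
        ring
      have h2 := h.exp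
      rw [mul_comm] at h2
      exact h2
    exact this.ofReal_comp
  have hmain := he.smul hd
  have hfun : (fun s => P (((Real.exp (-(γ * s)) : ℝ) : ℂ) • V s)) =
      fun s => ((Real.exp (-(γ * s)) : ℝ) : ℂ) • P (V s) := by
    funext s
    rw [map_smul]
  rw [hfun]
  refine hmain.congr_deriv ?_
  have e4 : ((Real.exp (α * γ * t) : ℝ) : ℂ) * ((Real.exp (-((α + 1) * γ * t)) : ℝ) : ℂ) =
      ((Real.exp (-(γ * t)) : ℝ) : ℂ) := by
    rw [← Complex.ofReal_mul, ← Real.exp_add]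
    congr 2
    ring
  simp only [map_smul, map_add, smul_add, smul_neg, smul_smul]
  rw [e4]
  push_cast
  module

theorem cont_comb {G : Type*} [NormedAddCommGroup G] [NormedSpace ℂ G] {F U : ℝ → G} (a b : ℂ)
    {s : Set ℝ} (hF : ContinuousOn F s) (hU : ContinuousOn U s) :
    ContinuousOn (fun t => a • F t + b • U t) s :=
  (hF.const_smul a).add (hU.const_smul b)

theorem cont_exp {G : Type*} [NormedAddCommGroup G] [NormedSpace ℂ G] {U : ℝ → G} (b : ℝ)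
    {s : Set ℝ} (hU : ContinuousOn U s) :
    ContinuousOn (fun t => ((Real.exp (-(b * t)) : ℝ) : ℂ) • U t) s := by
  refine ContinuousOn.smul ?_ hU
  have : Continuous fun t : ℝ => ((Real.exp (-(b * t)) : ℝ) : ℂ) := by fun_prop
  exact this.continuousOn

theorem cont_four {N : ℕ} {U : ℝ → H N} {s : Set ℝ} (hU : ContinuousOn U s) :
    ContinuousOn (fun t => (𝓕 (U t) : H N)) s :=
  (MeasureTheory.Lp.fourierTransformₗᵢ (E N) ℂ).continuous.comp_continuousOn hU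

theorem four_smul {N : ℕ} (c : ℂ) (f : H N) : (𝓕 (c • f) : H N) = c • (𝓕 f : H N) :=
  (MeasureTheory.Lp.fourierTransformₗᵢ (E N) ℂ).map_smul c f

theorem four_add {N : ℕ} (f g : H N) : (𝓕 (f + g) : H N) = (𝓕 f : H N) + (𝓕 g : H N) :=
  (MeasureTheory.Lp.fourierTransformₗᵢ (E N) ℂ).map_add f g

theorem coe_comb {N : ℕ} (a b : ℂ) (f g : H N) :
    ∀ᵐ x, (a • f + b • g : H N) x = a * f x + b * g x := by
  filter_upwards [Lp.coeFn_add (a • f) (b • g), Lp.coeFn_smul a f, Lp.coeFn_smul b g]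
    with x e3 e4 e5
  rw [e3, Pi.add_apply, e4, e5, Pi.smul_apply, Pi.smul_apply, smul_eq_mul, smul_eq_mul]

theorem coe_smul' {N : ℕ} (a : ℂ) (f : H N) : ∀ᵐ x, (a • f : H N) x = a * f x := by
  filter_upwards [Lp.coeFn_smul a f] with x e4
  rw [e4, Pi.smul_apply, smul_eq_mul]

/-- the truncated evolution of `e^{-γt} u(t)` -/
theorem evol_of_mild (hSG : S_SG) (hK3 : S_K3) (hKC : S_KC) (hK5 : S_K5) (hK6 : S_K6)
    {N : ℕ} (P A : ℕ → H N →L[ℂ] H N)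
    (hP : ∀ n f, ∀ᵐ ξ, (P n f) ξ = if aa ξ ≤ n then f ξ else 0)
    (hA : ∀ n f, ∀ᵐ ξ, (A n f) ξ = if aa ξ ≤ n then ((aa ξ : ℝ) : ℂ) * f ξ else 0)
    (θ α γ T : ℝ) (u0 : C₀(E N, ℂ)) (u : ℝ → C₀(E N, ℂ)) (h0 : 0 ≤ θ) (h1 : θ < Real.pi / 2)
    (hα : 0 < α) (hγ : 0 ≤ γ) (hT : 0 < T) (hu : IsMild θ α γ T u0 u)
    (h2 : MemLp (fun x => u0 x) 2 (volume : Measure (E N))) :
    ∃ W k : ℝ → H N,
      (∀ t ∈ Ico 0 T, ∀ᵐ x, W t x = ((Real.exp (-(γ * t)) : ℝ) : ℂ) * u t x) ∧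
      (∀ t ∈ Ico 0 T, ∀ᵐ x, k t x = ((‖W t x‖ ^ α : ℝ) : ℂ) * W t x) ∧
      ContinuousOn W (Ico 0 T) ∧ ContinuousOn k (Ico 0 T) ∧
      ∀ n, ∀ t ∈ Ioo 0 T, HD (fun s => P n (𝓕 (W s) : H N))
        (zc θ • (-(A n (𝓕 (W t) : H N)) +
          ((Real.exp (α * γ * t) : ℝ) : ℂ) • P n (𝓕 (k t) : H N))) t := by
  obtain ⟨U, hU, hUc⟩ := hK3 θ α γ T u0 u h0 h1 hα hγ hT hu h2
  obtain ⟨F, hF, hFc⟩ := hKC α T u U hα hu.cont hU hUc
  obtain ⟨S, hS1, hS2, hS3⟩ := hSG N θ h0 h1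
  have hGhc : ContinuousOn (fun t => zc θ • F t + (γ : ℂ) • U t) (Ico 0 T) :=
    cont_comb _ _ hFc hUc
  have hGhe : ∀ t ∈ Ico 0 T, ∀ᵐ x, (zc θ • F t + (γ : ℂ) • U t : H N) x =
      nl θ α γ (fun y => u t y) x := by
    intro t ht
    filter_upwards [hU t ht, hF t ht, coe_comb (zc θ) (γ : ℂ) (F t) (U t)] with x e1 e2 e3
    rw [e3, e1, e2, nl]
    ring
  have hD := hK5 θ α γ T u0 u h0 h1 hα hγ hT hu U (fun t => zc θ • F t + (γ : ℂ) • U t) S
    hU hUc hGhe hGhc hS1 hS2 hS3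
  have hO := hK6 θ T h0 h1 hT P A S (fun t => (𝓕 (U t) : H N))
    (fun t => (𝓕 (zc θ • F t + (γ : ℂ) • U t) : H N))
    hP hA hS1 hS2 hS3 (cont_four hUc) (cont_four hGhc) hD
  refine ⟨fun t => ((Real.exp (-(γ * t)) : ℝ) : ℂ) • U t,
    fun t => ((Real.exp (-((α + 1) * γ * t)) : ℝ) : ℂ) • F t, ?_, ?_, cont_exp _ hUc,
    cont_exp _ hFc, ?_⟩
  · intro t ht
    filter_upwards [hU t ht, coe_smul' ((Real.exp (-(γ * t)) : ℝ) : ℂ) (U t)] with x e1 e2
    rw [e2, e1]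
  · intro t ht
    filter_upwards [hU t ht, hF t ht, coe_smul' ((Real.exp (-(γ * t)) : ℝ) : ℂ) (U t),
      coe_smul' ((Real.exp (-((α + 1) * γ * t)) : ℝ) : ℂ) (F t)] with x e1 e2 e3 e4
    rw [e3, e4, e1, e2, norm_mul,
      Complex.norm_real, Real.norm_eq_abs, abs_of_pos (Real.exp_pos _),
      Real.mul_rpow (Real.exp_pos _).le (norm_nonneg _), ← Real.exp_mul]
    have : Real.exp (-((α + 1) * γ * t)) = Real.exp (-(γ * t) * α) * Real.exp (-(γ * t)) := by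
      rw [← Real.exp_add]
      congr 1
      ring
    rw [this]
    push_cast
    ring
  · intro n t ht
    have hd := hd_of (hO n t ht)
    simp only [four_add, four_smul] at hd
    simp only [four_smul]
    exact ode_transform (P n) (A n) (fun s => (𝓕 (U s) : H N)) (fun s => (𝓕 (F s) : H N))
      (zc θ) α γ t hd

theorem ini_le {N : ℕ} (A : ℕ → H N →L[ℂ] H N)
    (hA : ∀ n f, ∀ᵐ ξ, (A n f) ξ = if aa ξ ≤ n then ((aa ξ : ℝ) : ℂ) * f ξ else 0) (f : H N)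
    (hf : Integrable (fun ξ : E N => ‖ξ‖ ^ 2 * ‖f ξ‖ ^ 2) volume) (n : ℕ) :
    (inner ℂ (A n f) f).re ≤ ∫ ξ : E N, aa ξ * ‖f ξ‖ ^ 2 := by
  have haa : ∀ ξ : E N, 0 ≤ aa ξ := fun ξ => by unfold aa; positivity
  have h1 : inner ℂ (A n f) f =
      ((∫ ξ : E N, (if aa ξ ≤ n then aa ξ * ‖f ξ‖ ^ 2 else 0) : ℝ) : ℂ) := by
    rw [L2.inner_def, ← integral_complex_ofReal]
    refine integral_congr_ae ?_
    filter_upwards [hA n f] with ξ h
    rw [h]
    split_ifs with h2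
    · rw [RCLike.inner_apply, map_mul, Complex.conj_ofReal]
      have : f ξ * (starRingEnd ℂ) (f ξ) = ((‖f ξ‖ ^ 2 : ℝ) : ℂ) := by
        rw [Complex.mul_conj, Complex.normSq_eq_norm_sq]
      push_cast at this ⊢
      linear_combination ((aa ξ : ℝ) : ℂ) * this
    · simp
  rw [h1, Complex.ofReal_re]
  have hint : Integrable (fun ξ : E N => aa ξ * ‖f ξ‖ ^ 2) volume := by
    have := hf.const_mul (4 * Real.pi ^ 2)
    refine this.congr (Eventually.of_forall fun ξ => ?_)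
    simp only [aa]
    ring
  refine integral_mono_of_nonneg (Eventually.of_forall fun ξ => ?_) hint
    (Eventually.of_forall fun ξ => ?_)
  · simp only [Pi.zero_apply]
    split_ifs
    · have := haa ξ; positivity
    · exact le_rfl
  · simp only
    split_ifs
    · exact le_rfl
    · have := haa ξ; positivity

theorem inner_four {N : ℕ} (f g : H N) :
    inner ℂ (𝓕 f : H N) (𝓕 g : H N) = inner ℂ f g :=
  (MeasureTheory.Lp.fourierTransformₗᵢ (E N) ℂ).inner_map_map f g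

theorem norm_four {N : ℕ} (f : H N) : ‖(𝓕 f : H N)‖ = ‖f‖ :=
  (MeasureTheory.Lp.fourierTransformₗᵢ (E N) ℂ).norm_map f

theorem four_sub {N : ℕ} (f g : H N) : (𝓕 (f - g) : H N) = (𝓕 f : H N) - (𝓕 g : H N) :=
  (MeasureTheory.Lp.fourierTransformₗᵢ (E N) ℂ).map_sub f g

/-- construction of the abstract evolution -/
theorem isEvol_of (hK9 : S_K9) {N : ℕ} (P A : ℕ → H N →L[ℂ] H N)
    (hA : ∀ n f, ∀ᵐ ξ, (A n f) ξ = if aa ξ ≤ n then ((aa ξ : ℝ) : ℂ) * f ξ else 0)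
    (θ α γ T : ℝ) (u : ℝ → C₀(E N, ℂ)) (h0 : 0 ≤ θ) (h1 : θ < Real.pi / 2)
    (hα : 0 < α) (hγ : 0 ≤ γ) (W k : ℝ → H N) (W0 : H N)
    (hI : Integrable (fun ξ : E N => ‖ξ‖ ^ 2 * ‖(𝓕 W0 : H N) ξ‖ ^ 2) volume) (hW0 : W 0 = W0)
    (hW : ∀ t ∈ Ico 0 T, ∀ᵐ x, W t x = ((Real.exp (-(γ * t)) : ℝ) : ℂ) * u t x)
    (hk : ∀ t ∈ Ico 0 T, ∀ᵐ x, k t x = ((‖W t x‖ ^ α : ℝ) : ℂ) * W t x)
    (hWc : ContinuousOn W (Ico 0 T)) (hkc : ContinuousOn k (Ico 0 T))
    (hd : ∀ n, ∀ t ∈ Ioo 0 T, HD (fun s => P n (𝓕 (W s) : H N))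
        (zc θ • (-(A n (𝓕 (W t) : H N)) +
          ((Real.exp (α * γ * t) : ℝ) : ℂ) • P n (𝓕 (k t) : H N))) t) :
    IsEvol P A (zc θ) α γ T (∫ ξ : E N, aa ξ * ‖(𝓕 W0 : H N) ξ‖ ^ 2)
      (fun t => (𝓕 (W t) : H N)) (fun t => (𝓕 (k t) : H N))
      (fun t => (∫ x, ‖W t x‖ ^ (α + 2)) / (α + 2)) ∧
    ∀ t ∈ Ico 0 T, Integrable (fun x => ‖W t x‖ ^ (α + 2)) (volume : Measure (E N)) := by
  have hb : ∀ t ∈ Ico 0 T, ∀ᵐ x, ‖W t x‖ ≤ ‖u t‖ := by
    intro t ht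
    filter_upwards [hW t ht] with x hx
    rw [hx, norm_mul, Complex.norm_real, Real.norm_eq_abs, abs_of_pos (Real.exp_pos _)]
    have h3 : Real.exp (-(γ * t)) ≤ 1 := by
      rw [Real.exp_le_one_iff]
      have := mul_nonneg hγ ht.1
      linarith
    have h4 : ‖u t x‖ ≤ ‖u t‖ := by
      have := (u t).toBCF.norm_coe_le_norm x
      simpa using this
    calc Real.exp (-(γ * t)) * ‖u t x‖ ≤ 1 * ‖u t‖ :=
          mul_le_mul h3 h4 (norm_nonneg _) zero_le_one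
      _ = ‖u t‖ := one_mul _
  have h9 := fun t (ht : t ∈ Ico 0 T) => hK9 α ‖u t‖ (W t) (k t) hα (hb t ht) (hk t ht)
  refine ⟨⟨zc_norm θ, ?_, hα, hγ, cont_four hWc, cont_four hkc, ?_, ?_, ?_, hd, ?_⟩,
    fun t ht => (h9 t ht).1⟩
  · rw [zc_re]
    exact Real.cos_pos_of_mem_Ioo ⟨by linarith [Real.pi_pos], h1⟩
  · intro t _
    have : 0 ≤ ∫ x, ‖W t x‖ ^ (α + 2) := integral_nonneg fun x => by positivity
    positivity
  · intro t ht
    rw [inner_four, (h9 t ht).2.1]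
    congr 1
    field_simp
  · intro s hs t ht
    rw [← four_sub, inner_four]
    exact (h9 s hs).2.2.2 (W t) (h9 t ht).1
  · intro n
    rw [hW0]
    exact ini_le A hA _ hI n

/-- the main theorem, from the pieces -/
theorem main_of (hE : S_E.{0}) (hN : S_N.{0}) (hF : S_F.{0}) (hCl : S_CLOSE.{0})
    (hYb : S_YB.{0}) (hTR : S_TR) (hSG : S_SG) (hK3 : S_K3) (hKC : S_KC) (hK5 : S_K5)
    (hK6 : S_K6) (hK8 : S_K8) (hK9 : S_K9) (hPLB : S_PLB)
    {N : ℕ} (α θ : ℝ) (hα : 0 < α) (h0 : 0 ≤ θ) (h1 : θ < Real.pi / 2)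
    (u0 : C₀(E N, ℂ)) (hu0 : u0 ≠ 0) (hH1 : MemH1 (fun x => u0 x)) :
    ∃ γ0 : ℝ, 0 < γ0 ∧ ∀ γ : ℝ, γ0 < γ → ∃ B : ℝ, ∀ T : ℝ, 0 < T →
      (∃ u, IsMild θ α γ T u0 u) → T ≤ B := by
  obtain ⟨h2, hI⟩ := hH1
  set W0 : H N := h2.toLp (fun x => u0 x) with hW0def
  have hW0 : W0 ≠ 0 := by
    intro h
    have hae : (fun x => u0 x) =ᵐ[volume] fun _ => (0 : ℂ) := by
      have e1 := h2.coeFn_toLp
      have e2 := Lp.coeFn_zero (E := ℂ) (p := 2) (μ := (volume : Measure (E N)))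
      rw [← hW0def, h] at e1
      filter_upwards [e1, e2] with x h3 h4
      rw [← h3, h4]
      rfl
    have hc : Continuous (fun x => u0 x) := u0.continuous
    have := (hc.ae_eq_iff_eq (volume : Measure (E N)) continuous_const).1 hae
    apply hu0
    ext x
    exact congrFun this x
  obtain ⟨P, A, hPA, hP, hA⟩ := hTR N
  obtain ⟨β, p1, hβ, hp1, hlow⟩ := hPLB α W0 hα hW0
  set a0 : ℝ := ∫ ξ : E N, aa ξ * ‖(𝓕 W0 : H N) ξ‖ ^ 2 with ha0
  have ha0n : 0 ≤ a0 := integral_nonneg fun ξ => by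
    have : 0 ≤ aa ξ := by unfold aa; positivity
    positivity
  set κ : ℝ := (zc θ).re with hκ
  have hκpos : 0 < κ := by
    rw [hκ, zc_re]
    exact Real.cos_pos_of_mem_Ioo ⟨by linarith [Real.pi_pos], h1⟩
  set K : ℝ := ((1 + a0 / 2) / p1) / α + 1 with hK
  have hKpos : 0 < K := by positivity
  have hexpK : 1 + a0 / 2 ≤ p1 * (Real.exp (α * K) - 1) := by
    have h3 : α * K + 1 ≤ Real.exp (α * K) := Real.add_one_le_exp _
    have h4 : (1 + a0 / 2) / p1 ≤ α * K := by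
      rw [hK, mul_add, mul_div_cancel₀ _ hα.ne']
      linarith
    have h5 : 1 + a0 / 2 ≤ p1 * (α * K) := by
      rw [div_le_iff₀ hp1] at h4
      linarith
    have h6 : p1 * (α * K) ≤ p1 * (Real.exp (α * K) - 1) :=
      mul_le_mul_of_nonneg_left (by linarith) hp1.le
    linarith
  obtain ⟨M, g0, hM, hg0, hb⟩ := hK8 θ α K u0 h0 h1 hα hKpos
  set L : ℝ := Real.exp (α * K) * M ^ α with hL
  have hLpos : 0 < L := by positivity
  set Y : ℝ := Real.exp L * ‖W0‖ with hY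
  have hYn : 0 ≤ Y := by positivity
  set B : ℝ := L * Y with hB
  have hBn : 0 ≤ B := by positivity
  set Q : ℝ := a0 / (2 * κ) + 4 * Y * B with hQ
  have hQn : 0 ≤ Q := by positivity
  refine ⟨max g0 (max K (K * Q / β ^ 2)), lt_max_of_lt_left hg0, fun γ hγ =>
    ⟨K / γ + Y ^ 2 / (κ * α * (α + 2)), fun T hT ⟨u, hu⟩ => ?_⟩⟩
  have hγ1 : g0 < γ := lt_of_le_of_lt (le_max_left _ _) hγ
  have hγ2 : K < γ := lt_of_le_of_lt ((le_max_left _ _).trans (le_max_right _ _)) hγ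
  have hγ3 : K * Q / β ^ 2 < γ := lt_of_le_of_lt ((le_max_right _ _).trans (le_max_right _ _)) hγ
  have hγpos : 0 < γ := hg0.trans hγ1
  have hadd : 0 ≤ Y ^ 2 / (κ * α * (α + 2)) := by positivity
  rcases le_or_gt T (K / γ) with hTK | hTK
  · linarith
  set t1 : ℝ := K / γ with ht1
  have ht1pos : 0 < t1 := by positivity
  have ht11 : t1 ≤ 1 := by
    rw [ht1, div_le_one hγpos]
    exact hγ2.le
  have hγt1 : γ * t1 = K := by rw [ht1]; field_simp
  obtain ⟨W, k, hW, hk, hWc, hkc, hd⟩ := evol_of_mild hSG hK3 hKC hK5 hK6 P A hP hA θ α γ T u0 u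
    h0 h1 hα hγpos.le hT hu h2
  have h0T : (0 : ℝ) ∈ Ico 0 T := ⟨le_rfl, hT⟩
  have hW00 : W 0 = W0 := by
    apply Lp.ext
    filter_upwards [hW 0 h0T, h2.coeFn_toLp] with x e1 e2
    rw [e1, hW0def, e2, hu.eq 0 h0T x]
    simp [Tsg]
  obtain ⟨hEv, hint⟩ := isEvol_of hK9 P A hA θ α γ T u h0 h1 hα hγpos.le W k W0 hI hW00 hW hk
    hWc hkc hd
  have hsub : ∀ s, 0 ≤ s → s ≤ t1 → s ∈ Ico 0 T := fun s hs0 hs1 => ⟨hs0, hs1.trans_lt hTK⟩
  have hkb : ∀ s, 0 ≤ s → s ≤ t1 →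
      Real.exp (α * γ * s) * ‖(𝓕 (k s) : H N)‖ ≤ L * ‖(𝓕 (W s) : H N)‖ := by
    intro s hs0 hs1
    have hs := hsub s hs0 hs1
    have hbs : ∀ᵐ x, ‖W s x‖ ≤ M := by
      filter_upwards [hW s hs] with x hx
      rw [hx, norm_mul, Complex.norm_real, Real.norm_eq_abs, abs_of_pos (Real.exp_pos _)]
      have h3 : Real.exp (-(γ * s)) ≤ 1 := by
        rw [Real.exp_le_one_iff]
        have := mul_nonneg hγpos.le hs.1
        linarith
      have h4 : ‖u s x‖ ≤ ‖u s‖ := by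
        have := (u s).toBCF.norm_coe_le_norm x
        simpa using this
      have h5 : ‖u s‖ ≤ M := hb γ T u hγ1 hu s hs0 hs.2 hs1
      calc Real.exp (-(γ * s)) * ‖u s x‖ ≤ 1 * M :=
            mul_le_mul h3 (h4.trans h5) (norm_nonneg _) zero_le_one
        _ = M := one_mul _
    have h9 := (hK9 α M (W s) (k s) hα hbs (hk s hs)).2.2.1
    rw [norm_four, norm_four, hL]
    have h6 : Real.exp (α * γ * s) ≤ Real.exp (α * K) := by
      apply Real.exp_le_exp.2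
      rw [mul_assoc]
      apply mul_le_mul_of_nonneg_left _ hα.le
      rw [← hγt1]
      exact mul_le_mul_of_nonneg_left hs1 hγpos.le
    calc Real.exp (α * γ * s) * ‖k s‖ ≤ Real.exp (α * K) * (M ^ α * ‖W s‖) :=
          mul_le_mul h6 h9 (norm_nonneg _) (Real.exp_pos _).le
      _ = _ := by ring
  have hYb' : ∀ s, 0 ≤ s → s ≤ t1 → ‖(𝓕 (W s) : H N)‖ ≤ Y := by
    intro s hs0 hs1
    have h3 := hYb P A (zc θ) α γ T a0 _ _ _ hPA hEv s L hs0 (hsub s hs0 hs1).2 hLpos.le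
      (fun r hr0 hr1 => hkb r hr0 (hr1.trans hs1))
    refine h3.trans ?_
    rw [hW00, norm_four, hY]
    have : L * s ≤ L := by
      have := mul_le_mul_of_nonneg_left (hs1.trans ht11) hLpos.le
      linarith
    gcongr
  have hp : ∀ s, 0 ≤ s → s ≤ t1 → p1 ≤ (∫ x, ‖W s x‖ ^ (α + 2)) / (α + 2) := by
    intro s hs0 hs1
    refine hlow (W s) ?_ (hint s (hsub s hs0 hs1))
    have h3 := hCl P A (zc θ) α γ T a0 _ _ _ hPA hEv s Y B hs0 (hsub s hs0 hs1).2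
      (fun r hr0 hr1 => ⟨hYb' r hr0 (hr1.trans hs1), (hkb r hr0 (hr1.trans hs1)).trans
        (mul_le_mul_of_nonneg_left (hYb' r hr0 (hr1.trans hs1)) hLpos.le)⟩)
    rw [← four_sub, norm_four, hW00] at h3
    have h4 : s * Q ≤ β ^ 2 := by
      have h5 : t1 * Q ≤ β ^ 2 := by
        rw [div_lt_iff₀ (by positivity)] at hγ3
        rw [ht1, div_mul_eq_mul_div, div_le_iff₀ hγpos]
        linarith
      exact (mul_le_mul_of_nonneg_right hs1 hQn).trans h5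
    exact le_of_sq_le_sq (h3.trans h4) hβ.le
  obtain ⟨C, hC⟩ := (hE P A (zc θ) α γ T a0 _ _ _ hPA hEv).1 t1 ht1pos.le hTK
  have hpc := (hN P A (zc θ) α γ T a0 _ _ _ hPA hEv 0 t1 le_rfl ht1pos.le hTK
    ⟨C, fun r hr0 hr1 n => hC r hr0 hr1 n⟩).2.1
  have hsubset : Icc 0 t1 ⊆ Ico 0 T := fun s hs => hsub s hs.1 hs.2
  have hintexp : ∫ s in (0 : ℝ)..t1, Real.exp (α * γ * s) * p1 =
      p1 * (Real.exp (α * K) - 1) / (α * γ) := by
    have hαγ : α * γ ≠ 0 := by positivity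
    have hder : ∀ s ∈ uIcc (0 : ℝ) t1,
        HasDerivAt (fun s : ℝ => p1 * Real.exp (α * γ * s) / (α * γ))
          (Real.exp (α * γ * s) * p1) s := by
      intro s _
      have h3 : HasDerivAt (fun s : ℝ => (α * γ) * s) (α * γ * 1) s :=
        (hasDerivAt_id s).const_mul (α * γ)
      have h4 := (h3.exp.const_mul p1).div_const (α * γ)
      refine h4.congr_deriv ?_
      field_simp
    rw [intervalIntegral.integral_eq_sub_of_hasDerivAt hder
      ((by fun_prop : Continuous fun s : ℝ => Real.exp (α * γ * s) * p1).intervalIntegrable _ _)]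
    have h5 : α * γ * t1 = α * K := by rw [mul_assoc, hγt1]
    rw [h5, mul_zero, Real.exp_zero]
    ring
  have hlower : p1 * (Real.exp (α * K) - 1) ≤ α * γ *
      ∫ s in (0 : ℝ)..t1, Real.exp (α * γ * s) * ((∫ x, ‖W s x‖ ^ (α + 2)) / (α + 2)) := by
    have h3 : ∫ s in (0 : ℝ)..t1, Real.exp (α * γ * s) * p1 ≤
        ∫ s in (0 : ℝ)..t1, Real.exp (α * γ * s) * ((∫ x, ‖W s x‖ ^ (α + 2)) / (α + 2)) := by
      refine intervalIntegral.integral_mono_on ht1pos.le ?_ ?_ ?_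
      · exact (by fun_prop : Continuous fun s : ℝ => Real.exp (α * γ * s) * p1).intervalIntegrable _ _
      · refine ContinuousOn.intervalIntegrable ?_
        rw [uIcc_of_le ht1pos.le]
        refine ContinuousOn.mul ?_ (hpc.mono hsubset)
        exact (by fun_prop : Continuous fun s : ℝ => Real.exp (α * γ * s)).continuousOn
      · intro s hs
        exact mul_le_mul_of_nonneg_left (hp s hs.1 hs.2) (Real.exp_pos _).le
    rw [hintexp, div_le_iff₀ (by positivity)] at h3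
    linarith
  have hfin := hF P A (zc θ) α γ T a0 _ _ _ hPA hEv t1 1 ht1pos.le hTK one_pos (by linarith)
  have hfin2 : κ * α * (α + 2) * (T - t1) ≤ Y ^ 2 := by
    have h3 : ‖(𝓕 (W t1) : H N)‖ ^ 2 ≤ Y ^ 2 :=
      pow_le_pow_left₀ (norm_nonneg _) (hYb' t1 ht1pos.le le_rfl) 2
    simp only [mul_one] at hfin
    exact hfin.trans h3
  have : T - t1 ≤ Y ^ 2 / (κ * α * (α + 2)) := by
    rw [le_div_iff₀ (by positivity)]
    linarith
  linarith

end Pool.Agent.R228.GL
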