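import Pool.Agent.R228.GL.Stm

/-!
# GL-N: the identity for the square of the norm (helper278)
-/

universe u

namespace Pool.Agent.R228.GL

open MeasureTheory Filter Set
open scoped ENNReal Topology

namespace NrmAux

variable {G : Type u} [NormedAddCommGroup G] [InnerProductSpace ℂ G]
  {P A : ℕ → G →L[ℂ] G} {z : ℂ} {α γ T a0 : ℝ} {w k : ℝ → G} {p : ℝ → ℝ}

theorem p_cont (hE : IsEvol P A z α γ T a0 w k p) : ContinuousOn p (Ico 0 T) := by
  intro x hx
  rw [ContinuousWithinAt, tendsto_iff_dist_tendsto_zero]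
  have hlim : Tendsto (fun y => (‖k x‖ + ‖k y‖) * ‖w y - w x‖) (𝓝[Ico 0 T] x) (𝓝 0) := by
    have h0 : ContinuousWithinAt (fun y => (‖k x‖ + ‖k y‖) * ‖w y - w x‖) (Ico 0 T) x :=
      (continuousWithinAt_const.add (hE.ck x hx).norm).mul
        ((hE.cw x hx).sub continuousWithinAt_const).norm
    have h1 : Tendsto (fun y => (‖k x‖ + ‖k y‖) * ‖w y - w x‖) (𝓝[Ico 0 T] x)
        (𝓝 ((‖k x‖ + ‖k x‖) * ‖w x - w x‖)) := h0
    simpa using h1
  refine squeeze_zero' (Eventually.of_forall fun _ => dist_nonneg) ?_ hlim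
  filter_upwards [self_mem_nhdsWithin] with y hy
  rw [Real.dist_eq, abs_le]
  have h1 := hE.conv x hx y hy
  have h2 := hE.conv y hy x hx
  have h3 : |(inner ℂ (k x) (w y - w x)).re| ≤ ‖k x‖ * ‖w y - w x‖ :=
    (Complex.abs_re_le_norm _).trans (norm_inner_le_norm _ _)
  have h4 : |(inner ℂ (k y) (w x - w y)).re| ≤ ‖k y‖ * ‖w x - w y‖ :=
    (Complex.abs_re_le_norm _).trans (norm_inner_le_norm _ _)
  rw [norm_sub_rev (w x)] at h4
  have h5 := abs_le.1 h3
  have h6 := abs_le.1 h4
  have h7 := mul_nonneg (norm_nonneg (k x)) (norm_nonneg (w y - w x))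
  have h8 := mul_nonneg (norm_nonneg (k y)) (norm_nonneg (w y - w x))
  rw [add_mul]
  constructor <;> linarith [h5.1, h6.1, h5.2, h6.2]

theorem inner_A (hT : IsTrunc P A) (n : ℕ) (x : G) :
    inner ℂ (A n x) x = ((inner ℂ (A n x) x).re : ℂ) := by
  have h : (starRingEnd ℂ) (inner ℂ (A n x) x) = inner ℂ (A n x) x := by
    rw [inner_conj_symm, ← hT.symA]
  exact (Complex.conj_eq_iff_re.1 h).symm

theorem re_inner_dw (hT : IsTrunc P A) (n : ℕ) (r : ℝ) :
    (inner ℂ (P n (w r)) (dw P A z α γ w k n r)).re =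
      -(z.re * an A w n r) + Real.exp (α * γ * r) * (z * inner ℂ (P n (w r)) (k r)).re := by
  unfold dw an
  rw [inner_smul_right, inner_add_right, inner_neg_right, inner_smul_right]
  have h1 : inner ℂ (P n (w r)) (A n (w r)) = ((inner ℂ (A n (w r)) (w r)).re : ℂ) := by
    rw [← hT.symA, hT.AP]
    exact inner_A hT n _
  have h2 : inner ℂ (P n (w r)) (P n (k r)) = inner ℂ (P n (w r)) (k r) := by
    rw [← hT.symP, hT.idem]
  rw [h1, h2]
  simp only [Complex.mul_re, Complex.add_re, Complex.neg_re, Complex.ofReal_re, Complex.add_im,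
    Complex.neg_im, Complex.ofReal_im, Complex.mul_im]
  ring

/-- the integrand -/
noncomputable def Fn (P A : ℕ → G →L[ℂ] G) (z : ℂ) (α γ : ℝ) (w k : ℝ → G) (n : ℕ) (r : ℝ) : ℝ :=
  2 * (-(z.re * an A w n r) + Real.exp (α * γ * r) * (z * inner ℂ (P n (w r)) (k r)).re)

theorem cont_an (hE : IsEvol P A z α γ T a0 w k p) (n : ℕ) :
    ContinuousOn (an A w n) (Ico 0 T) := by
  unfold an
  have h1 : ContinuousOn (fun r => A n (w r)) (Ico 0 T) := (A n).continuous.comp_continuousOn hE.cw
  exact Complex.continuous_re.comp_continuousOn (ContinuousOn.inner (𝕜 := ℂ) h1 hE.cw)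

theorem cont_Fn (hE : IsEvol P A z α γ T a0 w k p) (n : ℕ) :
    ContinuousOn (Fn P A z α γ w k n) (Ico 0 T) := by
  unfold Fn
  have h1 : ContinuousOn (fun r => P n (w r)) (Ico 0 T) := (P n).continuous.comp_continuousOn hE.cw
  have h2 : ContinuousOn (fun r => (z * inner ℂ (P n (w r)) (k r)).re) (Ico 0 T) :=
    Complex.continuous_re.comp_continuousOn
      (continuousOn_const.mul (ContinuousOn.inner (𝕜 := ℂ) h1 hE.ck))
  have h3 : ContinuousOn (fun r => Real.exp (α * γ * r)) (Ico 0 T) := by fun_prop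
  exact continuousOn_const.mul
    (((continuousOn_const.mul (cont_an hE n)).neg).add (h3.mul h2))

theorem hasDeriv (hT : IsTrunc P A) (hE : IsEvol P A z α γ T a0 w k p) (n : ℕ) {r : ℝ}
    (hr : r ∈ Ioo 0 T) : HasDerivAt (fun r => ‖P n (w r)‖ ^ 2) (Fn P A z α γ w k n r) r := by
  have h1 := (hE.ode n r hr)
  have h2 := HasDerivAt.inner ℂ h1 h1
  have h3 := Complex.reCLM.hasFDerivAt.comp_hasDerivAt r h2
  have h4 : (fun r => ‖P n (w r)‖ ^ 2) = fun r => (inner ℂ (P n (w r)) (P n (w r))).re := by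
    funext r
    rw [← inner_self_eq_norm_sq (𝕜 := ℂ)]
    rfl
  rw [h4]
  refine h3.congr_deriv ?_
  have h5 := re_inner_dw (z := z) (α := α) (γ := γ) (w := w) (k := k) hT n r
  have h6 : (inner ℂ (dw P A z α γ w k n r) (P n (w r))).re =
      (inner ℂ (P n (w r)) (dw P A z α γ w k n r)).re := by
    rw [← inner_conj_symm, Complex.conj_re]
  unfold Fn
  rw [← h5]
  change (inner ℂ (P n (w r)) (dw P A z α γ w k n r) +
    inner ℂ (dw P A z α γ w k n r) (P n (w r))).re = _
  rw [Complex.add_re, h6]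
  ring

theorem ftc (hT : IsTrunc P A) (hE : IsEvol P A z α γ T a0 w k p) (n : ℕ) {s t : ℝ}
    (hs : 0 ≤ s) (hst : s ≤ t) (ht : t < T) :
    ∫ r in s..t, Fn P A z α γ w k n r = ‖P n (w t)‖ ^ 2 - ‖P n (w s)‖ ^ 2 := by
  have hsub : Icc s t ⊆ Ico 0 T := fun x hx => ⟨hs.trans hx.1, hx.2.trans_lt ht⟩
  refine intervalIntegral.integral_eq_sub_of_hasDerivAt_of_le
    (f := fun r => ‖P n (w r)‖ ^ 2) hst ?_ ?_ ?_
  · exact ((((P n).continuous.comp_continuousOn hE.cw).norm).pow 2).mono hsub
  · intro x hx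
    exact hasDeriv hT hE n ⟨hs.trans_lt hx.1, hx.2.trans ht⟩
  · exact ((cont_Fn hE n).mono hsub).intervalIntegrable_of_Icc hst

end NrmAux

open NrmAux

theorem nrm : S_N.{u} := by
  intro G _ _ _ P A z α γ T a0 w k p hT hE s t hs hst ht hC
  obtain ⟨C, hC⟩ := hC
  have hsub : Icc s t ⊆ Ico 0 T := fun x hx => ⟨hs.trans hx.1, hx.2.trans_lt ht⟩
  have hIoc : uIoc s t = Ioc s t := uIoc_of_le hst
  have hp := p_cont hE
  -- monotone convergence of `an`
  have hmono : ∀ r, Monotone (fun n => an A w n r) := fun r n m hnm => hT.mono n m _ hnm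
  have hlimA : ∀ r, 0 ≤ r → r ≤ t → Tendsto (fun n => an A w n r) atTop (𝓝 (aS A w r)) := by
    intro r hr hrt
    exact tendsto_atTop_ciSup (hmono r) ⟨C, by rintro _ ⟨n, rfl⟩; exact hC r hr hrt n⟩
  have hC0 : 0 ≤ C := (hT.nonneg 0 (w 0)).trans (hC 0 le_rfl (hs.trans hst) 0)
  have hmeasA : AEStronglyMeasurable (aS A w) (volume.restrict (uIoc s t)) := by
    refine aestronglyMeasurable_of_tendsto_ae (u := atTop) (f := fun n => an A w n) ?_ ?_
    · intro n
      refine (((cont_an hE n).mono hsub).mono ?_).aestronglyMeasurable measurableSet_uIoc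
      rw [hIoc]
      exact Ioc_subset_Icc_self
    · rw [hIoc]
      refine (ae_restrict_iff' measurableSet_Ioc).2 (Eventually.of_forall fun r hr => ?_)
      exact hlimA r (hs.trans hr.1.le) hr.2
  have hintA : IntervalIntegrable (aS A w) volume s t := by
    rw [intervalIntegrable_iff]
    rw [hIoc] at hmeasA ⊢
    refine Integrable.of_bound hmeasA C ?_
    · refine (ae_restrict_iff' measurableSet_Ioc).2 (Eventually.of_forall fun r hr => ?_)
      have h1 := hlimA r (hs.trans hr.1.le) hr.2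
      have h2 : 0 ≤ aS A w r := ge_of_tendsto' h1 fun n => hT.nonneg n _
      have h3 : aS A w r ≤ C := le_of_tendsto' h1 fun n => hC r (hs.trans hr.1.le) hr.2 n
      rw [Real.norm_eq_abs, abs_of_nonneg h2]
      exact h3
  refine ⟨hintA, hp, ?_⟩
  -- the limit of the integrals
  have hbd : IntervalIntegrable (fun r => 2 * (z.re * C + Real.exp (α * γ * r) * (‖w r‖ * ‖k r‖)))
      volume s t := by
    refine ContinuousOn.intervalIntegrable_of_Icc hst ?_
    have h1 : ContinuousOn (fun r => Real.exp (α * γ * r)) (Icc s t) := by fun_prop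
    exact continuousOn_const.mul (continuousOn_const.add
      (h1.mul ((hE.cw.mono hsub).norm.mul (hE.ck.mono hsub).norm)))
  have hlim := intervalIntegral.tendsto_integral_filter_of_dominated_convergence
    (μ := volume) (a := s) (b := t) (l := atTop) (F := fun n r => Fn P A z α γ w k n r)
    (f := fun r => 2 * z.re * ((α + 2) * (Real.exp (α * γ * r) * p r) - aS A w r))
    (fun r => 2 * (z.re * C + Real.exp (α * γ * r) * (‖w r‖ * ‖k r‖)))
    (Eventually.of_forall fun n => by
      refine (((cont_Fn hE n).mono hsub).mono ?_).aestronglyMeasurable measurableSet_uIoc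
      rw [hIoc]
      exact Ioc_subset_Icc_self)
    (Eventually.of_forall fun n => Eventually.of_forall fun r hr => by
      rw [hIoc] at hr
      have h0 := hs.trans hr.1.le
      have h1 : 0 ≤ an A w n r := hT.nonneg n _
      have h2 := hC r h0 hr.2 n
      have hre := hE.hre
      have h3 : |(z * inner ℂ (P n (w r)) (k r)).re| ≤ ‖w r‖ * ‖k r‖ := by
        refine (Complex.abs_re_le_norm _).trans ?_
        rw [norm_mul, hE.hz, one_mul]
        refine (norm_inner_le_norm _ _).trans ?_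
        exact mul_le_mul_of_nonneg_right (hT.norm_le n _) (norm_nonneg _)
      unfold Fn
      rw [Real.norm_eq_abs, abs_mul, abs_two]
      refine mul_le_mul_of_nonneg_left ?_ (by norm_num)
      refine (abs_add_le _ _).trans (add_le_add ?_ ?_)
      · rw [abs_neg, abs_mul, abs_of_pos hre, abs_of_nonneg h1]
        exact mul_le_mul_of_nonneg_left h2 hre.le
      · rw [abs_mul, abs_of_pos (Real.exp_pos _)]
        exact mul_le_mul_of_nonneg_left h3 (Real.exp_pos _).le)
    hbd
    (Eventually.of_forall fun r hr => by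
      rw [hIoc] at hr
      have h0 := hs.trans hr.1.le
      have hrT : r ∈ Ico 0 T := ⟨h0, hr.2.trans_lt ht⟩
      have h1 := hlimA r h0 hr.2
      have h2 : Tendsto (fun n => (z * inner ℂ (P n (w r)) (k r)).re) atTop
          (𝓝 ((z * inner ℂ (w r) (k r)).re)) := by
        have h3 : Tendsto (fun n => inner ℂ (P n (w r)) (k r)) atTop (𝓝 (inner ℂ (w r) (k r))) :=
          (hT.tends (w r)).inner tendsto_const_nhds
        exact (Complex.continuous_re.tendsto _).comp (h3.const_mul z)
      have h4 : (z * inner ℂ (w r) (k r)).re = z.re * ((α + 2) * p r) := by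
        have h5 : inner ℂ (w r) (k r) = (((α + 2) * p r : ℝ) : ℂ) := by
          rw [← inner_conj_symm, hE.kw r hrT, Complex.conj_ofReal]
        rw [h5, Complex.mul_re, Complex.ofReal_re, Complex.ofReal_im]
        ring
      rw [h4] at h2
      have h6 := (((h1.const_mul z.re).neg).add (h2.const_mul (Real.exp (α * γ * r)))).const_mul 2
      have h7 : 2 * z.re * ((α + 2) * (Real.exp (α * γ * r) * p r) - aS A w r) =
          2 * (-(z.re * aS A w r) + Real.exp (α * γ * r) * (z.re * ((α + 2) * p r))) := by ring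
      rw [h7]
      exact h6)
  have hlim2 : Tendsto (fun n => ∫ r in s..t, Fn P A z α γ w k n r) atTop
      (𝓝 (‖w t‖ ^ 2 - ‖w s‖ ^ 2)) := by
    simp_rw [ftc hT hE _ hs hst ht]
    exact (((hT.tends _).norm).pow 2).sub (((hT.tends _).norm).pow 2)
  have h := tendsto_nhds_unique hlim2 hlim
  rw [h, intervalIntegral.integral_const_mul]

end Pool.Agent.R228.GL
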