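import Pool.Agent.R228.GL.Stm

/-!
# GL-PLB: lower bound for the potential near a nonzero function
-/

namespace Pool.Agent.R228.GL

open MeasureTheory Filter Set
open scoped ENNReal Topology

namespace PLB

variable {N : ℕ}

lemma nsq (W : H N) : ∫ x, ‖W x‖ ^ 2 = ‖W‖ ^ 2 := by
  have h := L2.inner_def (𝕜 := ℂ) W W
  have h2 : (inner ℂ W W : ℂ) = ((‖W‖ ^ 2 : ℝ) : ℂ) := by
    rw [inner_self_eq_norm_sq_to_K]
    norm_cast
  have h3 : (∫ a, (inner ℂ (W a) (W a) : ℂ)) = ((∫ a, ‖W a‖ ^ 2 : ℝ) : ℂ) := by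
    rw [← integral_complex_ofReal]
    refine integral_congr_ae (Eventually.of_forall fun a => ?_)
    simp only
    rw [inner_self_eq_norm_sq_to_K]
    norm_cast
  rw [h2, h3] at h
  exact_mod_cast h.symm

lemma int_sq (W : H N) : Integrable (fun x => ‖W x‖ ^ 2) (volume : Measure (E N)) :=
  (Lp.memLp W).norm.integrable_sq

lemma ball_pos (W : H N) (hW : W ≠ 0) :
    ∃ n : ℕ, 0 < ∫ x in Metric.closedBall (0 : E N) n, ‖W x‖ ^ 2 := by
  by_contra hcon
  push Not at hcon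
  have h1 := tendsto_setIntegral_of_monotone (μ := (volume : Measure (E N)))
    (s := fun n : ℕ => Metric.closedBall (0 : E N) n) (f := fun x => ‖W x‖ ^ 2)
    (fun n => Metric.isClosed_closedBall.measurableSet)
    (fun a b hab => Metric.closedBall_subset_closedBall (by exact_mod_cast hab))
    ((int_sq W).integrableOn)
  have h2 := le_of_tendsto' h1 hcon
  rw [Metric.iUnion_closedBall_nat, setIntegral_univ, nsq] at h2
  have h3 : 0 < ‖W‖ := norm_pos_iff.mpr hW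
  have h4 : 0 < ‖W‖ ^ 2 := by positivity
  linarith

lemma ptw (α s x : ℝ) (hα : 0 < α) (hs : 0 < s) (hx : 0 ≤ x) :
    x ^ 2 ≤ s ^ 2 + s ^ (-α) * x ^ (α + 2) := by
  have h0 : 0 ≤ s ^ (-α) * x ^ (α + 2) :=
    mul_nonneg (Real.rpow_nonneg hs.le _) (Real.rpow_nonneg hx _)
  rcases le_or_gt x s with h | h
  · nlinarith
  · have hx0 : 0 < x := lt_trans hs h
    have h1 : x ^ (α + 2) = x ^ α * x ^ 2 := by
      rw [Real.rpow_add hx0, Real.rpow_two]
    have h2 : s ^ (-α) * x ^ (α + 2) = (s ^ α)⁻¹ * x ^ α * x ^ 2 := by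
      rw [h1, Real.rpow_neg hs.le, mul_assoc]
    have h3 : s ^ α ≤ x ^ α := Real.rpow_le_rpow hs.le h.le hα.le
    have h4 : 0 < s ^ α := Real.rpow_pos_of_pos hs _
    have h5 : 1 ≤ (s ^ α)⁻¹ * x ^ α := by
      rw [inv_mul_eq_div, one_le_div h4]
      exact h3
    rw [h2]
    have h6 : x ^ 2 ≤ (s ^ α)⁻¹ * x ^ α * x ^ 2 := le_mul_of_one_le_left (by positivity) h5
    nlinarith [sq_nonneg s]

end PLB

open PLB in
/-- GL-PLB -/
theorem plb : S_PLB := by
  intro N α W0 hα hW0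
  obtain ⟨n, hn⟩ := ball_pos W0 hW0
  obtain ⟨B, hB⟩ : ∃ B : Set (E N), B = Metric.closedBall (0 : E N) n := ⟨_, rfl⟩
  rw [← hB] at hn
  obtain ⟨b2, hb2⟩ : ∃ b2 : ℝ, b2 = ∫ x in B, ‖W0 x‖ ^ 2 := ⟨_, rfl⟩
  rw [← hb2] at hn
  have hBfin : volume B < ∞ := by rw [hB]; exact measure_closedBall_lt_top
  obtain ⟨V, hV⟩ : ∃ V : ℝ, V = (volume : Measure (E N)).real B := ⟨_, rfl⟩
  have hV0 : 0 ≤ V := by rw [hV]; exact measureReal_nonneg
  obtain ⟨s, hs⟩ : ∃ s : ℝ, s = Real.sqrt (b2 / (8 * (V + 1))) := ⟨_, rfl⟩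
  have hs0 : 0 < s := by rw [hs]; positivity
  have hs2 : s ^ 2 * V ≤ b2 / 8 := by
    rw [hs, Real.sq_sqrt (by positivity)]
    have e : b2 / (8 * (V + 1)) * V = (b2 / 8) * (V / (V + 1)) := by field_simp
    rw [e]
    have h1 : V / (V + 1) ≤ 1 := by
      rw [div_le_one (by linarith)]
      linarith
    exact mul_le_of_le_one_right (by positivity) h1
  have hsa : 0 < s ^ α := Real.rpow_pos_of_pos hs0 _
  refine ⟨Real.sqrt (b2 / 4), s ^ α * (b2 / 8) / (α + 2), by positivity, by positivity, ?_⟩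
  intro W hW hint
  have hW2 : ‖W - W0‖ ^ 2 ≤ b2 / 4 := by
    have h1 : ‖W - W0‖ ^ 2 ≤ Real.sqrt (b2 / 4) ^ 2 :=
      pow_le_pow_left₀ (norm_nonneg _) hW 2
    rwa [Real.sq_sqrt (by positivity)] at h1
  -- step 1
  have hstep1 : b2 / 4 ≤ ∫ x in B, ‖W x‖ ^ 2 := by
    have h1 : ∫ x in B, ‖W0 x‖ ^ 2 ≤ ∫ x in B, (2 * ‖W x‖ ^ 2 + 2 * ‖(W - W0) x‖ ^ 2) := by
      refine integral_mono_ae (int_sq W0).integrableOn
        (((int_sq W).integrableOn.const_mul 2).add ((int_sq (W - W0)).integrableOn.const_mul 2)) ?_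
      filter_upwards [ae_restrict_of_ae (Lp.coeFn_sub W W0)] with x hx
      rw [hx]
      simp only [Pi.sub_apply]
      have h2 : ‖W0 x‖ ≤ ‖W x‖ + ‖W x - W0 x‖ := by
        have := norm_sub_le (W x) (W x - W0 x)
        rwa [sub_sub_cancel] at this
      have h3 : ‖W0 x‖ ^ 2 ≤ (‖W x‖ + ‖W x - W0 x‖) ^ 2 :=
        pow_le_pow_left₀ (norm_nonneg _) h2 2
      nlinarith [sq_nonneg (‖W x‖ - ‖W x - W0 x‖)]
    rw [integral_add ((int_sq W).integrableOn.const_mul 2)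
      ((int_sq (W - W0)).integrableOn.const_mul 2), integral_const_mul, integral_const_mul,
      ← hb2] at h1
    have h4 : ∫ x in B, ‖(W - W0) x‖ ^ 2 ≤ ∫ x, ‖(W - W0) x‖ ^ 2 :=
      setIntegral_le_integral (int_sq (W - W0)) (Eventually.of_forall fun x => by positivity)
    rw [nsq] at h4
    linarith
  -- step 2
  have hstep2 : ∫ x in B, ‖W x‖ ^ 2 ≤
      s ^ 2 * V + s ^ (-α) * ∫ x, ‖W x‖ ^ (α + 2) := by
    have hconst : IntegrableOn (fun _ : E N => s ^ 2) B := by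
      exact integrableOn_const hBfin.ne
    have h1 : ∫ x in B, ‖W x‖ ^ 2 ≤ ∫ x in B, (s ^ 2 + s ^ (-α) * ‖W x‖ ^ (α + 2)) := by
      refine integral_mono_ae (int_sq W).integrableOn
        (hconst.add (hint.integrableOn.const_mul _)) ?_
      exact Eventually.of_forall fun x => ptw α s _ hα hs0 (norm_nonneg _)
    rw [integral_add hconst (hint.integrableOn.const_mul _), integral_const_mul,
      setIntegral_const, smul_eq_mul, ← hV, mul_comm V] at h1
    have h4 : ∫ x in B, ‖W x‖ ^ (α + 2) ≤ ∫ x, ‖W x‖ ^ (α + 2) :=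
      setIntegral_le_integral hint
        (Eventually.of_forall fun x => Real.rpow_nonneg (norm_nonneg _) _)
    have h5 := mul_le_mul_of_nonneg_left h4 (Real.rpow_nonneg hs0.le (-α))
    linarith
  have h6 : b2 / 8 ≤ s ^ (-α) * ∫ x, ‖W x‖ ^ (α + 2) := by linarith
  have h7 : s ^ α * (b2 / 8) ≤ ∫ x, ‖W x‖ ^ (α + 2) := by
    have h8 := mul_le_mul_of_nonneg_left h6 hsa.le
    rwa [← mul_assoc, Real.rpow_neg hs0.le, mul_inv_cancel₀ hsa.ne', one_mul] at h8
  have hα2 : 0 < α + 2 := by linarith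
  exact div_le_div_of_nonneg_right h7 hα2.le

end Pool.Agent.R228.GL
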