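import Pool.Agent.R228.GL.Defs

/-!
# Complex Ginzburg-Landau equation: exact statements of the pieces
-/

universe u

namespace Pool.Agent.R228.GL

open MeasureTheory Filter Set
open scoped ENNReal Topology FourierTransform ZeroAtInfty

section abs

variable {G : Type*} [NormedAddCommGroup G] [InnerProductSpace ℂ G]

/-- derivative of `P n (w ·)` -/
noncomputable def dw (P A : ℕ → G →L[ℂ] G) (z : ℂ) (α γ : ℝ) (w k : ℝ → G) (n : ℕ) (r : ℝ) : G :=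
  z • (-(A n (w r)) + ((Real.exp (α * γ * r) : ℝ) : ℂ) • P n (k r))

/-- `⟨A_n w, w⟩` -/
noncomputable def an (A : ℕ → G →L[ℂ] G) (w : ℝ → G) (n : ℕ) (t : ℝ) : ℝ :=
  (inner ℂ (A n (w t)) (w t)).re

/-- `sup_n ⟨A_n w, w⟩` -/
noncomputable def aS (A : ℕ → G →L[ℂ] G) (w : ℝ → G) (t : ℝ) : ℝ := ⨆ n, an A w n t

/-- minus the energy -/
noncomputable def ee (A : ℕ → G →L[ℂ] G) (α γ : ℝ) (w : ℝ → G) (p : ℝ → ℝ) (t : ℝ) : ℝ :=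
  Real.exp (α * γ * t) * p t - aS A w t / 2

end abs

/-- GL-J: upper bound for the Stieltjes type integrals -/
def S_J : Prop :=
  ∀ {G : Type u} [NormedAddCommGroup G] [InnerProductSpace ℂ G] [CompleteSpace G]
    (P A : ℕ → G →L[ℂ] G) (z : ℂ) (α γ T a0 : ℝ) (w k : ℝ → G) (p : ℝ → ℝ), IsTrunc P A →
    IsEvol P A z α γ T a0 w k p → ∀ s t X : ℝ, 0 ≤ s → s ≤ t → t < T →
    (∀ n, ∫ r in s..t, ‖dw P A z α γ w k n r‖ ^ 2 ≤ X) → ∀ ε : ℝ, 0 < ε →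
    ∀ᶠ n in atTop, ∫ r in s..t,
        (inner ℂ (((Real.exp (α * γ * r) : ℝ) : ℂ) • k r) (dw P A z α γ w k n r)).re ≤
      Real.exp (α * γ * t) * p t - Real.exp (α * γ * s) * p s -
        α * γ * (∫ r in s..t, Real.exp (α * γ * r) * p r) + ε

/-- GL-E: energy inequality -/
def S_E : Prop :=
  ∀ {G : Type u} [NormedAddCommGroup G] [InnerProductSpace ℂ G] [CompleteSpace G]
    (P A : ℕ → G →L[ℂ] G) (z : ℂ) (α γ T a0 : ℝ) (w k : ℝ → G) (p : ℝ → ℝ), IsTrunc P A →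
    IsEvol P A z α γ T a0 w k p →
    (∀ t : ℝ, 0 ≤ t → t < T → ∃ C : ℝ, ∀ s, 0 ≤ s → s ≤ t → ∀ n, an A w n s ≤ C) ∧
    ∀ s t : ℝ, 0 ≤ s → s ≤ t → t < T → ∀ ε : ℝ, 0 < ε → ∀ᶠ n in atTop,
      z.re * (∫ r in s..t, ‖dw P A z α γ w k n r‖ ^ 2) +
        α * γ * (∫ r in s..t, Real.exp (α * γ * r) * p r) ≤
      ee A α γ w p t - ee A α γ w p s + ε

/-- GL-N: the identity for the square of the norm -/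
def S_N : Prop :=
  ∀ {G : Type u} [NormedAddCommGroup G] [InnerProductSpace ℂ G] [CompleteSpace G]
    (P A : ℕ → G →L[ℂ] G) (z : ℂ) (α γ T a0 : ℝ) (w k : ℝ → G) (p : ℝ → ℝ), IsTrunc P A →
    IsEvol P A z α γ T a0 w k p → ∀ s t : ℝ, 0 ≤ s → s ≤ t → t < T →
    (∃ C : ℝ, ∀ r, 0 ≤ r → r ≤ t → ∀ n, an A w n r ≤ C) →
    IntervalIntegrable (aS A w) volume s t ∧ ContinuousOn p (Ico 0 T) ∧
    ‖w t‖ ^ 2 - ‖w s‖ ^ 2 = 2 * z.re *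
      ∫ r in s..t, ((α + 2) * (Real.exp (α * γ * r) * p r) - aS A w r)

/-- GL-C: the differential inequalities of Levine in integrated form -/
def S_C : Prop :=
  ∀ {G : Type u} [NormedAddCommGroup G] [InnerProductSpace ℂ G] [CompleteSpace G]
    (P A : ℕ → G →L[ℂ] G) (z : ℂ) (α γ T a0 : ℝ) (w k : ℝ → G) (p : ℝ → ℝ), IsTrunc P A →
    IsEvol P A z α γ T a0 w k p → ∀ t1 : ℝ, 0 ≤ t1 → t1 < T → 0 < ee A α γ w p t1 →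
    (∀ t, t1 ≤ t → t < T → 0 < ‖w t‖) ∧
    ∀ s t : ℝ, t1 ≤ s → s ≤ t → t < T →
      ‖w s‖ ≤ ‖w t‖ ∧ ee A α γ w p s ≤ ee A α γ w p t ∧
      (α + 2) / 2 * ee A α γ w p s * (‖w t‖ ^ 2 - ‖w s‖ ^ 2) ≤
        (ee A α γ w p t - ee A α γ w p s) * ‖w t‖ ^ 2 ∧
      2 * z.re * (α + 2) * (∫ r in s..t, ee A α γ w p r) ≤ ‖w t‖ ^ 2 - ‖w s‖ ^ 2

/-- GL-RA: the blow-up lemma for real functions -/
def S_RA : Prop :=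
  ∀ (c C t1 T : ℝ) (y e : ℝ → ℝ), 1 < c → 0 < C → t1 < T →
    ContinuousOn y (Ico t1 T) → (∀ t ∈ Ico t1 T, 0 < y t) → 0 < e t1 →
    (∀ s t, t1 ≤ s → s ≤ t → t < T → y s ≤ y t ∧ e s ≤ e t ∧
      c * e s * (y t - y s) ≤ (e t - e s) * y t ∧ C * (∫ r in s..t, e r) ≤ y t - y s) →
    C * (c - 1) * e t1 * (T - t1) ≤ y t1

/-- GL-F: abstract blow-up theorem -/
def S_F : Prop :=
  ∀ {G : Type u} [NormedAddCommGroup G] [InnerProductSpace ℂ G] [CompleteSpace G]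
    (P A : ℕ → G →L[ℂ] G) (z : ℂ) (α γ T a0 : ℝ) (w k : ℝ → G) (p : ℝ → ℝ), IsTrunc P A →
    IsEvol P A z α γ T a0 w k p → ∀ t1 e1 : ℝ, 0 ≤ t1 → t1 < T → 0 < e1 →
    e1 ≤ α * γ * (∫ s in (0 : ℝ)..t1, Real.exp (α * γ * s) * p s) - a0 / 2 →
    z.re * α * (α + 2) * e1 * (T - t1) ≤ ‖w t1‖ ^ 2

/-- GL-CLOSE: `w` stays close to `w 0` -/
def S_CLOSE : Prop :=
  ∀ {G : Type u} [NormedAddCommGroup G] [InnerProductSpace ℂ G] [CompleteSpace G]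
    (P A : ℕ → G →L[ℂ] G) (z : ℂ) (α γ T a0 : ℝ) (w k : ℝ → G) (p : ℝ → ℝ), IsTrunc P A →
    IsEvol P A z α γ T a0 w k p → ∀ t Y B : ℝ, 0 ≤ t → t < T →
    (∀ s, 0 ≤ s → s ≤ t → ‖w s‖ ≤ Y ∧ Real.exp (α * γ * s) * ‖k s‖ ≤ B) →
    ‖w t - w 0‖ ^ 2 ≤ t * (a0 / (2 * z.re) + 4 * Y * B)

/-- GL-YB: exponential bound for `w` -/
def S_YB : Prop :=
  ∀ {G : Type u} [NormedAddCommGroup G] [InnerProductSpace ℂ G] [CompleteSpace G]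
    (P A : ℕ → G →L[ℂ] G) (z : ℂ) (α γ T a0 : ℝ) (w k : ℝ → G) (p : ℝ → ℝ), IsTrunc P A →
    IsEvol P A z α γ T a0 w k p → ∀ t L : ℝ, 0 ≤ t → t < T → 0 ≤ L →
    (∀ s, 0 ≤ s → s ≤ t → Real.exp (α * γ * s) * ‖k s‖ ≤ L * ‖w s‖) →
    ‖w t‖ ≤ Real.exp (L * t) * ‖w 0‖

/-- GL-K1: integral bounds for the kernel -/
def S_K1 : Prop :=
  ∀ (N : ℕ) (θ : ℝ), 0 ≤ θ → θ < Real.pi / 2 →
    (∃ c0 : ℝ, 1 ≤ c0 ∧ ∀ t : ℝ, 0 < t → Integrable (ker N θ t) ∧ ∫ x, ‖ker N θ t x‖ ≤ c0) ∧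
    ∀ T0 : ℝ, 0 < T0 → ∃ C : ℝ, 0 < C ∧ ∀ t : ℝ, 0 < t → t ≤ T0 →
      ∫⁻ x, ENNReal.ofReal (‖ker N θ t x‖ * Real.exp ‖x‖) ≤ ENNReal.ofReal C

/-- GL-K2: the semigroup on `L²` in Fourier variables -/
def S_K2 : Prop :=
  ∀ (N : ℕ) (θ t : ℝ), 0 ≤ θ → θ < Real.pi / 2 → 0 < t → ∀ (g : E N → ℂ)
    (hg : MemLp g 2 (volume : Measure (E N))),
    ∃ F : H N, (∀ᵐ ξ, (𝓕 F : H N) ξ =
        Complex.exp (-(zc θ * (t : ℂ) * ((aa ξ : ℝ) : ℂ))) * (𝓕 (hg.toLp g) : H N) ξ) ∧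
      ∀ᵐ x, F x = ∫ y, ker N θ t (x - y) * g y

/-- GL-TR: concrete truncations -/
def S_TR : Prop :=
  ∀ N : ℕ, ∃ P A : ℕ → H N →L[ℂ] H N, IsTrunc P A ∧
    (∀ n f, ∀ᵐ ξ, (P n f) ξ = if aa ξ ≤ n then f ξ else 0) ∧
    (∀ n f, ∀ᵐ ξ, (A n f) ξ = if aa ξ ≤ n then ((aa ξ : ℝ) : ℂ) * f ξ else 0)

/-- GL-SG: concrete semigroup in Fourier variables -/
def S_SG : Prop :=
  ∀ (N : ℕ) (θ : ℝ), 0 ≤ θ → θ < Real.pi / 2 → ∃ S : ℝ → H N →L[ℂ] H N,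
    (∀ t, 0 ≤ t → ∀ f, ∀ᵐ ξ, (S t f) ξ =
      Complex.exp (-(zc θ * (t : ℂ) * ((aa ξ : ℝ) : ℂ))) * f ξ) ∧
    (∀ t, 0 ≤ t → ∀ f, ‖S t f‖ ≤ ‖f‖) ∧ ∀ f, ContinuousOn (fun t => S t f) (Ici 0)

/-- GL-K3A: weighted `L²` estimate for mild solutions -/
def S_K3A : Prop :=
  ∀ {N : ℕ} (θ α γ T : ℝ) (u0 : C₀(E N, ℂ)) (u : ℝ → C₀(E N, ℂ)), 0 ≤ θ → θ < Real.pi / 2 →
    0 < α → 0 ≤ γ → IsMild θ α γ T u0 u → ∀ T' : ℝ, 0 ≤ T' → T' < T →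
    ∃ C : ℝ, 0 < C ∧ ∀ ρ : E N → ℝ, Measurable ρ → (∀ x, 0 ≤ ρ x) → (∀ x, ρ x ≤ 1) →
      (∀ x y, ρ x ≤ Real.exp (‖x - y‖ / 2) * ρ y) → ∀ t ∈ Icc 0 T',
      ∫⁻ x, ENNReal.ofReal (ρ x * ‖u t x‖ ^ 2) ≤
        ENNReal.ofReal C * ∫⁻ x, ENNReal.ofReal (ρ x * ‖u0 x‖ ^ 2)

/-- GL-K3: mild solutions with initial value in `L²` are continuous with values in `L²` -/
def S_K3 : Prop :=
  ∀ {N : ℕ} (θ α γ T : ℝ) (u0 : C₀(E N, ℂ)) (u : ℝ → C₀(E N, ℂ)), 0 ≤ θ → θ < Real.pi / 2 →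
    0 < α → 0 ≤ γ → 0 < T → IsMild θ α γ T u0 u → MemLp (fun x => u0 x) 2 (volume : Measure (E N)) →
    ∃ U : ℝ → H N, (∀ t ∈ Ico 0 T, ∀ᵐ x, U t x = u t x) ∧ ContinuousOn U (Ico 0 T)

/-- GL-KC: the nonlinearity is continuous in `L²` -/
def S_KC : Prop :=
  ∀ {N : ℕ} (α T : ℝ) (u : ℝ → C₀(E N, ℂ)) (U : ℝ → H N), 0 < α → ContinuousOn u (Ico 0 T) →
    (∀ t ∈ Ico 0 T, ∀ᵐ x, U t x = u t x) → ContinuousOn U (Ico 0 T) →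
    ∃ F : ℝ → H N, (∀ t ∈ Ico 0 T, ∀ᵐ x, F t x = ((‖u t x‖ ^ α : ℝ) : ℂ) * u t x) ∧
      ContinuousOn F (Ico 0 T)

/-- GL-K5: Duhamel's formula in `L²`, in Fourier variables -/
def S_K5 : Prop :=
  ∀ {N : ℕ} (θ α γ T : ℝ) (u0 : C₀(E N, ℂ)) (u : ℝ → C₀(E N, ℂ)), 0 ≤ θ → θ < Real.pi / 2 →
    0 < α → 0 ≤ γ → 0 < T → IsMild θ α γ T u0 u →
    ∀ (U Gh : ℝ → H N) (S : ℝ → H N →L[ℂ] H N),
    (∀ t ∈ Ico 0 T, ∀ᵐ x, U t x = u t x) → ContinuousOn U (Ico 0 T) →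
    (∀ t ∈ Ico 0 T, ∀ᵐ x, Gh t x = nl θ α γ (fun y => u t y) x) → ContinuousOn Gh (Ico 0 T) →
    (∀ t, 0 ≤ t → ∀ f, ∀ᵐ ξ, (S t f) ξ =
      Complex.exp (-(zc θ * (t : ℂ) * ((aa ξ : ℝ) : ℂ))) * f ξ) →
    (∀ t, 0 ≤ t → ∀ f, ‖S t f‖ ≤ ‖f‖) → (∀ f, ContinuousOn (fun t => S t f) (Ici 0)) →
    ∀ t ∈ Ico 0 T, (𝓕 (U t) : H N) = S t (𝓕 (U 0)) + ∫ s in (0 : ℝ)..t, S (t - s) (𝓕 (Gh s))

/-- GL-K6: the truncated equation -/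
def S_K6 : Prop :=
  ∀ {N : ℕ} (θ T : ℝ), 0 ≤ θ → θ < Real.pi / 2 → 0 < T →
    ∀ (P A : ℕ → H N →L[ℂ] H N) (S : ℝ → H N →L[ℂ] H N) (V Gh : ℝ → H N),
    (∀ n f, ∀ᵐ ξ, (P n f) ξ = if aa ξ ≤ n then f ξ else 0) →
    (∀ n f, ∀ᵐ ξ, (A n f) ξ = if aa ξ ≤ n then ((aa ξ : ℝ) : ℂ) * f ξ else 0) →
    (∀ t, 0 ≤ t → ∀ f, ∀ᵐ ξ, (S t f) ξ =
      Complex.exp (-(zc θ * (t : ℂ) * ((aa ξ : ℝ) : ℂ))) * f ξ) →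
    (∀ t, 0 ≤ t → ∀ f, ‖S t f‖ ≤ ‖f‖) → (∀ f, ContinuousOn (fun t => S t f) (Ici 0)) →
    ContinuousOn V (Ico 0 T) → ContinuousOn Gh (Ico 0 T) →
    (∀ t ∈ Ico 0 T, V t = S t (V 0) + ∫ s in (0 : ℝ)..t, S (t - s) (Gh s)) →
    ∀ n, ∀ t ∈ Ioo 0 T, HasDerivAt (fun s => P n (V s)) (-(zc θ • A n (V t)) + P n (Gh t)) t

/-- GL-K8: sup norm bound up to time `K/γ` for large `γ` -/
def S_K8 : Prop :=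
  ∀ {N : ℕ} (θ α K : ℝ) (u0 : C₀(E N, ℂ)), 0 ≤ θ → θ < Real.pi / 2 → 0 < α → 0 < K →
    ∃ M g0 : ℝ, 0 < M ∧ 0 < g0 ∧ ∀ (γ T : ℝ) (u : ℝ → C₀(E N, ℂ)), g0 < γ →
      IsMild θ α γ T u0 u → ∀ t, 0 ≤ t → t < T → t ≤ K / γ → ‖u t‖ ≤ M

/-- GL-K9: the potential -/
def S_K9 : Prop :=
  ∀ {N : ℕ} (α M : ℝ) (W : H N) (k : H N), 0 < α → (∀ᵐ x, ‖W x‖ ≤ M) →
    (∀ᵐ x, k x = ((‖W x‖ ^ α : ℝ) : ℂ) * W x) →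
    Integrable (fun x => ‖W x‖ ^ (α + 2)) (volume : Measure (E N)) ∧
    inner ℂ k W = ((∫ x, ‖W x‖ ^ (α + 2) : ℝ) : ℂ) ∧ ‖k‖ ≤ M ^ α * ‖W‖ ∧
    ∀ (W' : H N), Integrable (fun x => ‖W' x‖ ^ (α + 2)) (volume : Measure (E N)) →
      (inner ℂ k (W' - W)).re ≤
        (∫ x, ‖W' x‖ ^ (α + 2)) / (α + 2) - (∫ x, ‖W x‖ ^ (α + 2)) / (α + 2)

/-- GL-PLB: lower bound for the potential near a nonzero function -/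
def S_PLB : Prop :=
  ∀ {N : ℕ} (α : ℝ) (W0 : H N), 0 < α → W0 ≠ 0 → ∃ β p1 : ℝ, 0 < β ∧ 0 < p1 ∧
    ∀ W : H N, ‖W - W0‖ ≤ β → Integrable (fun x => ‖W x‖ ^ (α + 2)) (volume : Measure (E N)) →
      p1 ≤ (∫ x, ‖W x‖ ^ (α + 2)) / (α + 2)

end Pool.Agent.R228.GL
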