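import Mathlib
import Pool.Agent.R228.GL.Stm

/-!
# GL-RA: the blow-up lemma for real functions
-/

namespace Pool.Agent.R228.GL

open MeasureTheory Filter Set
open scoped Topology

namespace RAaux

theorem int_lower {e : ℝ → ℝ} {s t : ℝ} (hst : s ≤ t)
    (hm : ∀ a b, s ≤ a → a ≤ b → b ≤ t → e a ≤ e b) : e s * (t - s) ≤ ∫ r in s..t, e r := by
  have hmono : MonotoneOn e (uIcc s t) := by
    rw [uIcc_of_le hst]
    intro a ha b hb hab
    exact hm a b ha.1 hab hb.2
  have h1 : ∫ _ in s..t, e s = e s * (t - s) := by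
    rw [intervalIntegral.integral_const]; simp [mul_comm]
  rw [← h1]
  apply intervalIntegral.integral_mono_on hst intervalIntegrable_const hmono.intervalIntegrable
  intro x hx
  exact hm s x le_rfl hx.1 hx.2

/-- one small step, in multiplicative form -/
theorem step {c C K δ ε Y1 eb ys yt es et d : ℝ} (hC : 0 < C) (hK : 0 < K) (hδ : 0 < δ)
    (hδ1 : δ < 1) (hε : ε = δ * Y1 / 4) (hc : K * (1 + δ) ≤ (c * (1 - δ) - 1) * C)
    (hY1 : 0 < Y1) (hs : Y1 ≤ ys) (hst : ys ≤ yt) (hes : 0 < es) (hest : es ≤ et)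
    (het : et ≤ eb) (hd : 0 ≤ d) (hy : yt - ys ≤ ε) (hdK : K * d * eb ≤ ε)
    (hA : c * es * (yt - ys) ≤ (et - es) * yt) (hB : C * (es * d) ≤ yt - ys) :
    yt * es ≤ ys * et - K * d * es * et := by
  have het0 : 0 < et := lt_of_lt_of_le hes hest
  have hys0 : 0 < ys := lt_of_lt_of_le hY1 hs
  by_cases hcase : et ≤ (1 + δ) * es
  · -- case 1
    have h1 : (1 - δ) * yt ≤ ys := by nlinarith
    have h2 : (1 - δ) * (c * es * (yt - ys)) ≤ ys * (et - es) := by
      calc (1 - δ) * (c * es * (yt - ys)) ≤ (1 - δ) * ((et - es) * yt) :=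
            mul_le_mul_of_nonneg_left hA (by linarith)
        _ = ((1 - δ) * yt) * (et - es) := by ring
        _ ≤ ys * (et - es) := mul_le_mul_of_nonneg_right h1 (by linarith)
    have hcc : 0 < c * (1 - δ) - 1 := by
      have : 0 < (c * (1 - δ) - 1) * C := lt_of_lt_of_le (by positivity) hc
      exact (pos_iff_pos_of_mul_pos this).mpr hC
    have h3 : (c * (1 - δ) - 1) * es * (C * (es * d)) ≤ (c * (1 - δ) - 1) * es * (yt - ys) :=
      mul_le_mul_of_nonneg_left hB (by positivity)
    have h4 : K * (1 + δ) * (es * (es * d)) ≤ (c * (1 - δ) - 1) * C * (es * (es * d)) :=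
      mul_le_mul_of_nonneg_right hc (by positivity)
    have h5 : K * d * es * et ≤ K * d * es * ((1 + δ) * es) :=
      mul_le_mul_of_nonneg_left hcase (by positivity)
    nlinarith
  · -- case 2
    push Not at hcase
    have hε0 : 0 < ε := by rw [hε]; positivity
    have h1 : δ / 2 * et ≤ et - es := by nlinarith
    have h2 : 2 * ε * et ≤ ys * (et - es) := by
      calc 2 * ε * et = Y1 * (δ / 2 * et) := by rw [hε]; ring
        _ ≤ Y1 * (et - es) := mul_le_mul_of_nonneg_left h1 hY1.le
        _ ≤ ys * (et - es) := mul_le_mul_of_nonneg_right hs (by linarith)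
    have h3 : yt * es ≤ ys * es + ε * es := by nlinarith
    have h4 : ε * es ≤ ε * et := mul_le_mul_of_nonneg_left hest hε0.le
    have h5 : K * d * es ≤ ε := by
      refine le_trans ?_ hdK
      exact mul_le_mul_of_nonneg_left (hest.trans het) (by positivity)
    have h6 : K * d * es * et ≤ ε * et := mul_le_mul_of_nonneg_right h5 het0.le
    nlinarith

end RAaux

open RAaux

theorem ra : S_RA := by
  intro c C t1 T y e hc hC htT hcont hpos he1 H
  have hemono : ∀ s t, t1 ≤ s → s ≤ t → t < T → e s ≤ e t := fun s t h1 h2 h3 => (H s t h1 h2 h3).2.1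
  have hymono : ∀ s t, t1 ≤ s → s ≤ t → t < T → y s ≤ y t := fun s t h1 h2 h3 => (H s t h1 h2 h3).1
  have hY1 : 0 < y t1 := hpos t1 ⟨le_rfl, htT⟩
  have hepos : ∀ s, t1 ≤ s → s < T → 0 < e s := fun s h1 h2 =>
    lt_of_lt_of_le he1 (hemono t1 s le_rfl h1 h2)
  -- main claim
  have main : ∀ b, t1 < b → b < T → ∀ K, 0 < K → K < (c - 1) * C →
      K * (b - t1) ≤ y t1 / e t1 := by
    intro b hb1 hbT K hK hKlt
    have hcC : 0 < c * C := by positivity
    have hden : 0 < c * C + K := by positivity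
    obtain ⟨δ, hδdef⟩ : ∃ δ, δ = ((c - 1) * C - K) / (c * C + K) := ⟨_, rfl⟩
    have hδ : 0 < δ := by rw [hδdef]; apply div_pos _ hden; linarith
    have hδ1 : δ < 1 := by
      rw [hδdef, div_lt_one hden]; nlinarith
    have hδeq : δ * (c * C + K) = (c - 1) * C - K := by
      rw [hδdef]; field_simp
    have hcK : K * (1 + δ) ≤ (c * (1 - δ) - 1) * C := by nlinarith
    obtain ⟨ε, hε⟩ : ∃ ε, ε = δ * y t1 / 4 := ⟨_, rfl⟩
    have hε0 : 0 < ε := by rw [hε]; positivity
    have heb : 0 < e b := hepos b hb1.le hbT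
    -- uniform continuity
    have hcb : ContinuousOn y (Icc t1 b) := hcont.mono (fun x hx => ⟨hx.1, lt_of_le_of_lt hx.2 hbT⟩)
    have huc := isCompact_Icc.uniformContinuousOn_of_continuous hcb
    rw [Metric.uniformContinuousOn_iff_le] at huc
    obtain ⟨η, hη, hη'⟩ := huc ε hε0
    obtain ⟨N, hN⟩ := exists_nat_gt (max ((b - t1) / η) (K * (b - t1) * e b / ε))
    have hN1 : (b - t1) / η < N := lt_of_le_of_lt (le_max_left _ _) hN
    have hN2 : K * (b - t1) * e b / ε < N := lt_of_le_of_lt (le_max_right _ _) hN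
    have hbt : 0 < b - t1 := by linarith
    have hN0 : (0 : ℝ) < N := lt_trans (by positivity) hN1
    obtain ⟨τ, hτdef⟩ : ∃ τ, τ = (b - t1) / N := ⟨_, rfl⟩
    have hτ : 0 < τ := by rw [hτdef]; positivity
    have hNτ : (N : ℝ) * τ = b - t1 := by rw [hτdef]; field_simp
    have hτη : τ ≤ η := by
      rw [hτdef, div_le_iff₀ hN0]
      rw [div_lt_iff₀ hη] at hN1
      linarith
    have hτε : K * τ * e b ≤ ε := by
      rw [hτdef]
      rw [div_lt_iff₀ hε0] at hN2
      have : K * ((b - t1) / N) * e b = K * (b - t1) * e b / N := by ring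
      rw [this, div_le_iff₀ hN0]
      linarith
    have ind : ∀ n : ℕ, n ≤ N → y (t1 + n * τ) / e (t1 + n * τ) ≤ y t1 / e t1 - K * (n * τ) := by
      intro n
      induction n with
      | zero => intro _; simp
      | succ n ih =>
        intro hn
        have ih' := ih (by omega)
        have hnN : ((n : ℝ) + 1) ≤ N := by exact_mod_cast hn
        have hs1 : t1 ≤ t1 + n * τ := by have : 0 ≤ (n : ℝ) * τ := by positivity
                                         linarith
        have hst : t1 + (n : ℝ) * τ ≤ t1 + ((n + 1 : ℕ) : ℝ) * τ := by push_cast; nlinarith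
        have htb : t1 + ((n + 1 : ℕ) : ℝ) * τ ≤ b := by push_cast; nlinarith
        have htT' : t1 + ((n + 1 : ℕ) : ℝ) * τ < T := lt_of_le_of_lt htb hbT
        obtain ⟨hy1, he1', hA, hB⟩ := H _ _ hs1 hst htT'
        have hd : (t1 + ((n + 1 : ℕ) : ℝ) * τ) - (t1 + (n : ℝ) * τ) = τ := by push_cast; ring
        have hes : 0 < e (t1 + n * τ) := hepos _ hs1 (lt_of_le_of_lt hst htT')
        have het : 0 < e (t1 + ((n + 1 : ℕ) : ℝ) * τ) := lt_of_lt_of_le hes he1'
        have hint := int_lower (e := e) hst (fun a b' h1 h2 h3 =>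
          hemono a b' (hs1.trans h1) h2 (lt_of_le_of_lt h3 htT'))
        rw [hd] at hint
        have hyd : y (t1 + ((n + 1 : ℕ) : ℝ) * τ) - y (t1 + n * τ) ≤ ε := by
          have := hη' (t1 + ((n + 1 : ℕ) : ℝ) * τ) ⟨hs1.trans hst, htb⟩ (t1 + n * τ)
            ⟨hs1, hst.trans htb⟩ (by rw [Real.dist_eq, hd, abs_of_pos hτ]; exact hτη)
          rw [Real.dist_eq] at this
          exact (le_abs_self _).trans this
        have hstep := step (d := τ) hC hK hδ hδ1 hε hcK hY1
          (hymono t1 _ le_rfl hs1 (lt_of_le_of_lt hst htT')) hy1 hes he1'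
          (hemono _ b (hs1.trans hst) htb hbT) hτ.le hyd hτε hA
          (le_trans (mul_le_mul_of_nonneg_left hint hC.le) hB)
        have hdiv : y (t1 + ((n + 1 : ℕ) : ℝ) * τ) / e (t1 + ((n + 1 : ℕ) : ℝ) * τ) ≤
            y (t1 + n * τ) / e (t1 + n * τ) - K * τ := by
          rw [div_le_iff₀ het]
          have : (y (t1 + n * τ) / e (t1 + n * τ) - K * τ) * e (t1 + ((n + 1 : ℕ) : ℝ) * τ) =
              (y (t1 + n * τ) * e (t1 + ((n + 1 : ℕ) : ℝ) * τ) -
                K * τ * e (t1 + n * τ) * e (t1 + ((n + 1 : ℕ) : ℝ) * τ)) / e (t1 + n * τ) := by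
            field_simp
          rw [this, le_div_iff₀ hes]
          exact hstep
        have : K * (((n + 1 : ℕ) : ℝ) * τ) = K * (n * τ) + K * τ := by push_cast; ring
        rw [this]
        linarith
    have hfin := ind N le_rfl
    rw [hNτ] at hfin
    have hbb : t1 + (b - t1) = b := by ring
    rw [hbb] at hfin
    have : 0 < y b / e b := div_pos (hpos b ⟨hb1.le, hbT⟩) heb
    linarith
  -- pass to the limit
  have hlim1 : ∀ b, t1 < b → b < T → (c - 1) * C * (b - t1) ≤ y t1 / e t1 := by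
    intro b hb1 hbT
    have hcC : 0 < (c - 1) * C := mul_pos (by linarith) hC
    have hbt : 0 < b - t1 := by linarith
    have h1 : (c - 1) * C ≤ (y t1 / e t1) / (b - t1) := by
      refine le_of_forall_lt_imp_le_of_dense ?_ |> fun h => h
      intro K hK
      by_cases hK0 : 0 < K
      · rw [le_div_iff₀ hbt]
        exact main b hb1 hbT K hK0 hK
      · push Not at hK0
        exact hK0.trans (by positivity)
    rwa [le_div_iff₀ hbt] at h1
  have hlim2 : (c - 1) * C * (T - t1) ≤ y t1 / e t1 := by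
    have hcC : 0 < (c - 1) * C := mul_pos (by linarith) hC
    have h1 : T ≤ t1 + (y t1 / e t1) / ((c - 1) * C) := by
      refine le_of_forall_lt_imp_le_of_dense ?_ |> fun h => h
      intro b hb
      by_cases hb1 : t1 < b
      · have := hlim1 b hb1 hb
        have h2 : b - t1 ≤ (y t1 / e t1) / ((c - 1) * C) := by
          rw [le_div_iff₀ hcC]; linarith
        linarith
      · push Not at hb1
        have : 0 < (y t1 / e t1) / ((c - 1) * C) := by positivity
        linarith
    have h2 : T - t1 ≤ (y t1 / e t1) / ((c - 1) * C) := by linarith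
    rw [le_div_iff₀ hcC] at h2
    linarith
  rw [le_div_iff₀ he1] at hlim2
  linarith

end Pool.Agent.R228.GL
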