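import Pool.Agent.R228.GL.Stm

/-!
# Piece GL-SG: the semigroup in Fourier variables
-/

namespace Pool.Agent.R228.GL

open MeasureTheory Filter Set
open scoped ENNReal Topology FourierTransform ZeroAtInfty

namespace SGx

variable {N : ℕ}

/-- the multiplier -/
noncomputable def mt (θ t : ℝ) (ξ : E N) : ℂ :=
  Complex.exp (-(zc θ * (t : ℂ) * ((aa ξ : ℝ) : ℂ)))

lemma aa_cont : Continuous (aa : E N → ℝ) := by
  unfold aa; fun_prop

lemma aa_nonneg (ξ : E N) : 0 ≤ aa ξ := by unfold aa; positivity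

lemma mt_cont (θ t : ℝ) : Continuous (mt θ t : E N → ℂ) := by
  unfold mt
  refine Complex.continuous_exp.comp (Continuous.neg (Continuous.mul continuous_const ?_))
  exact Complex.continuous_ofReal.comp aa_cont

lemma mt_cont_t (θ : ℝ) (ξ : E N) : Continuous (fun t => mt θ t ξ) := by
  unfold mt
  refine Complex.continuous_exp.comp (Continuous.neg (Continuous.mul
    (Continuous.mul continuous_const Complex.continuous_ofReal) continuous_const))

lemma zc_re (θ : ℝ) : (zc θ).re = Real.cos θ := by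
  unfold zc; exact Complex.exp_ofReal_mul_I_re θ

lemma mt_norm {θ t : ℝ} (h0 : 0 ≤ θ) (h1 : θ < Real.pi / 2) (ht : 0 ≤ t) (ξ : E N) :
    ‖mt θ t ξ‖ ≤ 1 := by
  unfold mt
  rw [Complex.norm_exp, Real.exp_le_one_iff]
  have e : (-(zc θ * (t : ℂ) * ((aa ξ : ℝ) : ℂ))).re = -(Real.cos θ * t * aa ξ) := by
    rw [Complex.neg_re, Complex.re_mul_ofReal, Complex.re_mul_ofReal, zc_re]
  rw [e]
  have hc : 0 ≤ Real.cos θ := Real.cos_nonneg_of_mem_Icc ⟨by linarith [Real.pi_pos], h1.le⟩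
  have := mul_nonneg (mul_nonneg hc ht) (aa_nonneg ξ)
  linarith

lemma memLp_mul {m : E N → ℂ} (hm : Continuous m) (hb : ∀ ξ, ‖m ξ‖ ≤ 1) (f : H N) :
    MemLp (fun ξ => m ξ * f ξ) 2 (volume : Measure (E N)) := by
  refine MemLp.of_le (Lp.memLp f) (hm.aestronglyMeasurable.mul (Lp.aestronglyMeasurable f)) ?_
  refine Eventually.of_forall fun ξ => ?_
  rw [norm_mul]
  have h1 := hb ξ
  have h2 := norm_nonneg (f ξ)
  nlinarith

/-- multiplication by a continuous function bounded by one -/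
noncomputable def mulOp (m : E N → ℂ) (hm : Continuous m) (hb : ∀ ξ, ‖m ξ‖ ≤ 1) :
    H N →L[ℂ] H N :=
  LinearMap.mkContinuous
    { toFun := fun f => (memLp_mul hm hb f).toLp _
      map_add' := fun f g => by
        rw [← MemLp.toLp_add]
        refine MemLp.toLp_congr _ _ ?_
        filter_upwards [Lp.coeFn_add f g] with ξ h
        rw [h, Pi.add_apply, Pi.add_apply, mul_add]
      map_smul' := fun c f => by
        rw [RingHom.id_apply, ← MemLp.toLp_const_smul]
        refine MemLp.toLp_congr _ _ ?_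
        filter_upwards [Lp.coeFn_smul c f] with ξ h
        rw [h, Pi.smul_apply, Pi.smul_apply, smul_eq_mul, smul_eq_mul]
        ring } 1
    (fun f => by
      rw [one_mul]
      refine Lp.norm_le_norm_of_ae_le ?_
      filter_upwards [MemLp.coeFn_toLp (memLp_mul hm hb f)] with ξ h
      rw [LinearMap.coe_mk, AddHom.coe_mk, h, norm_mul]
      have h1 := hb ξ
      have h2 := norm_nonneg (f ξ)
      nlinarith)

lemma mulOp_ae (m : E N → ℂ) (hm : Continuous m) (hb : ∀ ξ, ‖m ξ‖ ≤ 1) (f : H N) :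
    ∀ᵐ ξ, (mulOp m hm hb f) ξ = m ξ * f ξ :=
  MemLp.coeFn_toLp (memLp_mul hm hb f)

lemma mulOp_norm (m : E N → ℂ) (hm : Continuous m) (hb : ∀ ξ, ‖m ξ‖ ≤ 1) (f : H N) :
    ‖mulOp m hm hb f‖ ≤ ‖f‖ := by
  refine Lp.norm_le_norm_of_ae_le ?_
  filter_upwards [mulOp_ae m hm hb f] with ξ h
  rw [h, norm_mul]
  have h1 := hb ξ
  have h2 := norm_nonneg (f ξ)
  nlinarith

lemma normsq (g : H N) : ‖g‖ ^ 2 = ∫ x, ‖g x‖ ^ 2 := by
  have h2 : inner ℂ g g = ((‖g‖ : ℂ)) ^ 2 := inner_self_eq_norm_sq_to_K g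
  have h3 : inner ℂ g g = ((∫ x, ‖g x‖ ^ 2 : ℝ) : ℂ) := by
    rw [L2.inner_def, ← integral_complex_ofReal]
    refine integral_congr_ae (Eventually.of_forall fun x => ?_)
    have : inner ℂ (g x) (g x) = ((‖g x‖ : ℂ)) ^ 2 := inner_self_eq_norm_sq_to_K (g x)
    simp only [this]
    push_cast
    rfl
  rw [h2] at h3
  exact_mod_cast h3

end SGx

open SGx in
theorem sg : S_SG := by
  classical
  intro N θ h0 h1
  refine ⟨fun t => if h : 0 ≤ t then
    mulOp (mt θ t) (mt_cont θ t) (fun ξ => mt_norm h0 h1 h ξ) else 0, ?_, ?_, ?_⟩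
  · intro t ht f
    simp only [dif_pos ht]
    exact mulOp_ae _ _ _ f
  · intro t ht f
    simp only [dif_pos ht]
    exact mulOp_norm _ _ _ f
  · intro f s hs
    have hs' : (0:ℝ) ≤ s := hs
    rw [ContinuousWithinAt, tendsto_iff_norm_sub_tendsto_zero]
    have key : Tendsto (fun t => ∫ ξ : E N, ‖(mt θ t ξ - mt θ s ξ) * f ξ‖ ^ 2) (𝓝[Ici 0] s)
        (𝓝 (∫ _ : E N, (0:ℝ))) := by
      refine tendsto_integral_filter_of_dominated_convergence (fun ξ => 4 * ‖f ξ‖ ^ 2) ?_ ?_ ?_ ?_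
      · refine Eventually.of_forall fun t => ?_
        exact ((((mt_cont θ t).sub (mt_cont θ s)).aestronglyMeasurable.mul
          (Lp.aestronglyMeasurable f)).norm).pow 2
      · filter_upwards [self_mem_nhdsWithin] with t ht
        refine Eventually.of_forall fun ξ => ?_
        have ha : ‖mt θ t ξ‖ ≤ 1 := mt_norm h0 h1 ht ξ
        have hb : ‖mt θ s ξ‖ ≤ 1 := mt_norm h0 h1 hs' ξ
        have hc : ‖mt θ t ξ - mt θ s ξ‖ ≤ 2 := (norm_sub_le _ _).trans (by linarith)
        rw [norm_mul, mul_pow, Real.norm_eq_abs, abs_of_nonneg (by positivity)]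
        have hd : ‖mt θ t ξ - mt θ s ξ‖ ^ 2 ≤ 4 := by nlinarith [norm_nonneg (mt θ t ξ - mt θ s ξ)]
        exact mul_le_mul_of_nonneg_right hd (by positivity)
      · exact ((memLp_two_iff_integrable_sq_norm (Lp.aestronglyMeasurable f)).1
          (Lp.memLp f)).const_mul 4
      · refine Eventually.of_forall fun ξ => ?_
        have hc : Continuous (fun t => ‖(mt θ t ξ - mt θ s ξ) * f ξ‖ ^ 2) :=
          (((mt_cont_t θ ξ).sub continuous_const).mul continuous_const).norm.pow 2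
        have := (hc.tendsto s).mono_left (nhdsWithin_le_nhds (s := Ici (0:ℝ)))
        simpa using this
    rw [integral_zero] at key
    have key2 := (key.sqrt)
    rw [Real.sqrt_zero] at key2
    refine key2.congr' ?_
    filter_upwards [self_mem_nhdsWithin] with t ht
    have ht' : (0:ℝ) ≤ t := ht
    simp only [dif_pos ht', dif_pos hs']
    rw [← Real.sqrt_sq (norm_nonneg (_ - _)), normsq]
    congr 1
    refine integral_congr_ae ?_
    filter_upwards [mulOp_ae (mt θ t) (mt_cont θ t) (fun ξ => mt_norm h0 h1 ht' ξ) f,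
      mulOp_ae (mt θ s) (mt_cont θ s) (fun ξ => mt_norm h0 h1 hs' ξ) f,
      Lp.coeFn_sub (mulOp (mt θ t) (mt_cont θ t) (fun ξ => mt_norm h0 h1 ht' ξ) f)
        (mulOp (mt θ s) (mt_cont θ s) (fun ξ => mt_norm h0 h1 hs' ξ) f)] with ξ e1 e2 e3
    rw [e3, Pi.sub_apply, e1, e2, sub_mul]

end Pool.Agent.R228.GL
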