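import Pool.Agent.R228.GL.Stm

/-!
Project GL (MP_b98ad5_an), piece TR: concrete spectral truncations on `L²`.
-/

namespace Pool.Agent.R228.GL

open MeasureTheory Filter Set
open scoped ENNReal Topology FourierTransform ZeroAtInfty

namespace Trx

variable {N : ℕ}

lemma mul_memLp {m : E N → ℝ} (hm : Measurable m) {C : ℝ} (hC : ∀ ξ, |m ξ| ≤ C) (f : H N) :
    MemLp (fun ξ => (m ξ : ℂ) * f ξ) 2 (volume : Measure (E N)) := by
  refine MemLp.of_le_mul (c := C) (Lp.memLp f) ?_ ?_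
  · exact (Complex.measurable_ofReal.comp hm).aestronglyMeasurable.mul (Lp.aestronglyMeasurable f)
  · refine Eventually.of_forall fun ξ => ?_
    rw [norm_mul, Complex.norm_real, Real.norm_eq_abs]
    exact mul_le_mul_of_nonneg_right (hC ξ) (norm_nonneg _)

/-- multiplication by a bounded real function -/
noncomputable def mulL (m : E N → ℝ) (hm : Measurable m) (C : ℝ) (hC : ∀ ξ, |m ξ| ≤ C) :
    H N →L[ℂ] H N :=
  LinearMap.mkContinuous
    { toFun := fun f => (mul_memLp hm hC f).toLp _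
      map_add' := fun f g => by
        refine Lp.ext ?_
        filter_upwards [(mul_memLp hm hC (f + g)).coeFn_toLp, (mul_memLp hm hC f).coeFn_toLp,
          (mul_memLp hm hC g).coeFn_toLp, Lp.coeFn_add f g,
          Lp.coeFn_add ((mul_memLp hm hC f).toLp _) ((mul_memLp hm hC g).toLp _)]
          with ξ h1 h2 h3 h4 h5
        rw [h1, h5, Pi.add_apply, h2, h3, h4, Pi.add_apply, mul_add]
      map_smul' := fun c f => by
        refine Lp.ext ?_
        filter_upwards [(mul_memLp hm hC (c • f)).coeFn_toLp, (mul_memLp hm hC f).coeFn_toLp,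
          Lp.coeFn_smul c f, Lp.coeFn_smul c ((mul_memLp hm hC f).toLp _)]
          with ξ h1 h2 h3 h4
        rw [h1, h3, RingHom.id_apply, h4, Pi.smul_apply, Pi.smul_apply, h2, smul_eq_mul,
          smul_eq_mul]
        ring }
    C (fun f => by
      refine Lp.norm_le_mul_norm_of_ae_le_mul ?_
      filter_upwards [(mul_memLp hm hC f).coeFn_toLp] with ξ h1
      change ‖((mul_memLp hm hC f).toLp _ : H N) ξ‖ ≤ C * ‖f ξ‖
      rw [h1, norm_mul, Complex.norm_real, Real.norm_eq_abs]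
      exact mul_le_mul_of_nonneg_right (hC ξ) (norm_nonneg _))

lemma mulL_coe (m : E N → ℝ) (hm : Measurable m) (C : ℝ) (hC : ∀ ξ, |m ξ| ≤ C) (f : H N) :
    ∀ᵐ ξ, (mulL m hm C hC f) ξ = (m ξ : ℂ) * f ξ :=
  (mul_memLp hm hC f).coeFn_toLp

lemma mulL_norm (m : E N → ℝ) (hm : Measurable m) (C : ℝ) (hC : ∀ ξ, |m ξ| ≤ C) (f : H N) :
    ‖mulL m hm C hC f‖ ≤ C * ‖f‖ := by
  refine Lp.norm_le_mul_norm_of_ae_le_mul ?_
  filter_upwards [mulL_coe m hm C hC f] with ξ h1
  rw [h1, norm_mul, Complex.norm_real, Real.norm_eq_abs]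
  exact mul_le_mul_of_nonneg_right (hC ξ) (norm_nonneg _)

lemma inner_l (m : E N → ℝ) (hm : Measurable m) (C : ℝ) (hC : ∀ ξ, |m ξ| ≤ C) (f g : H N) :
    inner ℂ (mulL m hm C hC f) g = ∫ ξ, (m ξ : ℂ) * inner ℂ (f ξ) (g ξ) := by
  rw [L2.inner_def]
  refine integral_congr_ae ?_
  filter_upwards [mulL_coe m hm C hC f] with ξ h1
  rw [h1, ← smul_eq_mul, inner_smul_left, Complex.conj_ofReal]

lemma inner_r (m : E N → ℝ) (hm : Measurable m) (C : ℝ) (hC : ∀ ξ, |m ξ| ≤ C) (f g : H N) :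
    inner ℂ f (mulL m hm C hC g) = ∫ ξ, (m ξ : ℂ) * inner ℂ (f ξ) (g ξ) := by
  rw [L2.inner_def]
  refine integral_congr_ae ?_
  filter_upwards [mulL_coe m hm C hC g] with ξ h1
  rw [h1, ← smul_eq_mul, inner_smul_right]

lemma int_sq (f : H N) : Integrable (fun ξ => ‖f ξ‖ ^ 2) (volume : Measure (E N)) :=
  (Lp.memLp f).integrable_norm_pow (by norm_num)

lemma int_mul (m : E N → ℝ) (hm : Measurable m) (C : ℝ) (hC : ∀ ξ, |m ξ| ≤ C) (f : H N) :
    Integrable (fun ξ => m ξ * ‖f ξ‖ ^ 2) (volume : Measure (E N)) := by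
  refine (int_sq f).bdd_mul (c := C) hm.aestronglyMeasurable ?_
  exact Eventually.of_forall fun ξ => by rw [Real.norm_eq_abs]; exact hC ξ

lemma re_inner (m : E N → ℝ) (hm : Measurable m) (C : ℝ) (hC : ∀ ξ, |m ξ| ≤ C) (f : H N) :
    (inner ℂ (mulL m hm C hC f) f).re = ∫ ξ, m ξ * ‖f ξ‖ ^ 2 := by
  rw [inner_l]
  have h1 : ∀ ξ, (m ξ : ℂ) * inner ℂ (f ξ) (f ξ) = ((m ξ * ‖f ξ‖ ^ 2 : ℝ) : ℂ) := by
    intro ξ
    rw [inner_self_eq_norm_sq_to_K]
    push_cast
    rfl
  simp only [h1]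
  rw [integral_complex_ofReal, Complex.ofReal_re]

lemma norm_sq (f : H N) : ‖f‖ ^ 2 = ∫ ξ, ‖f ξ‖ ^ 2 := by
  have h1 : inner ℂ f f = ∫ ξ, inner ℂ (f ξ) (f ξ) := L2.inner_def f f
  have h2 : ∀ ξ, inner ℂ (f ξ) (f ξ) = ((‖f ξ‖ ^ 2 : ℝ) : ℂ) := by
    intro ξ
    rw [inner_self_eq_norm_sq_to_K]
    push_cast
    rfl
  simp only [h2] at h1
  rw [integral_complex_ofReal, inner_self_eq_norm_sq_to_K] at h1
  have h3 : (((‖f‖ ^ 2 : ℝ)) : ℂ) = ((∫ ξ, ‖f ξ‖ ^ 2 : ℝ) : ℂ) := by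
    rw [← h1]
    push_cast
    rfl
  exact_mod_cast h3

lemma aa_meas : Measurable (aa (N := N)) := by
  unfold aa
  exact ((measurable_norm.pow_const 2).const_mul _)

lemma aa_nonneg (ξ : E N) : 0 ≤ aa ξ := by
  unfold aa; positivity

/-- the indicator -/
noncomputable def mp (n : ℕ) (ξ : E N) : ℝ := if aa ξ ≤ n then 1 else 0

/-- the truncated symbol -/
noncomputable def ma (n : ℕ) (ξ : E N) : ℝ := if aa ξ ≤ n then aa ξ else 0

lemma mp_meas (n : ℕ) : Measurable (mp (N := N) n) :=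
  Measurable.ite (measurableSet_le aa_meas measurable_const) measurable_const measurable_const

lemma ma_meas (n : ℕ) : Measurable (ma (N := N) n) :=
  Measurable.ite (measurableSet_le aa_meas measurable_const) aa_meas measurable_const

lemma mp_bd (n : ℕ) (ξ : E N) : |mp n ξ| ≤ 1 := by
  unfold mp; split_ifs <;> simp

lemma ma_bd (n : ℕ) (ξ : E N) : |ma n ξ| ≤ n := by
  unfold ma
  split_ifs with h
  · rw [abs_of_nonneg (aa_nonneg ξ)]; exact h
  · simp

lemma ma_nonneg (n : ℕ) (ξ : E N) : 0 ≤ ma n ξ := by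
  unfold ma
  split_ifs
  · exact aa_nonneg ξ
  · exact le_rfl

noncomputable def PP (n : ℕ) : H N →L[ℂ] H N := mulL (mp n) (mp_meas n) 1 (mp_bd n)

noncomputable def AA (n : ℕ) : H N →L[ℂ] H N := mulL (ma n) (ma_meas n) n (ma_bd n)

lemma PP_coe (n : ℕ) (f : H N) : ∀ᵐ ξ, (PP n f) ξ = (mp n ξ : ℂ) * f ξ :=
  mulL_coe _ _ _ _ f

lemma AA_coe (n : ℕ) (f : H N) : ∀ᵐ ξ, (AA n f) ξ = (ma n ξ : ℂ) * f ξ :=
  mulL_coe _ _ _ _ f

lemma tends (f : H N) : Tendsto (fun n => PP n f) atTop (𝓝 f) := by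
  rw [tendsto_iff_norm_sub_tendsto_zero]
  have h1 : ∀ n : ℕ, ‖PP n f - f‖ ^ 2 = ∫ ξ, (1 - mp n ξ) * ‖f ξ‖ ^ 2 := by
    intro n
    rw [norm_sq]
    refine integral_congr_ae ?_
    filter_upwards [PP_coe n f, Lp.coeFn_sub (PP n f) f] with ξ h2 h3
    rw [h3, Pi.sub_apply, h2]
    unfold mp
    split_ifs <;> simp
  have h2 : Tendsto (fun n : ℕ => ∫ ξ, (1 - mp n ξ) * ‖f ξ‖ ^ 2) atTop
      (𝓝 (∫ _ : E N, (0 : ℝ))) := by
    refine tendsto_integral_of_dominated_convergence (fun ξ => ‖f ξ‖ ^ 2) ?_ (int_sq f) ?_ ?_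
    · intro n
      exact ((measurable_const.sub (mp_meas n)).aestronglyMeasurable.mul (int_sq f).1)
    · intro n
      refine Eventually.of_forall fun ξ => ?_
      rw [Real.norm_eq_abs, abs_mul, abs_of_nonneg (sq_nonneg ‖f ξ‖)]
      have : |1 - mp n ξ| ≤ 1 := by
        unfold mp; split_ifs <;> simp
      nlinarith [sq_nonneg ‖f ξ‖]
    · refine Eventually.of_forall fun ξ => ?_
      refine tendsto_const_nhds.congr' ?_
      filter_upwards [eventually_ge_atTop ⌈aa ξ⌉₊] with n hn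
      have : aa ξ ≤ n := (Nat.le_ceil _).trans (by exact_mod_cast hn)
      unfold mp
      rw [if_pos this]
      ring
  rw [integral_zero] at h2
  simp only [← h1] at h2
  have h3 : Tendsto (fun n => Real.sqrt (‖PP n f - f‖ ^ 2)) atTop (𝓝 (Real.sqrt 0)) :=
    (Real.continuous_sqrt.tendsto 0).comp h2
  rw [Real.sqrt_zero] at h3
  simpa only [Real.sqrt_sq (norm_nonneg _)] using h3

end Trx

open Trx in
theorem tr : S_TR := by
  intro N
  refine ⟨PP, AA, ⟨tends, ?_, ?_, ?_, ?_, ?_, ?_, ?_, ?_⟩, ?_, ?_⟩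
  · intro n x
    have := mulL_norm (mp n) (mp_meas n) 1 (mp_bd n) x
    rw [one_mul] at this
    exact this
  · intro n x
    refine Lp.ext ?_
    filter_upwards [PP_coe n (PP n x), PP_coe n x] with ξ h1 h2
    rw [h1, h2]
    unfold mp
    split_ifs <;> simp
  · intro n x y
    unfold PP
    rw [inner_l, inner_r]
  · intro n x y
    unfold AA
    rw [inner_l, inner_r]
  · intro n x
    refine Lp.ext ?_
    filter_upwards [AA_coe n (PP n x), PP_coe n x, AA_coe n x] with ξ h1 h2 h3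
    rw [h1, h2, h3]
    unfold mp ma
    split_ifs <;> simp
  · intro n x
    refine Lp.ext ?_
    filter_upwards [PP_coe n (AA n x), AA_coe n x] with ξ h1 h2
    rw [h1, h2]
    unfold mp ma
    split_ifs <;> simp
  · intro n x
    unfold AA
    rw [re_inner]
    exact integral_nonneg fun ξ => mul_nonneg (ma_nonneg n ξ) (sq_nonneg _)
  · intro n m x hnm
    unfold AA
    rw [re_inner, re_inner]
    refine integral_mono (int_mul _ (ma_meas n) n (ma_bd n) x) (int_mul _ (ma_meas m) m (ma_bd m) x)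
      fun ξ => ?_
    refine mul_le_mul_of_nonneg_right ?_ (sq_nonneg _)
    have hnm' : (n : ℝ) ≤ m := by exact_mod_cast hnm
    unfold ma
    split_ifs with h1 h2 h2
    · exact le_rfl
    · exact absurd (h1.trans hnm') h2
    · exact aa_nonneg ξ
    · exact le_rfl
  · intro n f
    filter_upwards [PP_coe n f] with ξ h1
    rw [h1]
    unfold mp
    split_ifs <;> simp
  · intro n f
    filter_upwards [AA_coe n f] with ξ h1
    rw [h1]
    unfold ma
    split_ifs <;> simp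

end Pool.Agent.R228.GL
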