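import Pool.Agent.R228.GL.Stm

universe u

namespace Pool.Agent.R228.GL

open MeasureTheory Filter Set
open scoped ENNReal Topology

namespace YBaux

theorem ptw {G : Type u} [NormedAddCommGroup G] [InnerProductSpace ℂ G]
    (P A : ℕ → G →L[ℂ] G) (h : IsTrunc P A) (z : ℂ) (hz : ‖z‖ = 1) (hre : 0 < z.re) (c L : ℝ)
    (hc : 0 ≤ c) (x k : G) (hk : c * ‖k‖ ≤ L * ‖x‖) (n : ℕ) :
    (inner ℂ (P n x) (z • (-(A n x) + ((c : ℝ) : ℂ) • P n k))).re ≤ L * ‖x‖ ^ 2 := by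
  have e1 : inner ℂ (P n x) (A n x) = inner ℂ x (A n x) := by
    rw [h.symP, h.PA]
  have e2 : (inner ℂ x (A n x)).im = 0 := by
    rw [← Complex.conj_eq_iff_im, inner_conj_symm, h.symA]
  have e3 : 0 ≤ (inner ℂ x (A n x)).re := by
    rw [← h.symA]; exact h.nonneg n x
  rw [inner_smul_right, inner_add_right, inner_neg_right, e1, mul_add, Complex.add_re]
  have e4 : (z * -inner ℂ x (A n x)).re ≤ 0 := by
    rw [Complex.mul_re, Complex.neg_re, Complex.neg_im, e2]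
    nlinarith [mul_nonneg hre.le e3]
  have e5 : (z * inner ℂ (P n x) (((c : ℝ) : ℂ) • P n k)).re ≤ L * ‖x‖ ^ 2 := by
    calc (z * inner ℂ (P n x) (((c : ℝ) : ℂ) • P n k)).re
        ≤ ‖z * inner ℂ (P n x) (((c : ℝ) : ℂ) • P n k)‖ := Complex.re_le_norm _
      _ = ‖inner ℂ (P n x) (((c : ℝ) : ℂ) • P n k)‖ := by rw [norm_mul, hz, one_mul]
      _ ≤ ‖P n x‖ * ‖((c : ℝ) : ℂ) • P n k‖ := norm_inner_le_norm _ _
      _ = ‖P n x‖ * (c * ‖P n k‖) := by
          rw [norm_smul, Complex.norm_real, Real.norm_of_nonneg hc]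
      _ ≤ ‖x‖ * (c * ‖k‖) := by
          apply mul_le_mul (h.norm_le n x) _ (by positivity) (norm_nonneg _)
          exact mul_le_mul_of_nonneg_left (h.norm_le n k) hc
      _ ≤ ‖x‖ * (L * ‖x‖) := mul_le_mul_of_nonneg_left hk (norm_nonneg _)
      _ = L * ‖x‖ ^ 2 := by ring
  linarith

theorem hasDerivAt_nsq {G : Type u} [NormedAddCommGroup G] [InnerProductSpace ℂ G]
    {f : ℝ → G} {f' : G} {r : ℝ} (h : HasDerivAt f f' r) :
    HasDerivAt (fun s => ‖f s‖ ^ 2) (2 * (inner ℂ (f r) f').re) r := by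
  letI : InnerProductSpace ℝ G := InnerProductSpace.complexToReal
  exact HasDerivAt.norm_sq (F := G) h

end YBaux

theorem yb : S_YB.{u} := by
  intro G _ _ _ P A z α γ T a0 w k p hPA hE t L ht0 htT hL hk
  have hsub : Icc 0 t ⊆ Ico 0 T := fun x hx => ⟨hx.1, hx.2.trans_lt htT⟩
  have hwc : ContinuousOn w (Icc 0 t) := hE.cw.mono hsub
  obtain ⟨g, hg, hgw⟩ : ∃ g : ℝ → ℝ, Continuous g ∧ ∀ r ∈ Icc 0 t, g r = ‖w r‖ ^ 2 := by
    refine ⟨IccExtend ht0 ((Icc 0 t).restrict (fun r => ‖w r‖ ^ 2)), ?_, ?_⟩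
    · exact (continuousOn_iff_continuous_restrict.1 (hwc.norm.pow 2)).Icc_extend'
    · intro r hr
      exact IccExtend_of_mem _ _ hr
  have hI : ∀ r, HasDerivAt (fun r => ∫ x in (0:ℝ)..r, g x) (g r) r :=
    fun r => (hg.integral_hasStrictDerivAt 0 r).hasDerivAt
  have hIc : Continuous (fun r => ∫ x in (0:ℝ)..r, g x) :=
    continuous_iff_continuousAt.2 fun r => (hI r).continuousAt
  -- the inequality for each `n`
  have hn : ∀ n : ℕ, ∀ r ∈ Icc 0 t, ‖P n (w r)‖ ^ 2 - 2 * L * (∫ x in (0:ℝ)..r, g x) ≤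
      ‖P n (w 0)‖ ^ 2 := by
    intro n r hr
    have hd : ∀ r ∈ Ioo 0 t, HasDerivAt (fun r => ‖P n (w r)‖ ^ 2 - 2 * L * (∫ x in (0:ℝ)..r, g x))
        (2 * (inner ℂ (P n (w r)) (z • (-(A n (w r)) + ((Real.exp (α * γ * r) : ℝ) : ℂ) • P n (k r)))).re
          - 2 * L * g r) r := by
      intro r hr
      have h1 := YBaux.hasDerivAt_nsq (hE.ode n r ⟨hr.1, hr.2.trans htT⟩)
      exact h1.sub ((hI r).const_mul (2 * L))
    have hanti : AntitoneOn (fun r => ‖P n (w r)‖ ^ 2 - 2 * L * (∫ x in (0:ℝ)..r, g x)) (Icc 0 t) := by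
      apply antitoneOn_of_deriv_nonpos (convex_Icc 0 t)
      · apply ContinuousOn.sub
        · exact (((P n).continuous.comp_continuousOn hwc).norm).pow 2
        · exact (continuous_const.mul hIc).continuousOn
      · rw [interior_Icc]
        intro r hr
        exact (hd r hr).differentiableAt.differentiableWithinAt
      · rw [interior_Icc]
        intro r hr
        rw [(hd r hr).deriv, hgw r ⟨hr.1.le, hr.2.le⟩]
        have h2 := YBaux.ptw P A hPA z hE.hz hE.hre (Real.exp (α * γ * r)) L (Real.exp_pos _).le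
          (w r) (k r) (hk r hr.1.le hr.2.le) n
        linarith
    have h4 := hanti (left_mem_Icc.2 ht0) hr hr.1
    simpa using h4
  -- limit
  have hlim : ∀ r ∈ Icc 0 t, ‖w r‖ ^ 2 ≤ ‖w 0‖ ^ 2 + 2 * L * (∫ x in (0:ℝ)..r, g x) := by
    intro r hr
    have h1 : Tendsto (fun n => ‖P n (w r)‖ ^ 2 - 2 * L * (∫ x in (0:ℝ)..r, g x)) atTop
        (𝓝 (‖w r‖ ^ 2 - 2 * L * (∫ x in (0:ℝ)..r, g x))) :=
      ((hPA.tends (w r)).norm.pow 2).sub_const _
    have h2 : Tendsto (fun n => ‖P n (w 0)‖ ^ 2) atTop (𝓝 (‖w 0‖ ^ 2)) :=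
      (hPA.tends (w 0)).norm.pow 2
    have h3 := le_of_tendsto_of_tendsto' h1 h2 (fun n => hn n r hr)
    linarith
  -- Gronwall
  have hd2 : ∀ r, HasDerivAt (fun r => Real.exp (-(2 * L * r)) *
      (‖w 0‖ ^ 2 + 2 * L * (∫ x in (0:ℝ)..r, g x)))
      (Real.exp (-(2 * L * r)) * (-(2 * L * 1)) * (‖w 0‖ ^ 2 + 2 * L * (∫ x in (0:ℝ)..r, g x)) +
        Real.exp (-(2 * L * r)) * (2 * L * g r)) r := by
    intro r
    have h1 : HasDerivAt (fun r : ℝ => Real.exp (-(2 * L * r))) (Real.exp (-(2 * L * r)) * (-(2 * L * 1))) r :=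
      (((hasDerivAt_id r).const_mul (2 * L)).neg).exp
    exact h1.mul (((hI r).const_mul (2 * L)).const_add _)
  have hanti : AntitoneOn (fun r => Real.exp (-(2 * L * r)) *
      (‖w 0‖ ^ 2 + 2 * L * (∫ x in (0:ℝ)..r, g x))) (Icc 0 t) := by
    apply antitoneOn_of_deriv_nonpos (convex_Icc 0 t)
    · exact (continuous_iff_continuousAt.2 fun r => (hd2 r).continuousAt).continuousOn
    · intro r _
      exact (hd2 r).differentiableAt.differentiableWithinAt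
    · rw [interior_Icc]
      intro r hr
      have hr' : r ∈ Icc 0 t := ⟨hr.1.le, hr.2.le⟩
      rw [(hd2 r).deriv, hgw r hr']
      have h1 := hlim r hr'
      have h2 := Real.exp_pos (-(2 * L * r))
      have h3 : Real.exp (-(2 * L * r)) * (-(2 * L * 1)) * (‖w 0‖ ^ 2 + 2 * L * (∫ x in (0:ℝ)..r, g x)) +
        Real.exp (-(2 * L * r)) * (2 * L * ‖w r‖ ^ 2) = -(Real.exp (-(2 * L * r)) * (2 * L) *
          ((‖w 0‖ ^ 2 + 2 * L * (∫ x in (0:ℝ)..r, g x)) - ‖w r‖ ^ 2)) := by ring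
      rw [h3, neg_nonpos]
      have : 0 ≤ (‖w 0‖ ^ 2 + 2 * L * (∫ x in (0:ℝ)..r, g x)) - ‖w r‖ ^ 2 := by linarith
      positivity
  have h5 := hanti (left_mem_Icc.2 ht0) (right_mem_Icc.2 ht0) ht0
  simp only [mul_zero, neg_zero, Real.exp_zero, intervalIntegral.integral_same, add_zero, one_mul]
    at h5
  have h6 := hlim t (right_mem_Icc.2 ht0)
  have h7 : Real.exp (-(2 * L * t)) * ‖w t‖ ^ 2 ≤ ‖w 0‖ ^ 2 :=
    (mul_le_mul_of_nonneg_left h6 (Real.exp_pos _).le).trans h5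
  have h8 : ‖w t‖ ^ 2 ≤ (Real.exp (L * t) * ‖w 0‖) ^ 2 := by
    have e1 : Real.exp (L * t) ^ 2 * Real.exp (-(2 * L * t)) = 1 := by
      rw [← Real.exp_nat_mul, ← Real.exp_add]
      norm_num
      ring
    calc ‖w t‖ ^ 2 = Real.exp (L * t) ^ 2 * (Real.exp (-(2 * L * t)) * ‖w t‖ ^ 2) := by
          rw [← mul_assoc, e1, one_mul]
      _ ≤ Real.exp (L * t) ^ 2 * ‖w 0‖ ^ 2 := mul_le_mul_of_nonneg_left h7 (by positivity)
      _ = _ := by ring
  exact le_of_sq_le_sq h8 (by positivity)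

end Pool.Agent.R228.GL
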